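import Pool.Agent.Lib.MP_d24c19_al.FR.Defs

set_option autoImplicit false

/-!
ROW fr-A: a run is computed by the fold over the crossed vectors (`w` an isometry). Induction on `l`, all the other variables general.
The letter `r` crosses `b = w α_r`; the match of `foldF` looks at `lam (ρ b) = mu α_r`. If it is `some a`: `stepF_some`, the frame `mu` stays,
new `ρ' = ρ ∘ R_b`, `w' = w ∘ R_r`, and `ρ' (w' v) = ρ (R_b (w (R_r v))) = ρ (w (R_r (R_r v))) = ρ (w v)` since `R_(w α_r) (w u) = w (R_r u)` (w linear isometry,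
`R_apply`, `map_sub`, `map_smul`) and `R_R`. If it is `none`: `stepF_none`, the new frame is `mu.comp r`, `(mu.comp r).1 v = mu.1 (R_r v)`.
`w'` is an isometry by `bil_R` (norm of `α_r` is 2: `bil_al`, `IsGram.two`).
-/

namespace Pool.Agent.FR

variable {F : Type} [Field F] {n : ℕ} {S' K : Type} [Group K]


theorem run_fold {c : Fin n → Fin n → F} (hc : IsGram c) (x : S' → K) (lam : FB c x)
    (l : List (Fin n)) (ρ w : (Fin n → F) →ₗ[F] (Fin n → F))
    (hw : ∀ u v, bil c (w u) (w v) = bil c u v) (k : K) (mu : FB c x)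
    (hmu : ∀ b, mu.1 b = lam.1 (ρ (w b))) :
    ∃ nu : FB c x, runF hc x l (mu, k) = (nu, (foldF c x lam.1 (rts c l w) (ρ, k)).2) ∧
      ∀ b, nu.1 b = lam.1 ((foldF c x lam.1 (rts c l w) (ρ, k)).1 (wd c l w b)) := by
  induction l generalizing ρ w k mu with
  | nil => exact ⟨mu, rfl, hmu⟩
  | cons r l ih =>
    have hr : bil c (al r) (al r) = 2 := by rw [bil_al, hc.two]
    have hw' : ∀ u v, bil c ((w ∘ₗ R c (al r)) u) ((w ∘ₗ R c (al r)) v) = bil c u v := by
      intro u v
      rw [LinearMap.comp_apply, LinearMap.comp_apply, hw, bil_R c hc (al r) hr]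
    have hm := hmu (al r)
    rcases h : lam.1 (ρ (w (al r))) with _ | a
    · have e1 : foldF c x lam.1 (rts c (r :: l) w) (ρ, k) =
          foldF c x lam.1 (rts c l (w ∘ₗ R c (al r))) (ρ, k) := by
        simp only [rts, foldF, h]
      have e2 : runF hc x (r :: l) (mu, k) = runF hc x l (mu.comp hc r, k) := by
        simp only [runF]
        rw [stepF_none hc x r (mu, k) (hm.trans h)]
      rw [e1, e2]
      exact ih ρ (w ∘ₗ R c (al r)) hw' k (mu.comp hc r) (fun b => hmu _)
    · have e1 : foldF c x lam.1 (rts c (r :: l) w) (ρ, k) =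
          foldF c x lam.1 (rts c l (w ∘ₗ R c (al r))) (ρ ∘ₗ R c (w (al r)), x a * k) := by
        simp only [rts, foldF, h]
      have e2 : runF hc x (r :: l) (mu, k) = runF hc x l (mu, x a * k) := by
        simp only [runF]
        rw [stepF_some hc x r (mu, k) a (hm.trans h)]
      rw [e1, e2]
      refine ih (ρ ∘ₗ R c (w (al r))) (w ∘ₗ R c (al r)) hw' (x a * k) mu (fun b => ?_)
      have e3 : ∀ u, R c (w (al r)) (w u) = w (R c (al r) u) := by
        intro u
        rw [R_apply, R_apply, hw, map_sub, map_smul]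
      rw [LinearMap.comp_apply, LinearMap.comp_apply, e3, R_R c (al r) hr]
      exact hmu b

end Pool.Agent.FR
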