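import Pool.Agent.Lib.MP_d24c19_al.FR.Defs

set_option autoImplicit false

/-!
ROW fr-B: the fold over a list only depends on the sublist of the labelled vectors. Induction on `l`, `p` general. If `lam b = none` then
`lam (p.1 b) = none` (`hl`), both sides skip `b`. If `lam b = some _`, `lam (p.1 b) = some a`, both sides do the same step; the hypothesis `hl` for
`p.1 ∘ R_b`: `lam (p.1 (R_b b')) = none ↔ lam (R_b b') = none ↔ lam b' = none`: `lam.2.refl` for `b, b'` and for `b, R_b b'` with `R_R` (norm: `lam.2.norm`).
-/

namespace Pool.Agent.FR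

variable {F : Type} [Field F] {n : ℕ} {S' K : Type} [Group K]


theorem fold_filter {c : Fin n → Fin n → F} (hc : IsGram c) (x : S' → K) (lam : FB c x)
    (l : List (Fin n → F)) (p : ((Fin n → F) →ₗ[F] (Fin n → F)) × K)
    (hl : ∀ b, lam.1 (p.1 b) = none ↔ lam.1 b = none) :
    foldF c x lam.1 l p = foldF c x lam.1 (l.filter (fun b => (lam.1 b).isSome)) p := by
  induction l generalizing p with
  | nil => rfl
  | cons b l ih =>
    rcases h : lam.1 b with _ | a0
    · have e1 : foldF c x lam.1 (b :: l) p = foldF c x lam.1 l p := by
        simp only [foldF, (hl b).2 h]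
      have e2 : (b :: l).filter (fun b => (lam.1 b).isSome) =
          l.filter (fun b => (lam.1 b).isSome) := by
        rw [List.filter_cons_of_neg]
        simp [h]
      rw [e1, e2]
      exact ih p hl
    · have hne : lam.1 (p.1 b) ≠ none := by
        intro h1
        rw [(hl b).1 h1] at h
        cases h
      obtain ⟨a, ha⟩ := Option.ne_none_iff_exists'.1 hne
      have hn := lam.2.norm _ a0 h
      have key : ∀ b', lam.1 (R c b b') = none ↔ lam.1 b' = none := by
        intro b'
        constructor
        · intro h1
          by_contra h2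
          obtain ⟨a', ha'⟩ := Option.ne_none_iff_exists'.1 h2
          obtain ⟨a'', h3⟩ := lam.2.refl _ _ a0 a' h ha'
          rw [h1] at h3
          cases h3
        · intro h1
          by_contra h2
          obtain ⟨a', ha'⟩ := Option.ne_none_iff_exists'.1 h2
          obtain ⟨a'', h3⟩ := lam.2.refl _ _ a0 a' h ha'
          rw [R_R c b hn, h1] at h3
          cases h3
      have e1 : foldF c x lam.1 (b :: l) p = foldF c x lam.1 l (p.1 ∘ₗ R c b, x a * p.2) := by
        simp only [foldF, ha]
      have e2 : (b :: l).filter (fun b => (lam.1 b).isSome) =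
          b :: l.filter (fun b => (lam.1 b).isSome) := by
        rw [List.filter_cons_of_pos]
        simp [h]
      have e3 : foldF c x lam.1 (b :: l.filter (fun b => (lam.1 b).isSome)) p =
          foldF c x lam.1 (l.filter (fun b => (lam.1 b).isSome)) (p.1 ∘ₗ R c b, x a * p.2) := by
        simp only [foldF, ha]
      rw [e1, e2, e3]
      refine ih (p.1 ∘ₗ R c b, x a * p.2) (fun b' => ?_)
      change lam.1 (p.1 (R c b b')) = none ↔ lam.1 b' = none
      rw [hl, key]

end Pool.Agent.FR
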