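import Pool.Agent.Lib.MP_d24c19_al.FR.Defs

set_option autoImplicit false

/-!
ROW fr-C: the fold over a list of labelled vectors of admissible shape and over its reverse agree. Cases of `Shape`:
`[]`, `[b]`: trivial. `[b, b']` with `bil b b' = 0`: `R_b b' = b'`, `R_b' b = b`; result `(R_b ∘ R_b', x a' * (x a * k))` against `(R_b' ∘ R_b, x a * (x a' * k))`:
`lam.2.comm`, and the reflections commute (`R_conj` with `R_b b' = b'`, or directly from `R_apply`).
`[b, b + b', b']`, `B(b,b') = -1`, norms 2 (`lam.2.norm`), `B` symmetric (`bil_symm`): `R_b (b + b') = b'`, `R_(b+b') b' = -b`, `R_b (-b) = b`, so the labels used are those of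
`b, b', b`: `k` becomes `x a * (x a' * (x a * k))`; the reverse list gives the labels of `b', b, b'`: `x a' * (x a * (x a' * k))`: `lam.2.braid`. (`lam b = some a`, `lam b' = some a'`;
`lam (b + b')` is some label by `hl`, it is not used.) Linear parts: `R_b ∘ R_(b+b') ∘ R_b' = R_b' ∘ R_(b+b') ∘ R_b`: compute both on a vector `v` with `R_apply`
(both are `v ↦` an explicit combination of `v, b, b'` with coefficients in `B(b,v), B(b',v)`; e.g. both equal `v - (B(b,v)+B(b',v)) (b+b')`).
-/

namespace Pool.Agent.FR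

variable {F : Type} [Field F] {n : ℕ} {S' K : Type} [Group K]


theorem frC_cons {c : Fin n → Fin n → F} {x : S' → K} {lam : (Fin n → F) → Option S'}
    {b : Fin n → F} {l : List (Fin n → F)} {ρ : (Fin n → F) →ₗ[F] (Fin n → F)} {k : K} {a : S'}
    (h : lam (ρ b) = some a) :
    foldF c x lam (b :: l) (ρ, k) = foldF c x lam l (ρ ∘ₗ R c b, x a * k) := by
  rw [foldF]
  simp only [h]

theorem fold_shape {c : Fin n → Fin n → F} (hc : IsGram c) (x : S' → K) (lam : FB c x)
    (l : List (Fin n → F)) (hl : ∀ b ∈ l, lam.1 b ≠ none) (h : Shape c l) (k : K) :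
    foldF c x lam.1 l (LinearMap.id, k) = foldF c x lam.1 l.reverse (LinearMap.id, k) := by
  rcases h with rfl | ⟨b, rfl⟩ | ⟨b, b', rfl, h0⟩ | ⟨b, b', rfl, h1⟩
  · rfl
  · rfl
  · obtain ⟨a, ha⟩ := Option.ne_none_iff_exists'.1 (hl b (by simp))
    obtain ⟨a', ha'⟩ := Option.ne_none_iff_exists'.1 (hl b' (by simp))
    have h0' : bil c b' b = 0 := by rw [bil_symm c hc.symm, h0]
    have e1 : R c b b' = b' := by rw [R_apply, h0, zero_smul, sub_zero]
    have e2 : R c b' b = b := by rw [R_apply, h0', zero_smul, sub_zero]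
    have hr : [b, b'].reverse = [b', b] := rfl
    rw [hr, frC_cons (a := a) (by simpa using ha), frC_cons (a := a') (by simpa [e1] using ha'),
      frC_cons (a := a') (by simpa using ha'), frC_cons (a := a) (by simpa [e2] using ha)]
    show ((LinearMap.id ∘ₗ R c b) ∘ₗ R c b', x a' * (x a * k)) =
      ((LinearMap.id ∘ₗ R c b') ∘ₗ R c b, x a * (x a' * k))
    refine Prod.ext ?_ ?_
    · refine LinearMap.ext fun v => ?_
      show R c b (R c b' v) = R c b' (R c b v)
      simp only [R_apply, bil_sub_right, bil_smul_right, h0, h0', mul_zero, sub_zero]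
      abel
    · show x a' * (x a * k) = x a * (x a' * k)
      rw [← mul_assoc, ← mul_assoc, lam.2.comm b b' a a' ha ha' h0]
  · obtain ⟨a, ha⟩ := Option.ne_none_iff_exists'.1 (hl b (by simp))
    obtain ⟨a', ha'⟩ := Option.ne_none_iff_exists'.1 (hl b' (by simp))
    obtain ⟨a'', ha''⟩ := Option.ne_none_iff_exists'.1 (hl (b + b') (by simp))
    have h1' : bil c b' b = -1 := by rw [bil_symm c hc.symm, h1]
    have hb : bil c b b = 2 := lam.2.norm b a ha
    have hb' : bil c b' b' = 2 := lam.2.norm b' a' ha'
    have e1 : R c b (b + b') = b' := by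
      rw [R_apply, bil_add_right, hb, h1, show (2 : F) + -1 = 1 by norm_num, one_smul]
      abel
    have e2 : R c (b + b') b' = -b := by
      rw [R_apply, bil_add_left, h1, hb', show (-1 : F) + 2 = 1 by norm_num, one_smul]
      abel
    have e3 : R c b (-b) = b := by
      rw [map_neg, R_self c b hb, neg_neg]
    have e1' : R c b' (b + b') = b := by
      rw [R_apply, bil_add_right, hb', h1', show (-1 : F) + 2 = 1 by norm_num, one_smul]
      abel
    have e2' : R c (b + b') b = -b' := by
      rw [R_apply, bil_add_left, h1', hb, show (2 : F) + -1 = 1 by norm_num, one_smul]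
      abel
    have e3' : R c b' (-b') = b' := by
      rw [map_neg, R_self c b' hb', neg_neg]
    have hr : [b, b + b', b'].reverse = [b', b + b', b] := rfl
    have g1 : lam.1 ((LinearMap.id : (Fin n → F) →ₗ[F] (Fin n → F)) b) = some a := ha
    have g2 : lam.1 ((LinearMap.id ∘ₗ R c b) (b + b')) = some a' := by
      show lam.1 (R c b (b + b')) = some a'
      rw [e1, ha']
    have g3 : lam.1 (((LinearMap.id ∘ₗ R c b) ∘ₗ R c (b + b')) b') = some a := by
      show lam.1 (R c b (R c (b + b') b')) = some a
      rw [e2, e3, ha]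
    have g1' : lam.1 ((LinearMap.id : (Fin n → F) →ₗ[F] (Fin n → F)) b') = some a' := ha'
    have g2' : lam.1 ((LinearMap.id ∘ₗ R c b') (b + b')) = some a := by
      show lam.1 (R c b' (b + b')) = some a
      rw [e1', ha]
    have g3' : lam.1 (((LinearMap.id ∘ₗ R c b') ∘ₗ R c (b + b')) b) = some a' := by
      show lam.1 (R c b' (R c (b + b') b)) = some a'
      rw [e2', e3', ha']
    rw [hr, frC_cons g1, frC_cons g2, frC_cons g3, frC_cons g1', frC_cons g2', frC_cons g3']
    show (((LinearMap.id ∘ₗ R c b) ∘ₗ R c (b + b')) ∘ₗ R c b', x a * (x a' * (x a * k))) =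
      (((LinearMap.id ∘ₗ R c b') ∘ₗ R c (b + b')) ∘ₗ R c b, x a' * (x a * (x a' * k)))
    refine Prod.ext ?_ ?_
    · refine LinearMap.ext fun v => ?_
      show R c b (R c (b + b') (R c b' v)) = R c b' (R c (b + b') (R c b v))
      have hs : ∀ w, R c (b + b') w = w - (bil c b w + bil c b' w) • (b + b') := fun w => by
        rw [R_apply, bil_add_left]
      simp only [hs, R_apply, bil_sub_right, bil_smul_right, bil_add_right, hb, hb', h1, h1']
      module
    · show x a * (x a' * (x a * k)) = x a' * (x a * (x a' * k))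
      have := lam.2.braid b b' a a' ha ha' h1
      simp only [← mul_assoc]
      rw [this]

end Pool.Agent.FR
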