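import Pool.Agent.Lib.MP_d24c19_al.FR.Defs

set_option autoImplicit false

/-!
ROW fr-D: the vectors crossed by the alternating word; `z` a primitive `2m`-th root of unity, `c s t = -(z + 1/z)`.
Write `[j] = (z^j - z^-j)/(z - z^-1)` (`z ≠ z⁻¹` because the order of `z` is `2m ≥ 4`), `b_j = dr z s t j = [j+1] α_s + [j] α_t`. Facts: `[0] = 0`, `[1] = 1`, `[j+1] + [j-1] = (z + z⁻¹) [j]`,
`[m] = 0`, `[m-j] = [j]` (`z^m = -1`), `[m-1-j] = [j+1]` (`j < m`). `R_s α_t = α_t + (z + z⁻¹) α_s`, `R_s α_s = -α_s` (from `bil_al`).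
Suggested: strengthen: for the alternating word starting with `s` the partial product `w_i = R_s R_t R_s ..` (`i` factors) satisfies `w_i α_(next letter) = b_i` (next letter = `s` for `i` even, `t` for `i` odd)
and `w_i α_(other letter) = -b_(i-1)` (`b_(-1) := -α_t`, i.e. for `i = 0` it is `α_t`); step: `w_(i+1) α_(r') = w_i R_r α_(r') = w_i (α_(r') + (z+z⁻¹) α_r) = -b_(i-1) + (z+z⁻¹) b_i = b_(i+1)`,
`w_(i+1) α_r = -w_i α_r = -b_i`. For the word starting with `t`: same with `s, t` exchanged: `dr z t s j = dr z s t (m-1-j)`.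
Third claim (the two products of `m` reflections are equal): both fix every `v` with `B(α_s,v) = B(α_t,v) = 0`, both have the same values on `α_s, α_t`
(first word: `w_m α_(r_(m+1)) = b_m = -α_t... ` : `[m+1] = -1, [m] = 0`: `b_m = -α_s`, and `-b_(m-1) = -α_t`: so for m even `w_m α_s = -α_s, w_m α_t = -α_t`, for m odd `w_m α_t = -α_s, w_m α_s = -α_t`; same for the other word),
and every `v` is `x α_s + y α_t + v0` with `B(α_s,v0) = B(α_t,v0) = 0` because `4 - (z+z⁻¹)^2 = -(z - z⁻¹)^2 ≠ 0`.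
-/

namespace Pool.Agent.FR

variable {F : Type} [Field F] {n : ℕ} {S' K : Type} [Group K]

private def frD_q (z : F) (j : ℕ) : F := (z ^ j - (z⁻¹) ^ j) / (z - z⁻¹)

private theorem frD_q0 (z : F) : frD_q z 0 = 0 := by
  unfold frD_q; simp

private theorem frD_q1 (z : F) (h : z - z⁻¹ ≠ 0) : frD_q z 1 = 1 := by
  unfold frD_q
  rw [pow_one, pow_one, div_self h]

private theorem frD_rec (z : F) (h0 : z ≠ 0) (j : ℕ) :
    frD_q z (j + 2) = (z + z⁻¹) * frD_q z (j + 1) - frD_q z j := by
  unfold frD_q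
  rw [← mul_div_assoc, ← sub_div]
  congr 1
  have h1 : z * z⁻¹ = 1 := mul_inv_cancel₀ h0
  have e1 : z ^ (j + 2) = z * z ^ (j + 1) := by ring
  have e2 : (z⁻¹) ^ (j + 2) = z⁻¹ * (z⁻¹) ^ (j + 1) := by ring
  have e3 : z⁻¹ * z ^ (j + 1) = z ^ j := by
    rw [pow_succ, mul_comm (z ^ j) z, ← mul_assoc, mul_comm z⁻¹ z, h1, one_mul]
  have e4 : z * (z⁻¹) ^ (j + 1) = (z⁻¹) ^ j := by
    rw [pow_succ, mul_comm ((z⁻¹) ^ j) z⁻¹, ← mul_assoc, h1, one_mul]
  rw [e1, e2]
  have : (z + z⁻¹) * (z ^ (j + 1) - (z⁻¹) ^ (j + 1)) - (z ^ j - (z⁻¹) ^ j)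
      = z * z ^ (j + 1) + z⁻¹ * z ^ (j + 1) - z * (z⁻¹) ^ (j + 1)
        - z⁻¹ * (z⁻¹) ^ (j + 1) - (z ^ j - (z⁻¹) ^ j) := by ring
  rw [this, e3, e4]
  ring

private theorem frD_zm (z : F) (m : ℕ) (hm : 2 ≤ m) (hz : IsPrimitiveRoot z (2 * m)) :
    z ^ m = -1 := by
  have h1 : z ^ m ≠ 1 := hz.pow_ne_one_of_pos_of_lt (by omega) (by omega)
  have h2 : (z ^ m) ^ 2 = 1 := by
    rw [← pow_mul, mul_comm m 2]; exact hz.pow_eq_one
  rcases mul_eq_zero.1 (show (z ^ m - 1) * (z ^ m + 1) = 0 by linear_combination h2) with h | h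
  · exact absurd (sub_eq_zero.1 h) h1
  · exact eq_neg_of_add_eq_zero_left h

private theorem frD_zz (z : F) (m : ℕ) (hm : 2 ≤ m) (hz : IsPrimitiveRoot z (2 * m)) :
    z ≠ 0 ∧ z - z⁻¹ ≠ 0 := by
  have h0 : z ≠ 0 := hz.ne_zero (by omega)
  refine ⟨h0, fun h => ?_⟩
  have h2 : z ^ 2 ≠ 1 := hz.pow_ne_one_of_pos_of_lt (by omega) (by omega)
  apply h2
  have h3 : z = z⁻¹ := sub_eq_zero.1 h
  rw [sq]
  nth_rewrite 2 [h3]
  exact mul_inv_cancel₀ h0

private theorem frD_qsym (z : F) (m : ℕ) (h0 : z ≠ 0) (hzm : z ^ m = -1) (j : ℕ) (hj : j ≤ m) :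
    frD_q z (m - j) = frD_q z j := by
  unfold frD_q
  congr 1
  have e1 : z ^ (m - j) = -(z⁻¹) ^ j := by
    have : z ^ (m - j) * z ^ j = -1 := by rw [← pow_add, Nat.sub_add_cancel hj, hzm]
    have h1 : z ^ j * (z⁻¹) ^ j = 1 := by rw [← mul_pow, mul_inv_cancel₀ h0, one_pow]
    calc z ^ (m - j) = z ^ (m - j) * (z ^ j * (z⁻¹) ^ j) := by rw [h1, mul_one]
      _ = (z ^ (m - j) * z ^ j) * (z⁻¹) ^ j := by ring
      _ = -(z⁻¹) ^ j := by rw [this]; ring
  have e2 : (z⁻¹) ^ (m - j) = -z ^ j := by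
    have h2 : (z⁻¹) ^ m = -1 := by rw [inv_pow, hzm]; norm_num
    have : (z⁻¹) ^ (m - j) * (z⁻¹) ^ j = -1 := by rw [← pow_add, Nat.sub_add_cancel hj, h2]
    have h1 : z ^ j * (z⁻¹) ^ j = 1 := by rw [← mul_pow, mul_inv_cancel₀ h0, one_pow]
    calc (z⁻¹) ^ (m - j) = (z⁻¹) ^ (m - j) * (z ^ j * (z⁻¹) ^ j) := by rw [h1, mul_one]
      _ = ((z⁻¹) ^ (m - j) * (z⁻¹) ^ j) * z ^ j := by ring
      _ = -z ^ j := by rw [this]; ring
  rw [e1, e2]
  ring

private theorem frD_rts (c : Fin n → Fin n → F) (hc : IsGram c) (z : F) (h0 : z ≠ 0)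
    (h1 : z - z⁻¹ ≠ 0) (k : ℕ) : ∀ (a b : Fin n) (_ : c a b = -(z + z⁻¹))
    (w : (Fin n → F) →ₗ[F] (Fin n → F)),
    rts c (altL a b k) w =
      (List.range k).map (fun i => frD_q z (i + 1) • w (al a) + frD_q z i • w (al b)) := by
  induction k with
  | zero => intro a b _ w; rfl
  | succ k ih =>
    intro a b hab w
    have hba : c b a = -(z + z⁻¹) := by rw [hc.symm]; exact hab
    have e1 : (w ∘ₗ R c (al a)) (al b) = w (al b) + (z + z⁻¹) • w (al a) := by
      rw [LinearMap.comp_apply, R_apply, bil_al, hab, map_sub, map_smul]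
      module
    have e2 : (w ∘ₗ R c (al a)) (al a) = - w (al a) := by
      rw [LinearMap.comp_apply, R_self c _ (by rw [bil_al, hc.two]), map_neg]
    rw [altL, rts, ih b a hba, List.range_succ_eq_map, List.map_cons, List.map_map]
    congr 1
    · rw [frD_q0, zero_add, frD_q1 z h1, one_smul, zero_smul, add_zero]
    · refine List.map_congr_left fun i _ => ?_
      rw [e1, e2, Function.comp_apply, Nat.succ_eq_add_one, frD_rec z h0 i]
      module

private theorem frD_wd (c : Fin n → Fin n → F) (hc : IsGram c) (z : F) (h0 : z ≠ 0)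
    (h1 : z - z⁻¹ ≠ 0) (k : ℕ) : ∀ (a b : Fin n) (_ : c a b = -(z + z⁻¹))
    (w : (Fin n → F) →ₗ[F] (Fin n → F)),
    wd c (altL a b k) w (al (if Even k then a else b)) =
        frD_q z (k + 1) • w (al a) + frD_q z k • w (al b) ∧
      wd c (altL a b k) w (al (if Even k then b else a)) =
        -(frD_q z k • w (al a) + ((z + z⁻¹) * frD_q z k - frD_q z (k + 1)) • w (al b)) := by
  induction k with
  | zero =>
    intro a b _ w
    rw [if_pos Even.zero, if_pos Even.zero, frD_q0, zero_add, frD_q1 z h1]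
    constructor
    · change w (al a) = _
      module
    · change w (al b) = _
      module
  | succ k ih =>
    intro a b hab w
    have hba : c b a = -(z + z⁻¹) := by rw [hc.symm]; exact hab
    have e1 : (w ∘ₗ R c (al a)) (al b) = w (al b) + (z + z⁻¹) • w (al a) := by
      rw [LinearMap.comp_apply, R_apply, bil_al, hab, map_sub, map_smul]
      module
    have e2 : (w ∘ₗ R c (al a)) (al a) = - w (al a) := by
      rw [LinearMap.comp_apply, R_self c _ (by rw [bil_al, hc.two]), map_neg]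
    have p1 : (if Even (k + 1) then a else b) = (if Even k then b else a) := by
      by_cases h : Even k <;> simp [Nat.even_add_one, h]
    have p2 : (if Even (k + 1) then b else a) = (if Even k then a else b) := by
      by_cases h : Even k <;> simp [Nat.even_add_one, h]
    obtain ⟨i1, i2⟩ := ih b a hba (w ∘ₗ R c (al a))
    rw [p1, p2, altL, wd, i1, i2, e1, e2, frD_rec z h0 k]
    constructor
    · module
    · module

private theorem frD_fix (c : Fin n → Fin n → F) (k : ℕ) : ∀ (a b : Fin n)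
    (w : (Fin n → F) →ₗ[F] (Fin n → F)) (v : Fin n → F) (_ : bil c (al a) v = 0)
    (_ : bil c (al b) v = 0), wd c (altL a b k) w v = w v := by
  induction k with
  | zero => intro a b w v _ _; rfl
  | succ k ih =>
    intro a b w v ha hb
    rw [altL, wd, ih b a _ v hb ha, LinearMap.comp_apply, R_apply, ha, zero_smul, sub_zero]

theorem rts_alt (c : Fin n → Fin n → F) (hc : IsGram c) (z : F) (m : ℕ) (hm : 2 ≤ m)
    (hz : IsPrimitiveRoot z (2 * m)) (s t : Fin n) (hst : s ≠ t) (hcs : c s t = -(z + z⁻¹)) :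
    rts c (altL s t m) LinearMap.id = (List.range m).map (dr z s t) ∧
    rts c (altL t s m) LinearMap.id = ((List.range m).map (dr z s t)).reverse ∧
    wd c (altL s t m) LinearMap.id = wd c (altL t s m) LinearMap.id := by
  obtain ⟨h0, h1⟩ := frD_zz z m hm hz
  have hzm := frD_zm z m hm hz
  have hct : c t s = -(z + z⁻¹) := by rw [hc.symm]; exact hcs
  have hqm : frD_q z m = 0 := by
    have := frD_qsym z m h0 hzm 0 (by omega)
    rw [Nat.sub_zero, frD_q0] at this
    exact this
  have hqm1 : frD_q z (m - 1) = 1 := by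
    rw [frD_qsym z m h0 hzm 1 (by omega), frD_q1 z h1]
  have hqp1 : frD_q z (m + 1) = -1 := by
    have := frD_rec z h0 (m - 1)
    rw [show m - 1 + 2 = m + 1 by omega, show m - 1 + 1 = m by omega, hqm, hqm1] at this
    rw [this]; ring
  refine ⟨?_, ?_, ?_⟩
  · rw [frD_rts c hc z h0 h1 m s t hcs]
    rfl
  · rw [frD_rts c hc z h0 h1 m t s hct]
    apply List.ext_getElem
    · simp
    · intro i hi1 hi2
      have hi : i < m := by simpa using hi1
      rw [List.getElem_reverse, List.getElem_map, List.getElem_map, List.getElem_range,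
        List.getElem_range]
      simp only [List.length_map, List.length_range]
      change _ = frD_q z (m - 1 - i + 1) • al s + frD_q z (m - 1 - i) • al t
      rw [show m - 1 - i + 1 = m - i by omega, show m - 1 - i = m - (i + 1) by omega,
        frD_qsym z m h0 hzm i (by omega), frD_qsym z m h0 hzm (i + 1) (by omega), add_comm]
      rfl
  · obtain ⟨i1, i2⟩ := frD_wd c hc z h0 h1 m s t hcs LinearMap.id
    obtain ⟨j1, j2⟩ := frD_wd c hc z h0 h1 m t s hct LinearMap.id
    rw [hqm, hqp1] at i1 i2 j1 j2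
    simp only [LinearMap.id_apply, zero_smul, add_zero, mul_zero, zero_sub, neg_neg, one_smul,
      zero_add, neg_smul] at i1 i2 j1 j2
    have k1 : wd c (altL s t m) LinearMap.id (al s) = wd c (altL t s m) LinearMap.id (al s) := by
      by_cases he : Even m
      · rw [if_pos he] at i1 j2
        rw [i1, j2]
      · rw [if_neg he] at i2 j1
        rw [i2, j1]
    have k2 : wd c (altL s t m) LinearMap.id (al t) = wd c (altL t s m) LinearMap.id (al t) := by
      by_cases he : Even m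
      · rw [if_pos he] at i2 j1
        rw [i2, j1]
      · rw [if_neg he] at i1 j2
        rw [i1, j2]
    refine LinearMap.ext fun v => ?_
    set d : F := 4 - (z + z⁻¹) ^ 2 with hd
    have hd0 : d ≠ 0 := by
      have : d = -(z - z⁻¹) ^ 2 := by
        rw [hd]
        have h2 : z * z⁻¹ = 1 := mul_inv_cancel₀ h0
        linear_combination (-4 : F) * h2
      rw [this]
      exact neg_ne_zero.2 (pow_ne_zero 2 h1)
    set x : F := (2 * bil c (al s) v + (z + z⁻¹) * bil c (al t) v) / d with hx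
    set y : F := ((z + z⁻¹) * bil c (al s) v + 2 * bil c (al t) v) / d with hy
    have hxd : x * d = 2 * bil c (al s) v + (z + z⁻¹) * bil c (al t) v := by
      rw [hx, div_mul_cancel₀ _ hd0]
    have hyd : y * d = (z + z⁻¹) * bil c (al s) v + 2 * bil c (al t) v := by
      rw [hy, div_mul_cancel₀ _ hd0]
    have hv : v = x • al s + y • al t + (v - x • al s - y • al t) := by abel
    have f1 : bil c (al s) (v - x • al s - y • al t) = 0 := by
      rw [bil_sub_right, bil_sub_right, bil_smul_right, bil_smul_right, bil_al, bil_al, hc.two, hcs]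
      apply mul_right_cancel₀ hd0
      rw [hd] at hxd hyd ⊢
      linear_combination (-2 : F) * hxd + (z + z⁻¹) * hyd
    have f2 : bil c (al t) (v - x • al s - y • al t) = 0 := by
      rw [bil_sub_right, bil_sub_right, bil_smul_right, bil_smul_right, bil_al, bil_al, hc.two, hct]
      apply mul_right_cancel₀ hd0
      rw [hd] at hxd hyd ⊢
      linear_combination (z + z⁻¹) * hxd + (-2 : F) * hyd
    rw [hv, map_add, map_add, map_add, map_add, map_smul, map_smul, map_smul, map_smul, k1, k2,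
      frD_fix c m s t _ _ f1 f2, frD_fix c m t s _ _ f2 f1]

end Pool.Agent.FR
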