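import Mathlib
import Pool.Agent.Lib.MP_d24c19_al.Grp
import Pool.Agent.Lib.MP_d24c19_al.TwDef

set_option autoImplicit false

/-!
Frames: labelled sets of roots in a finite quotient of the root system, the action of the Artin
group on them, and detection of properties by matrix coefficients. Definitions and first lemmas.
-/

namespace Pool.Agent.FR

section form
variable {F : Type} [Field F] {n : ℕ}

/-- the bilinear form with Gram matrix `c` -/
def bil (c : Fin n → Fin n → F) (v w : Fin n → F) : F := ∑ s, ∑ t, v s * (c s t * w t)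

/-- the simple root -/
def al (s : Fin n) : Fin n → F := Pi.single s 1

theorem bil_add_left (c : Fin n → Fin n → F) (u v w : Fin n → F) :
    bil c (u + v) w = bil c u w + bil c v w := by
  unfold bil
  rw [← Finset.sum_add_distrib]
  refine Finset.sum_congr rfl fun s _ => ?_
  rw [← Finset.sum_add_distrib]
  refine Finset.sum_congr rfl fun t _ => ?_
  rw [Pi.add_apply, add_mul]

theorem bil_smul_left (c : Fin n → Fin n → F) (x : F) (v w : Fin n → F) :
    bil c (x • v) w = x * bil c v w := by
  unfold bil
  rw [Finset.mul_sum]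
  refine Finset.sum_congr rfl fun s _ => ?_
  rw [Finset.mul_sum]
  refine Finset.sum_congr rfl fun t _ => ?_
  rw [Pi.smul_apply, smul_eq_mul, mul_assoc]

theorem bil_add_right (c : Fin n → Fin n → F) (u v w : Fin n → F) :
    bil c u (v + w) = bil c u v + bil c u w := by
  unfold bil
  rw [← Finset.sum_add_distrib]
  refine Finset.sum_congr rfl fun s _ => ?_
  rw [← Finset.sum_add_distrib]
  refine Finset.sum_congr rfl fun t _ => ?_
  rw [Pi.add_apply]
  ring

theorem bil_smul_right (c : Fin n → Fin n → F) (x : F) (v w : Fin n → F) :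
    bil c v (x • w) = x * bil c v w := by
  unfold bil
  rw [Finset.mul_sum]
  refine Finset.sum_congr rfl fun s _ => ?_
  rw [Finset.mul_sum]
  refine Finset.sum_congr rfl fun t _ => ?_
  rw [Pi.smul_apply, smul_eq_mul]
  ring

theorem bil_neg_left (c : Fin n → Fin n → F) (v w : Fin n → F) : bil c (-v) w = -bil c v w := by
  rw [← neg_one_smul F v, bil_smul_left, neg_one_mul]

theorem bil_neg_right (c : Fin n → Fin n → F) (v w : Fin n → F) : bil c v (-w) = -bil c v w := by
  rw [← neg_one_smul F w, bil_smul_right, neg_one_mul]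

theorem bil_sub_left (c : Fin n → Fin n → F) (u v w : Fin n → F) :
    bil c (u - v) w = bil c u w - bil c v w := by
  rw [sub_eq_add_neg, bil_add_left, bil_neg_left, sub_eq_add_neg]

theorem bil_sub_right (c : Fin n → Fin n → F) (u v w : Fin n → F) :
    bil c u (v - w) = bil c u v - bil c u w := by
  rw [sub_eq_add_neg, bil_add_right, bil_neg_right, sub_eq_add_neg]

theorem bil_symm (c : Fin n → Fin n → F) (hc : ∀ s t, c s t = c t s) (v w : Fin n → F) :
    bil c v w = bil c w v := by
  unfold bil
  rw [Finset.sum_comm]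
  refine Finset.sum_congr rfl fun s _ => Finset.sum_congr rfl fun t _ => ?_
  rw [hc t s]
  ring

theorem bil_al (c : Fin n → Fin n → F) (s t : Fin n) : bil c (al s) (al t) = c s t := by
  unfold bil al
  rw [Finset.sum_eq_single s]
  · rw [Finset.sum_eq_single t]
    · simp
    · intro b _ hb
      simp [hb]
    · intro h; exact absurd (Finset.mem_univ _) h
  · intro b _ hb
    refine Finset.sum_eq_zero fun t _ => ?_
    simp [hb]
  · intro h; exact absurd (Finset.mem_univ _) h

/-- the reflection in the vector `b` -/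
def R (c : Fin n → Fin n → F) (b : Fin n → F) : (Fin n → F) →ₗ[F] (Fin n → F) where
  toFun v := v - bil c b v • b
  map_add' u v := by
    rw [bil_add_right, add_smul]
    abel
  map_smul' x v := by
    rw [bil_smul_right, RingHom.id_apply, smul_sub, smul_smul]

theorem R_apply (c : Fin n → Fin n → F) (b v : Fin n → F) : R c b v = v - bil c b v • b := rfl

/-- the Gram matrix: symmetric, norm 2 -/
structure IsGram (c : Fin n → Fin n → F) : Prop where
  symm : ∀ s t, c s t = c t s
  two : ∀ s, c s s = 2

theorem bil_R (c : Fin n → Fin n → F) (hc : IsGram c) (b : Fin n → F) (hb : bil c b b = 2)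
    (v w : Fin n → F) : bil c (R c b v) (R c b w) = bil c v w := by
  rw [R_apply, R_apply, bil_sub_left, bil_sub_right, bil_sub_right, bil_smul_left, bil_smul_left,
    bil_smul_right, bil_smul_right, hb, bil_symm c hc.symm v b]
  ring

theorem R_R (c : Fin n → Fin n → F) (b : Fin n → F) (hb : bil c b b = 2) (v : Fin n → F) :
    R c b (R c b v) = v := by
  rw [R_apply, R_apply, bil_sub_right, bil_smul_right, hb, sub_sub, ← add_smul]
  rw [show bil c b v + (bil c b v - bil c b v * 2) = 0 by ring, zero_smul, sub_zero]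

theorem R_self (c : Fin n → Fin n → F) (b : Fin n → F) (hb : bil c b b = 2) : R c b b = -b := by
  rw [R_apply, hb, two_smul]
  abel

/-- conjugation of reflections -/
theorem R_conj (c : Fin n → Fin n → F) (hc : IsGram c) (b b' : Fin n → F) (hb : bil c b b = 2)
    (v : Fin n → F) : R c (R c b b') (R c b v) = R c b (R c b' v) := by
  rw [R_apply c (R c b b'), bil_R c hc b hb, R_apply c b' v, map_sub, map_smul]

end form

section frame
variable {F : Type} [Field F] {n : ℕ}

/-- a frame: some vectors are labelled; the labels satisfy the relations dictated by the form -/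
structure IsFrame (c : Fin n → Fin n → F) {S' K : Type} [Group K] (x : S' → K)
    (lam : (Fin n → F) → Option S') : Prop where
  norm : ∀ b a, lam b = some a → bil c b b = 2
  gram : ∀ b b' a a', lam b = some a → lam b' = some a' →
    bil c b b' = 0 ∨ bil c b b' = 1 ∨ bil c b b' = -1 ∨ bil c b b' = 2 ∨ bil c b b' = -2
  comm : ∀ b b' a a', lam b = some a → lam b' = some a' → bil c b b' = 0 →
    x a * x a' = x a' * x a
  braid : ∀ b b' a a', lam b = some a → lam b' = some a' → bil c b b' = -1 →
    x a * x a' * x a = x a' * x a * x a'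
  refl : ∀ b b' a a', lam b = some a → lam b' = some a' → ∃ a'', lam (R c b b') = some a''

/-- the set of frames -/
def FB (c : Fin n → Fin n → F) {S' K : Type} [Group K] (x : S' → K) : Type :=
  {lam : (Fin n → F) → Option S' // IsFrame c x lam}

theorem FB_finite (c : Fin n → Fin n → F) {S' K : Type} [Group K] (x : S' → K) [Finite F]
    [Finite S'] : Finite (FB c x) := by
  unfold FB
  infer_instance

variable {S' K : Type} [Group K]

/-- composition of a frame with a reflection -/
def FB.comp {c : Fin n → Fin n → F} (hc : IsGram c) {x : S' → K} (lam : FB c x) (s : Fin n) :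
    FB c x :=
  ⟨fun b => lam.1 (R c (al s) b), by
    have hs : bil c (al s) (al s) = 2 := by rw [bil_al, hc.two]
    refine ⟨?_, ?_, ?_, ?_, ?_⟩
    · intro b a h
      rw [← bil_R c hc (al s) hs]
      exact lam.2.norm _ a h
    · intro b b' a a' h h'
      rw [← bil_R c hc (al s) hs]
      exact lam.2.gram _ _ a a' h h'
    · intro b b' a a' h h' h0
      rw [← bil_R c hc (al s) hs] at h0
      exact lam.2.comm _ _ a a' h h' h0
    · intro b b' a a' h h' h0
      rw [← bil_R c hc (al s) hs] at h0
      exact lam.2.braid _ _ a a' h h' h0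
    · intro b b' a a' h h'
      obtain ⟨a'', h2⟩ := lam.2.refl _ _ a a' h h'
      refine ⟨a'', ?_⟩
      rw [← R_conj c hc (al s) b hs]
      exact h2⟩

theorem FB.comp_apply {c : Fin n → Fin n → F} (hc : IsGram c) {x : S' → K} (lam : FB c x)
    (s : Fin n) (b : Fin n → F) : (lam.comp hc s).1 b = lam.1 (R c (al s) b) := rfl

theorem FB.comp_comp {c : Fin n → Fin n → F} (hc : IsGram c) {x : S' → K} (lam : FB c x)
    (s : Fin n) : (lam.comp hc s).comp hc s = lam := by
  apply Subtype.ext
  funext b
  rw [FB.comp_apply, FB.comp_apply, R_R c (al s) (by rw [bil_al, hc.two])]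

/-- labelled vectors are closed under `b ↦ -b` -/
theorem FB.neg {c : Fin n → Fin n → F} {x : S' → K} (lam : FB c x) (b : Fin n → F)
    (h : lam.1 b = none) : lam.1 (-b) = none := by
  by_contra hne
  obtain ⟨a, ha⟩ := Option.ne_none_iff_exists'.1 hne
  have hn := lam.2.norm _ a ha
  obtain ⟨a'', h2⟩ := lam.2.refl _ _ a a ha ha
  rw [R_self c _ hn, neg_neg, h] at h2
  cases h2

theorem FB.comp_none {c : Fin n → Fin n → F} (hc : IsGram c) {x : S' → K} (lam : FB c x)
    (s : Fin n) (h : lam.1 (al s) = none) : (lam.comp hc s).1 (al s) = none := by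
  rw [FB.comp_apply, R_self c (al s) (by rw [bil_al, hc.two])]
  exact lam.neg _ h

/-- the action of the generator `s` on frames with an element of `K` -/
def stepF {c : Fin n → Fin n → F} (hc : IsGram c) (x : S' → K) (s : Fin n) (p : FB c x × K) :
    FB c x × K :=
  match p.1.1 (al s) with
  | some a => (p.1, x a * p.2)
  | none => (p.1.comp hc s, p.2)

/-- the inverse -/
def stepF' {c : Fin n → Fin n → F} (hc : IsGram c) (x : S' → K) (s : Fin n) (p : FB c x × K) :
    FB c x × K :=
  match p.1.1 (al s) with
  | some a => (p.1, (x a)⁻¹ * p.2)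
  | none => (p.1.comp hc s, p.2)

theorem stepF_some {c : Fin n → Fin n → F} (hc : IsGram c) (x : S' → K) (s : Fin n)
    (p : FB c x × K) (a : S') (h : p.1.1 (al s) = some a) :
    stepF hc x s p = (p.1, x a * p.2) := by
  unfold stepF
  rw [h]

theorem stepF_none {c : Fin n → Fin n → F} (hc : IsGram c) (x : S' → K) (s : Fin n)
    (p : FB c x × K) (h : p.1.1 (al s) = none) :
    stepF hc x s p = (p.1.comp hc s, p.2) := by
  unfold stepF
  rw [h]

theorem stepF'_some {c : Fin n → Fin n → F} (hc : IsGram c) (x : S' → K) (s : Fin n)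
    (p : FB c x × K) (a : S') (h : p.1.1 (al s) = some a) :
    stepF' hc x s p = (p.1, (x a)⁻¹ * p.2) := by
  unfold stepF'
  rw [h]

theorem stepF'_none {c : Fin n → Fin n → F} (hc : IsGram c) (x : S' → K) (s : Fin n)
    (p : FB c x × K) (h : p.1.1 (al s) = none) :
    stepF' hc x s p = (p.1.comp hc s, p.2) := by
  unfold stepF'
  rw [h]

/-- as a permutation -/
def stepP {c : Fin n → Fin n → F} (hc : IsGram c) (x : S' → K) (s : Fin n) :
    Equiv.Perm (FB c x × K) where
  toFun := stepF hc x s
  invFun := stepF' hc x s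
  left_inv p := by
    rcases h : p.1.1 (al s) with _ | a
    · rw [stepF_none hc x s p h, stepF'_none hc x s _ (p.1.comp_none hc s h)]
      exact Prod.ext (p.1.comp_comp hc s) rfl
    · rw [stepF_some hc x s p a h, stepF'_some hc x s (p.1, x a * p.2) a h, inv_mul_cancel_left]
  right_inv p := by
    rcases h : p.1.1 (al s) with _ | a
    · rw [stepF'_none hc x s p h, stepF_none hc x s _ (p.1.comp_none hc s h)]
      exact Prod.ext (p.1.comp_comp hc s) rfl
    · rw [stepF'_some hc x s p a h, stepF_some hc x s (p.1, (x a)⁻¹ * p.2) a h, mul_inv_cancel_left]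

theorem stepP_apply {c : Fin n → Fin n → F} (hc : IsGram c) (x : S' → K) (s : Fin n)
    (p : FB c x × K) : stepP hc x s p = stepF hc x s p := rfl

/-- it commutes with the right multiplications by elements of `K` -/
theorem stepF_mul {c : Fin n → Fin n → F} (hc : IsGram c) (x : S' → K) (s : Fin n)
    (lam : FB c x) (k h : K) :
    stepF hc x s (lam, k * h) = ((stepF hc x s (lam, k)).1, (stepF hc x s (lam, k)).2 * h) := by
  rcases h' : lam.1 (al s) with _ | a
  · rw [stepF_none hc x s (lam, k) h', stepF_none hc x s (lam, k * h) h']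
  · rw [stepF_some hc x s (lam, k) a h', stepF_some hc x s (lam, k * h) a h', mul_assoc]

/-- the fold over a list of vectors: `ρ` collects the reflections in the labelled vectors, `k` the
labels -/
def foldF (c : Fin n → Fin n → F) (x : S' → K) (lam : (Fin n → F) → Option S') :
    List (Fin n → F) → ((Fin n → F) →ₗ[F] (Fin n → F)) × K → ((Fin n → F) →ₗ[F] (Fin n → F)) × K
  | [], p => p
  | b :: l, p =>
    match lam (p.1 b) with
    | some a => foldF c x lam l (p.1 ∘ₗ R c b, x a * p.2)
    | none => foldF c x lam l p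

/-- the vectors crossed by a word in the generators, and the product of the reflections -/
def rts (c : Fin n → Fin n → F) :
    List (Fin n) → ((Fin n → F) →ₗ[F] (Fin n → F)) → List (Fin n → F)
  | [], _ => []
  | r :: l, w => w (al r) :: rts c l (w ∘ₗ R c (al r))

/-- the product of the reflections of a word -/
def wd (c : Fin n → Fin n → F) :
    List (Fin n) → ((Fin n → F) →ₗ[F] (Fin n → F)) → ((Fin n → F) →ₗ[F] (Fin n → F))
  | [], w => w
  | r :: l, w => wd c l (w ∘ₗ R c (al r))

/-- apply the letters of a list, the head first -/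
def runF {c : Fin n → Fin n → F} (hc : IsGram c) (x : S' → K) :
    List (Fin n) → FB c x × K → FB c x × K
  | [], p => p
  | r :: l, p => runF hc x l (stepF hc x r p)

/-- the admissible shapes of the list of labelled vectors in a dihedral plane -/
def Shape (c : Fin n → Fin n → F) (l : List (Fin n → F)) : Prop :=
  l = [] ∨ (∃ b, l = [b]) ∨ (∃ b b', l = [b, b'] ∧ bil c b b' = 0) ∨
    ∃ b b', l = [b, b + b', b'] ∧ bil c b b' = -1

/-- the root `[j+1] α_s + [j] α_t`, `[j] = (z^j - z^-j)/(z - z^-1)` -/
def dr (z : F) (s t : Fin n) (j : ℕ) : Fin n → F :=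
  ((z ^ (j + 1) - (z⁻¹) ^ (j + 1)) / (z - z⁻¹)) • al s + ((z ^ j - (z⁻¹) ^ j) / (z - z⁻¹)) • al t

/-- the alternating list `s, t, s, ..` of length `m` -/
def altL (s t : Fin n) : ℕ → List (Fin n)
  | 0 => []
  | m + 1 => s :: altL t s m

end frame

open Pool.Agent.AR (TwData)

section det
variable {G : Type} [Group G] {n : ℕ}

/-- `Z g r s` is detected by finitely many matrix coefficients `e'_c(r) ρ(g) e_c(s)` of a finite
dimensional representation, the vectors being invariant under the link -/
def Det (gen : Fin n → G) (Adj : Fin n → Fin n → Prop) (L : Type) [Field L]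
    (Z : G → Fin n → Fin n → Prop) : Prop :=
  ∃ (ι : Type) (_ : Fintype ι) (_ : DecidableEq ι) (C : Type) (_ : Fintype C) (C' : Type)
    (_ : Fintype C') (ρ : G →* (Matrix ι ι L)ˣ) (e : C → Fin n → ι → L) (e' : C' → Fin n → ι → L),
    (∀ c r s, Adj r s → (ρ (gen r) : Matrix ι ι L).mulVec (e c s) = e c s) ∧
    (∀ c r s, Adj r s → Matrix.vecMul (e' c s) (ρ (gen r) : Matrix ι ι L) = e' c s) ∧
    (∀ c c' r s, Adj r s ∨ r = s → dotProduct (e' c' r) (e c s) = 0) ∧
    ∀ g r s, (∀ c c', dotProduct (e' c' r) ((ρ g : Matrix ι ι L).mulVec (e c s)) = 0) → Z g r s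

theorem Det.mono {gen : Fin n → G} {Adj : Fin n → Fin n → Prop} {L : Type} [Field L]
    {Z Z' : G → Fin n → Fin n → Prop} (h : Det gen Adj L Z) (hZ : ∀ g r s, Z g r s → Z' g r s) :
    Det gen Adj L Z' := by
  obtain ⟨ι, i1, i2, C, i3, C', i4, ρ, e, e', h1, h2, h3, h4⟩ := h
  exact ⟨ι, i1, i2, C, i3, C', i4, ρ, e, e', h1, h2, h3, fun g r s h5 => hZ g r s (h4 g r s h5)⟩

end det

section coc
variable {G X K : Type} [Group G] [Group K]

/-- the permutations commute with the right multiplications of `K` -/
def Coc (Om : G →* Equiv.Perm (X × K)) : Prop :=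
  ∀ g x k h, Om g (x, k * h) = ((Om g (x, k)).1, (Om g (x, k)).2 * h)

/-- the action on `X` -/
def act (Om : G →* Equiv.Perm (X × K)) (g : G) (x : X) : X := (Om g (x, 1)).1

/-- the cocycle -/
def kap (Om : G →* Equiv.Perm (X × K)) (g : G) (x : X) : K := (Om g (x, 1)).2

variable {Om : G →* Equiv.Perm (X × K)}

theorem Om_eq (h : Coc Om) (g : G) (x : X) (k : K) : Om g (x, k) = (act Om g x, kap Om g x * k) := by
  have := h g x 1 k
  rw [one_mul] at this
  exact this

theorem act_mul (h : Coc Om) (g g' : G) (x : X) : act Om (g * g') x = act Om g (act Om g' x) := by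
  unfold act
  rw [map_mul, Equiv.Perm.mul_apply]
  rw [show Om g' (x, 1) = (act Om g' x, kap Om g' x * 1) from Om_eq h g' x 1, Om_eq h]
  rfl

theorem kap_mul (h : Coc Om) (g g' : G) (x : X) :
    kap Om (g * g') x = kap Om g (act Om g' x) * kap Om g' x := by
  have h1 : Om (g * g') (x, 1) = Om g (Om g' (x, 1)) := by rw [map_mul, Equiv.Perm.mul_apply]
  have h2 : Om g' (x, 1) = (act Om g' x, kap Om g' x) := rfl
  unfold kap at *
  rw [h1, h2, Om_eq h]
  rfl

theorem act_one (x : X) : act Om 1 x = x := by
  unfold act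
  rw [map_one]
  rfl

theorem kap_one (x : X) : kap Om 1 x = 1 := by
  unfold kap
  rw [map_one]
  rfl

end coc

end Pool.Agent.FR
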