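import Pool.Agent.Lib.MP_d24c19_al.FR.Defs
import Pool.Agent.Lib.MP_7c21d5_al.VB01_Modules
import Pool.Agent.Lib.MP_d24c19_al.Bdef

set_option autoImplicit false

/-!
Label systems (arcs with winding numbers), base frames, chains, root data: definitions.
-/

namespace Pool.Agent.FR

open Pool.Agent.VB (ArcSys St Psi cyc path ArcHom)
open Pool.Agent.AR (Art gen)

section base
variable {F : Type} [Field F] {n : ℕ}

/-- arcs between the sites `W'` with a winding number in `Z'` -/
def wk (W' Z' : Type) : ArcSys {q : W' × W' × Z' // q.1 ≠ q.2.1} W' where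
  src q := q.1.1
  tgt q := q.1.2.1
  ne q := q.2

/-- the vector of an arc: `p_i - p_j + z δ` -/
def vec {W' Z' : Type} (p : W' → Fin n → F) (δ : Fin n → F) (ι : Z' → F)
    (q : {q : W' × W' × Z' // q.1 ≠ q.2.1}) : Fin n → F :=
  p q.1.1 - p q.1.2.1 + ι q.1.2.2 • δ

/-- points with the Gram matrix of type A, `δ` in the radical -/
structure IsPts {W' Z' : Type} [DecidableEq W'] [AddCommGroup Z'] (c : Fin n → Fin n → F)
    (p : W' → Fin n → F) (δ : Fin n → F) (ι : Z' →+ F) : Prop where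
  gram : ∀ i j k l, bil c (p i - p j) (p k - p l) =
    (if i = k then 1 else 0) - (if i = l then 1 else 0) - (if j = k then 1 else 0) +
      (if j = l then 1 else 0)
  rad : ∀ i j, bil c δ (p i - p j) = 0
  rad0 : bil c δ δ = 0
  inj : Function.Injective (vec p δ ι)

open Classical in
/-- the labelling of the vectors -/
noncomputable def lam0 {W' Z' : Type} (p : W' → Fin n → F) (δ : Fin n → F) (ι : Z' → F)
    (b : Fin n → F) : Option {q : W' × W' × Z' // q.1 ≠ q.2.1} :=
  if h : ∃ q, vec p δ ι q = b then some h.choose else none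

theorem lam0_some {W' Z' : Type} {p : W' → Fin n → F} {δ : Fin n → F} {ι : Z' → F}
    (hinj : Function.Injective (vec p δ ι)) (b : Fin n → F)
    (q : {q : W' × W' × Z' // q.1 ≠ q.2.1}) : lam0 p δ ι b = some q ↔ vec p δ ι q = b := by
  unfold lam0
  constructor
  · intro h
    split_ifs at h with h1
    rw [← Option.some_injective _ h]
    exact h1.choose_spec
  · intro h
    have h1 : ∃ q, vec p δ ι q = b := ⟨q, h⟩
    rw [dif_pos h1]
    congr 1
    exact hinj (h1.choose_spec.trans h.symm)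

/-- a chain: an arc system with an arc homomorphism to `wk`, points, and generators -/
structure Chain (c : Fin n → Fin n → F) (S₁ W₁ : Type) (A : ArcSys S₁ W₁) where
  W' : Type
  Z' : Type
  fW : Fintype W'
  dW : DecidableEq W'
  aZ : AddCommGroup Z'
  fZ : Finite Z'
  p : W' → Fin n → F
  δ : Fin n → F
  ι : Z' →+ F
  pts : IsPts c p δ ι
  f : S₁ → Fin n
  φ : Pool.Agent.VB.ArcHom A (wk W' Z')
  vec_f : ∀ i, vec p δ ι (φ.f i) = al (f i)
  supp : ∀ q r, r ∉ Set.range f → vec p δ ι q r = 0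

end base

section artin
variable {n : ℕ} (M : CoxeterMatrix (Fin n))

/-- finite label, different generators (the same as `Pool.Agent.AR.AdjM`) -/
def Ad (r s : Fin n) : Prop := r ≠ s ∧ M.M r s ≠ 0

/-- a symmetric Gram matrix over the field `F` with `c_st = -(z + 1/z)`, `z` of order `2 m_st` -/
structure RootData (F : Type) [Field F] where
  c : Fin n → Fin n → F
  gram : IsGram c
  two : (2 : F) ≠ 0
  three : (3 : F) ≠ 0
  z : Fin n → Fin n → F
  prim : ∀ s t, s ≠ t → M.M s t ≠ 0 → IsPrimitiveRoot (z s t) (2 * M.M s t)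
  val : ∀ s t, s ≠ t → M.M s t ≠ 0 → c s t = -(z s t + (z s t)⁻¹)

variable {M}

/-- the property detected by a chain: `f : S₁ → Fin n` are the generators of the chain, `ι` the
homomorphism from the group of the chain -/
def ZC {S₁ W₁ : Type} [DecidableEq S₁] [Fintype W₁] [DecidableEq W₁] (A : ArcSys S₁ W₁)
    (f : S₁ → Fin n) (ι : A.G →* Art M) (g : Art M) (r s : Fin n) : Prop :=
  ∀ (a b : S₁) (lv d : Bool), ¬ Ad M s (f a) → ¬ Ad M r (f b) →
    ∀ (g' : A.G) (g'' : Art M), g'' ∈ Subgroup.closure (gen M '' {y | ∀ i, M.M y (f i) = 2}) →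
      g = ι g' * g'' → Psi A b a lv d g' = 0

/-- the coefficient field -/
abbrev L : Type := Pool.Agent.AR.KK

variable (M)

/-- paths with labels 3 -/
def PathIn {l : ℕ} (f : Fin l → Fin n) : Prop :=
  Function.Injective f ∧ (∀ i j : Fin l, i.1 + 1 = j.1 → M.M (f i) (f j) = 3) ∧
    ∀ i j : Fin l, i.1 + 2 ≤ j.1 → M.M (f i) (f j) = 2

/-- cycles with labels 3 -/
def CycIn {m : ℕ} (f : Fin (m + 3) → Fin n) : Prop :=
  Function.Injective f ∧ (∀ i : Fin (m + 3), M.M (f i) (f (i + 1)) = 3) ∧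
    ∀ i j : Fin (m + 3), i ≠ j → i + 1 ≠ j → j + 1 ≠ i → M.M (f i) (f j) = 2

/-- the condition on `M` -/
def Star2 : Prop :=
  (∀ r s t : Fin n, r ≠ s → s ≠ t → r ≠ t → 4 ≤ M.M r s → 3 ≤ M.M s t → M.M r t = 0) ∧
  ∀ r s t u : Fin n, s ≠ t → t ≠ u → s ≠ u → M.M r s = 3 → M.M r t = 3 → M.M r u = 3 →
    M.M s t = 0 ∨ M.M t u = 0 ∨ M.M s u = 0

end artin

end Pool.Agent.FR
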