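import Pool.Agent.Lib.MP_d24c19_al.FR.X1
import Pool.Agent.Lib.MP_d24c19_al.CL

set_option autoImplicit false

/-!
The homomorphisms of paths and cycles, everything that is detected, the separation property.
-/

namespace Pool.Agent.FR

open Pool.Agent.VB (ArcSys St Psi cyc path ArcHom)
open Pool.Agent.AR (Art gen)


variable {n : ℕ} (M : CoxeterMatrix (Fin n))

/-- the homomorphisms of paths -/
noncomputable def pathHom {l : ℕ} (f : Fin l → Fin n) (h : PathIn M f) : (path l).G →* Art M :=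
  (path_hom M f h).choose

theorem pathHom_x {l : ℕ} (f : Fin l → Fin n) (h : PathIn M f) (i : Fin l) :
    pathHom M f h ((path l).x i) = gen M (f i) := (path_hom M f h).choose_spec i

/-- the homomorphisms of cycles -/
noncomputable def cycHom {m : ℕ} (f : Fin (m + 3) → Fin n) (h : CycIn M f) : (cyc m).G →* Art M :=
  (cyc_hom M f h).choose

theorem cycHom_x {m : ℕ} (f : Fin (m + 3) → Fin n) (h : CycIn M f) (i : Fin (m + 3)) :
    cycHom M f h ((cyc m).x i) = gen M (f i) := (cyc_hom M f h).choose_spec i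

/-- everything that is detected -/
def ZZ (g : Art M) (r s : Fin n) : Prop :=
  (∀ a b, ¬ Ad M s a → ¬ Ad M r b → Pool.Agent.AR.Psi M g b a = 0) ∧
  (∀ (l : ℕ) (f : Fin (l + 1) → Fin n) (h : PathIn M f), ZC (path (l + 1)) f (pathHom M f h) g r s) ∧
  ∀ (m : ℕ) (f : Fin (m + 3) → Fin n) (h : CycIn M f), ZC (cyc m) f (cycHom M f h) g r s

/-- the hypothesis of (CL) for a set `T` -/
def Hyp (T T₁ T₂ : Set (Fin n)) (g : Art M) : Prop :=
  (∀ b ∈ T₂, ∀ a ∈ T₁, Pool.Agent.AR.Psi M g b a = 0) ∧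
  (∀ (l : ℕ) (f : Fin (l + 1) → Fin n) (h : PathIn M f), Set.range f ⊆ T →
    ∀ a b, f a ∈ T₁ → f b ∈ T₂ → ∀ lv d (g' : (path (l + 1)).G) (g'' : Art M),
      g'' ∈ Subgroup.closure (gen M '' {y | ∀ i, M.M y (f i) = 2}) → g = pathHom M f h g' * g'' →
        Psi (path (l + 1)) b a lv d g' = 0) ∧
  ∀ (m : ℕ) (f : Fin (m + 3) → Fin n) (h : CycIn M f), Set.range f ⊆ T →
    ∀ a b, f a ∈ T₁ → f b ∈ T₂ → ∀ lv d (g' : (cyc m).G) (g'' : Art M),
      g'' ∈ Subgroup.closure (gen M '' {y | ∀ i, M.M y (f i) = 2}) → g = cycHom M f h g' * g'' →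
        Psi (cyc m) b a lv d g' = 0

/-- the separation property -/
def CLs (T : Set (Fin n)) : Prop :=
  ∀ T₁ T₂ : Set (Fin n), T₁ ⊆ T → T₂ ⊆ T → ∀ g ∈ Subgroup.closure (gen M '' T), Hyp M T T₁ T₂ g →
    ∃ u ∈ Subgroup.closure (gen M '' (T \ T₂)), ∃ v ∈ Subgroup.closure (gen M '' (T \ T₁)), g = u * v

end Pool.Agent.FR
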