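import Pool.Agent.Lib.MP_d24c19_al.FR.Defs

set_option autoImplicit false

/-!
ROW fr-E: the labelled vectors among the roots `b_j = dr z s t j` (`0 ≤ j < m`) of a dihedral plane have an admissible shape.
`[j] = (z^j - z^-j)/(z - z^-1)`. `B(b_i, b_j) = z^(j-i) + z^(i-j)` (from `B(α_s,α_s) = 2`, `B(α_s,α_t) = -(z+z⁻¹)`). Let `J = {j < m : P b_j}`, `i < j` in `J`, `y = z^(j-i)`, `0 < j - i < m`, so `y ≠ 1, -1`
(order `2m`). `hg`: `y + 1/y ∈ {0, 1, -1, 2, -2}`. `±2`: `(y ∓ 1)^2 = 0`, excluded. `0`: `y^2 = -1`, `y^4 = 1`: `2m ∣ 4 (j-i)`, so `2 (j-i) = m`. `1`: `y^2 - y + 1 = 0`, `y^3 = -1`, `y^6 = 1`: `m ∣ 3 (j-i)`,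
and `3 (j-i) = 2m` would give `y^3 = 1 ≠ -1` (`2 ≠ 0`): so `3 (j-i) = m`. `-1`: `y^2 + y + 1 = 0`, `y^3 = 1`: `2m ∣ 3 (j-i)`: `3 (j-i) = 2m`.
If `3 (j-i) = 2m`: `R_(b_i) b_j = b_j + b_i = b_((i+j)/2)` is in `P` (`hr`). If `3 (j-i) = m`: `R_(b_i) b_j = b_j - b_i`: if `j + m/3 < m` it is `b_(j+m/3)`; otherwise `i ≥ m/3` and
`R_(b_j) b_i = b_i - b_j = b_(i-m/3)`. So in both cases `J` contains three elements `i', i'+m/3, i'+2m/3`.
The filter of `List.map` is the map of the filter of `range m`; that list is strictly increasing; by its length: `[]`, `[i]`: fine; `[i,j]`: `2(j-i) = m` (the other two cases give a third element), `B = 0`;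
`[i,j,k]`: `k-i` and both gaps are among `m/2, m/3, 2m/3`, so the gaps are `m/3`: `b_j = b_i + b_k` and `B(b_i,b_k) = -1`; four or more elements `i<j<k<l`: each gap is `m/3` and `l - i = m`, impossible.
-/

namespace Pool.Agent.FR

variable {F : Type} [Field F] {n : ℕ} {S' K : Type} [Group K]

private theorem frE_zz (z : F) (m : ℕ) (hm : 2 ≤ m) (hz : IsPrimitiveRoot z (2 * m)) :
    z ≠ 0 ∧ z - z⁻¹ ≠ 0 := by
  have h0 : z ≠ 0 := hz.ne_zero (by omega)
  refine ⟨h0, fun h => ?_⟩
  have h2 : z ^ 2 ≠ 1 := hz.pow_ne_one_of_pos_of_lt (by omega) (by omega)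
  apply h2
  have h3 : z = z⁻¹ := sub_eq_zero.1 h
  rw [sq]
  nth_rewrite 2 [h3]
  exact mul_inv_cancel₀ h0

private theorem frE_alg (d z y A B C D Y : F) (hd : d ≠ 0) (hdz : d = z - y) (hy : z * y = 1)
    (hY : Y = z + y) :
    (z * A - y * B) / d * ((z * C - y * D) / d) * 2 +
      (z * A - y * B) / d * ((C - D) / d) * (-Y) +
      (A - B) / d * ((z * C - y * D) / d) * (-Y) + (A - B) / d * ((C - D) / d) * 2 =
      A * D + B * C := by
  have hd2 : d * d ≠ 0 := mul_ne_zero hd hd
  apply mul_right_cancel₀ hd2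
  have e1 : ∀ a b : F, a / d * (b / d) * (d * d) = a * b := by
    intro a b
    field_simp
  calc ((z * A - y * B) / d * ((z * C - y * D) / d) * 2 +
      (z * A - y * B) / d * ((C - D) / d) * (-Y) +
      (A - B) / d * ((z * C - y * D) / d) * (-Y) + (A - B) / d * ((C - D) / d) * 2) * (d * d)
      = ((z * A - y * B) / d * ((z * C - y * D) / d) * (d * d)) * 2 +
      ((z * A - y * B) / d * ((C - D) / d) * (d * d)) * (-Y) +
      ((A - B) / d * ((z * C - y * D) / d) * (d * d)) * (-Y) +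
      ((A - B) / d * ((C - D) / d) * (d * d)) * 2 := by ring
    _ = ((z * A - y * B) * (z * C - y * D)) * 2 + ((z * A - y * B) * (C - D)) * (-Y) +
      ((A - B) * (z * C - y * D)) * (-Y) + ((A - B) * (C - D)) * 2 := by
        rw [e1, e1, e1, e1]
    _ = (A * D + B * C) * (d * d) := by
        rw [hY, hdz]
        linear_combination (-2 * A * C - 2 * B * D + 2 * A * D + 2 * B * C) * hy

private theorem frE_bil (c : Fin n → Fin n → F) (hc : IsGram c) (z : F) (h0 : z ≠ 0)
    (h1 : z - z⁻¹ ≠ 0) (s t : Fin n) (hcs : c s t = -(z + z⁻¹)) (i j : ℕ) :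
    bil c (dr z s t i) (dr z s t j) = z ^ i * (z⁻¹) ^ j + (z⁻¹) ^ i * z ^ j := by
  have hct : c t s = -(z + z⁻¹) := by rw [hc.symm]; exact hcs
  unfold dr
  rw [bil_add_left, bil_add_right, bil_add_right, bil_smul_left, bil_smul_left, bil_smul_left,
    bil_smul_left, bil_smul_right, bil_smul_right, bil_smul_right, bil_smul_right, bil_al, bil_al,
    bil_al, bil_al, hc.two, hc.two, hcs, hct]
  have := frE_alg (z - z⁻¹) z z⁻¹ (z ^ i) ((z⁻¹) ^ i) (z ^ j) ((z⁻¹) ^ j) (z + z⁻¹) h1 rfl
    (mul_inv_cancel₀ h0) rfl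
  rw [← this]
  ring

private theorem frE_bil' (c : Fin n → Fin n → F) (hc : IsGram c) (z : F) (h0 : z ≠ 0)
    (h1 : z - z⁻¹ ≠ 0) (s t : Fin n) (hcs : c s t = -(z + z⁻¹)) (i e : ℕ) :
    bil c (dr z s t i) (dr z s t (i + e)) = z ^ e + (z⁻¹) ^ e := by
  rw [frE_bil c hc z h0 h1 s t hcs]
  have h2 : z ^ i * (z⁻¹) ^ i = 1 := by rw [← mul_pow, mul_inv_cancel₀ h0, one_pow]
  calc z ^ i * (z⁻¹) ^ (i + e) + (z⁻¹) ^ i * z ^ (i + e)
      = (z ^ i * (z⁻¹) ^ i) * (z⁻¹) ^ e + (z ^ i * (z⁻¹) ^ i) * z ^ e := by ring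
    _ = z ^ e + (z⁻¹) ^ e := by rw [h2]; ring

/-- the possible gaps -/
private theorem frE_gap (z : F) (m : ℕ) (hz : IsPrimitiveRoot z (2 * m))
    (h2 : (2 : F) ≠ 0) (h0 : z ≠ 0) (e : ℕ) (he0 : 0 < e) (hem : e < m) (v : F)
    (hv : v = z ^ e + (z⁻¹) ^ e) (h : v = 0 ∨ v = 1 ∨ v = -1 ∨ v = 2 ∨ v = -2) :
    (v = 0 ∧ 2 * e = m) ∨ (v = 1 ∧ 3 * e = m) ∨ (v = -1 ∧ 3 * e = 2 * m) := by
  have hu : z ^ e * (z⁻¹) ^ e = 1 := by rw [← mul_pow, mul_inv_cancel₀ h0, one_pow]
  set u := z ^ e with hudef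
  have hu2 : u * v = u ^ 2 + 1 := by
    rw [hv]; linear_combination hu
  rcases h with h | h | h | h | h
  · left
    refine ⟨h, ?_⟩
    rw [h] at hu2
    have h4 : z ^ (e * 4) = 1 := by
      rw [pow_mul, ← hudef]
      linear_combination (-(u ^ 2) + 1) * hu2
    obtain ⟨q, hq⟩ := (hz.pow_eq_one_iff_dvd _).1 h4
    have hq0 : 0 < q := by
      rcases Nat.eq_zero_or_pos q with h | h
      · subst h; omega
      · exact h
    have hq2 : q < 2 := by
      by_contra hcon
      have : 2 * m * 2 ≤ 2 * m * q := Nat.mul_le_mul_left _ (by omega)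
      omega
    have : q = 1 := by omega
    subst this
    omega
  · right; left
    refine ⟨h, ?_⟩
    rw [h] at hu2
    have h3 : u ^ 3 = -1 := by linear_combination (-u - 1) * hu2
    have h6 : z ^ (e * 6) = 1 := by
      rw [pow_mul, ← hudef]
      linear_combination (u ^ 3 - 1) * h3
    obtain ⟨q, hq⟩ := (hz.pow_eq_one_iff_dvd _).1 h6
    have hq0 : 0 < q := by
      rcases Nat.eq_zero_or_pos q with h | h
      · subst h; omega
      · exact h
    have hq2 : q < 3 := by
      by_contra hcon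
      have : 2 * m * 3 ≤ 2 * m * q := Nat.mul_le_mul_left _ (by omega)
      omega
    interval_cases q
    · omega
    · exfalso
      have h7 : e * 3 = 2 * m := by omega
      have h8 : u ^ 3 = 1 := by
        rw [hudef, ← pow_mul, h7]; exact hz.pow_eq_one
      rw [h3] at h8
      apply h2
      linear_combination (-1 : F) * h8
  · right; right
    refine ⟨h, ?_⟩
    rw [h] at hu2
    have h3 : z ^ (e * 3) = 1 := by
      rw [pow_mul, ← hudef]
      linear_combination (-u + 1) * hu2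
    obtain ⟨q, hq⟩ := (hz.pow_eq_one_iff_dvd _).1 h3
    have hq0 : 0 < q := by
      rcases Nat.eq_zero_or_pos q with h | h
      · subst h; omega
      · exact h
    have hq2 : q < 2 := by
      by_contra hcon
      have : 2 * m * 2 ≤ 2 * m * q := Nat.mul_le_mul_left _ (by omega)
      omega
    have : q = 1 := by omega
    subst this
    omega
  · exfalso
    rw [h] at hu2
    have h3 : (u - 1) ^ 2 = 0 := by linear_combination (-1 : F) * hu2
    have h4 : u = 1 := sub_eq_zero.1 (pow_eq_zero_iff (two_ne_zero)|>.1 h3)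
    exact hz.pow_ne_one_of_pos_of_lt (by omega) (by omega) h4
  · exfalso
    rw [h] at hu2
    have h3 : (u + 1) ^ 2 = 0 := by linear_combination (-1 : F) * hu2
    have h4 : u + 1 = 0 := pow_eq_zero_iff (two_ne_zero)|>.1 h3
    have h5 : z ^ (e * 2) = 1 := by
      rw [pow_mul, ← hudef]
      linear_combination (u - 1) * h4
    exact hz.pow_ne_one_of_pos_of_lt (by omega) (by omega) h5

/-- three equidistant roots -/
private theorem frE_three (z : F) (m : ℕ) (hm : 2 ≤ m) (hz : IsPrimitiveRoot z (2 * m))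
    (h0 : z ≠ 0) (s t : Fin n) (e : ℕ) (he : 3 * e = m) (i : ℕ) :
    dr z s t i + dr z s t (i + 2 * e) = dr z s t (i + e) := by
  have hu : z ^ e * (z⁻¹) ^ e = 1 := by rw [← mul_pow, mul_inv_cancel₀ h0, one_pow]
  have hzm : z ^ m ≠ 1 := hz.pow_ne_one_of_pos_of_lt (by omega) (by omega)
  have hzm2 : (z ^ m - 1) * (z ^ m + 1) = 0 := by
    have : z ^ (m * 2) = 1 := by rw [mul_comm]; exact hz.pow_eq_one
    rw [pow_mul] at this
    linear_combination this
  have hz1 : z ^ m + 1 = 0 := by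
    rcases mul_eq_zero.1 hzm2 with h | h
    · exact absurd (sub_eq_zero.1 h) hzm
    · exact h
  set u := z ^ e with hudef
  have hu3 : (u + 1) * (u ^ 2 - u + 1) = 0 := by
    have : z ^ m = u ^ 3 := by rw [hudef, ← pow_mul, mul_comm e 3, he]
    rw [this] at hz1
    linear_combination hz1
  have hu1 : u + 1 ≠ 0 := by
    intro h
    have h5 : z ^ (e * 2) = 1 := by
      rw [pow_mul, ← hudef]
      linear_combination (u - 1) * h
    exact hz.pow_ne_one_of_pos_of_lt (by omega) (by omega) h5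
  have hu4 : u ^ 2 - u + 1 = 0 := by
    rcases mul_eq_zero.1 hu3 with h | h
    · exact absurd h hu1
    · exact h
  have hw : (z⁻¹) ^ e = 1 - u := by
    apply mul_left_cancel₀ (pow_ne_zero e h0)
    rw [← hudef, hu]
    linear_combination hu4
  have k1 : ∀ k : ℕ, z ^ k + z ^ (k + 2 * e) = z ^ (k + e) := by
    intro k
    have e1 : z ^ (k + 2 * e) = z ^ k * u ^ 2 := by rw [hudef]; ring
    have e2 : z ^ (k + e) = z ^ k * u := by rw [hudef]; ring
    rw [e1, e2]
    linear_combination z ^ k * hu4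
  have k2 : ∀ k : ℕ, (z⁻¹) ^ k + (z⁻¹) ^ (k + 2 * e) = (z⁻¹) ^ (k + e) := by
    intro k
    have e1 : (z⁻¹) ^ (k + 2 * e) = (z⁻¹) ^ k * ((z⁻¹) ^ e) ^ 2 := by ring
    have e2 : (z⁻¹) ^ (k + e) = (z⁻¹) ^ k * (z⁻¹) ^ e := by ring
    rw [e1, e2, hw]
    linear_combination (z⁻¹) ^ k * hu4
  have k3 : ∀ k : ℕ, (z ^ k - (z⁻¹) ^ k) / (z - z⁻¹) + (z ^ (k + 2 * e) - (z⁻¹) ^ (k + 2 * e)) /
      (z - z⁻¹) = (z ^ (k + e) - (z⁻¹) ^ (k + e)) / (z - z⁻¹) := by
    intro k
    rw [← add_div, ← k1 k, ← k2 k]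
    congr 1
    ring
  unfold dr
  have a1 : i + 2 * e + 1 = i + 1 + 2 * e := by ring
  have a2 : i + e + 1 = i + 1 + e := by ring
  rw [a1, a2, ← k3 (i + 1), ← k3 i]
  module

theorem shape_dr (c : Fin n → Fin n → F) (hc : IsGram c) (z : F) (m : ℕ) (hm : 2 ≤ m)
    (hz : IsPrimitiveRoot z (2 * m)) (s t : Fin n) (hst : s ≠ t) (hcs : c s t = -(z + z⁻¹))
    (h2 : (2 : F) ≠ 0) (h3 : (3 : F) ≠ 0) (P : (Fin n → F) → Bool)
    (hg : ∀ b b', P b = true → P b' = true →
      bil c b b' = 0 ∨ bil c b b' = 1 ∨ bil c b b' = -1 ∨ bil c b b' = 2 ∨ bil c b b' = -2)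
    (hr : ∀ b b', P b = true → P b' = true → P (R c b b') = true) :
    Shape c (((List.range m).map (dr z s t)).filter P) := by
  obtain ⟨h0, h1⟩ := frE_zz z m hm hz
  have gap : ∀ i j : ℕ, i < j → j < m → P (dr z s t i) = true → P (dr z s t j) = true →
      (bil c (dr z s t i) (dr z s t j) = 0 ∧ 2 * (j - i) = m) ∨
      (bil c (dr z s t i) (dr z s t j) = 1 ∧ 3 * (j - i) = m) ∨
      (bil c (dr z s t i) (dr z s t j) = -1 ∧ 3 * (j - i) = 2 * m) := by
    intro i j hij hjm hi hj
    have hji : i + (j - i) = j := by omega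
    have hb := frE_bil' c hc z h0 h1 s t hcs i (j - i)
    rw [hji] at hb
    exact frE_gap z m hz h2 h0 (j - i) (by omega) (by omega) _ hb (hg _ _ hi hj)
  rw [List.filter_map]
  have hsort : ((List.range m).filter (P ∘ dr z s t)).Pairwise (· < ·) :=
    List.Pairwise.filter _ List.pairwise_lt_range
  have hmem : ∀ x, x ∈ (List.range m).filter (P ∘ dr z s t) ↔
      x < m ∧ P (dr z s t x) = true := by
    intro x
    rw [List.mem_filter, List.mem_range]
    rfl
  generalize (List.range m).filter (P ∘ dr z s t) = L at hsort hmem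
  rcases L with _ | ⟨i, _ | ⟨j, _ | ⟨k, _ | ⟨l, L⟩⟩⟩⟩
  · exact Or.inl rfl
  · exact Or.inr (Or.inl ⟨_, rfl⟩)
  · right; right; left
    obtain ⟨him, hi⟩ := (hmem i).1 (by simp)
    obtain ⟨hjm, hj⟩ := (hmem j).1 (by simp)
    have hij : i < j := by
      rw [List.pairwise_cons] at hsort
      exact hsort.1 j (by simp)
    refine ⟨_, _, rfl, ?_⟩
    rcases gap i j hij hjm hi hj with ⟨hb, _⟩ | ⟨hb, he⟩ | ⟨hb, he⟩
    · exact hb
    · exfalso
      -- a third element
      have hth := fun k => frE_three z m hm hz h0 s t (j - i) he k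
      by_cases hlt : i + 2 * (j - i) < m
      · have hR : R c (dr z s t i) (dr z s t j) = dr z s t (i + 2 * (j - i)) := by
          rw [R_apply, hb, one_smul]
          have := hth i
          rw [show i + (j - i) = j by omega] at this
          rw [← this]
          abel
        have hP := hr _ _ hi hj
        rw [hR] at hP
        have := (hmem _).2 ⟨hlt, hP⟩
        simp only [List.mem_cons, List.not_mem_nil, or_false] at this
        omega
      · have hR : R c (dr z s t j) (dr z s t i) = dr z s t (i - (j - i)) := by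
          rw [R_apply, bil_symm c hc.symm, hb, one_smul]
          have := hth (i - (j - i))
          rw [show i - (j - i) + 2 * (j - i) = j by omega,
            show i - (j - i) + (j - i) = i by omega] at this
          rw [← this]
          abel
        have hP := hr _ _ hj hi
        rw [hR] at hP
        have := (hmem _).2 ⟨by omega, hP⟩
        simp only [List.mem_cons, List.not_mem_nil, or_false] at this
        omega
    · exfalso
      have he3 : 3 * (m / 3) = m := by omega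
      have hth := frE_three z m hm hz h0 s t (m / 3) he3 i
      have hR : R c (dr z s t i) (dr z s t j) = dr z s t (i + m / 3) := by
        rw [R_apply, hb, ← hth, show i + 2 * (m / 3) = j by omega]
        module
      have hP := hr _ _ hi hj
      rw [hR] at hP
      have := (hmem _).2 ⟨by omega, hP⟩
      simp only [List.mem_cons, List.not_mem_nil, or_false] at this
      omega
  · right; right; right
    obtain ⟨him, hi⟩ := (hmem i).1 (by simp)
    obtain ⟨hjm, hj⟩ := (hmem j).1 (by simp)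
    obtain ⟨hkm, hk⟩ := (hmem k).1 (by simp)
    rw [List.pairwise_cons, List.pairwise_cons] at hsort
    have hij : i < j := hsort.1 j (by simp)
    have hik : i < k := hsort.1 k (by simp)
    have hjk : j < k := hsort.2.1 k (by simp)
    have g1 := gap i j hij hjm hi hj
    have g2 := gap i k hik hkm hi hk
    have g3 := gap j k hjk hkm hj hk
    have hb : bil c (dr z s t i) (dr z s t k) = -1 := by
      rcases g2 with ⟨hb, he⟩ | ⟨hb, he⟩ | ⟨hb, he⟩
      · omega
      · omega
      · exact hb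
    have he : 3 * (j - i) = m := by omega
    have hkk : k = i + 2 * (j - i) := by omega
    have hth := frE_three z m hm hz h0 s t (j - i) he i
    rw [← hkk, show i + (j - i) = j by omega] at hth
    refine ⟨dr z s t i, dr z s t k, ?_, hb⟩
    rw [List.map_cons, List.map_cons, List.map_cons, List.map_nil, hth]
  · exfalso
    obtain ⟨him, hi⟩ := (hmem i).1 (by simp)
    obtain ⟨hjm, hj⟩ := (hmem j).1 (by simp)
    obtain ⟨hkm, hk⟩ := (hmem k).1 (by simp)
    obtain ⟨hlm, hl⟩ := (hmem l).1 (by simp)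
    rw [List.pairwise_cons, List.pairwise_cons, List.pairwise_cons] at hsort
    have hij : i < j := hsort.1 j (by simp)
    have hik : i < k := hsort.1 k (by simp)
    have hjk : j < k := hsort.2.1 k (by simp)
    have hkl : k < l := hsort.2.2.1 l (by simp)
    have hjl : j < l := hsort.2.1 l (by simp)
    have g1 := gap i j hij hjm hi hj
    have g2 := gap i k hik hkm hi hk
    have g3 := gap j k hjk hkm hj hk
    have g4 := gap k l hkl hlm hk hl
    have g5 := gap j l hjl hlm hj hl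
    omega

end Pool.Agent.FR
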