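import Pool.Agent.Lib.MP_d24c19_al.FR.Defs

set_option autoImplicit false

/-!
ROW fr-Fa: alternating products of the permutations and runs: in `alt m a b = a * alt (m-1) b a` the first factor `a` is applied last, so the first applied letter is `t` for `m` even and `s` for `m` odd.
Lemma: `runF l (p)` for `l = altL s t (m+1)`: the last letter of `altL s t (m+1)` is `s` for `m` even, `t` for `m` odd (`altL s t (m+1) = altL s t m ++ [..]`), and `runF` of an append is the composition.
Induction on `m`, `s, t` general.
-/

namespace Pool.Agent.FR

variable {F : Type} [Field F] {n : ℕ} {S' K : Type} [Group K]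


theorem frFa_run_snoc {c : Fin n → Fin n → F} (hc : IsGram c) (x : S' → K) (l : List (Fin n))
    (r : Fin n) (p : FB c x × K) :
    runF hc x (l ++ [r]) p = stepF hc x r (runF hc x l p) := by
  induction l generalizing p with
  | nil => rfl
  | cons a l ih =>
    rw [List.cons_append]
    exact ih (stepF hc x a p)

theorem frFa_altL (s t : Fin n) (m : ℕ) :
    altL s t (m + 1) = altL s t m ++ [if Even m then s else t] := by
  induction m generalizing s t with
  | zero => simp [altL]
  | succ m ih =>
    have e : altL s t (m + 1 + 1) = s :: altL t s (m + 1) := rfl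
    rw [e, ih t s]
    have e' : altL s t (m + 1) = s :: altL t s m := rfl
    rw [e', List.cons_append]
    by_cases h : Even m
    · rw [if_pos h, if_neg (by rw [Nat.even_add_one]; exact not_not.2 h)]
    · rw [if_neg h, if_pos (by rw [Nat.even_add_one]; exact h)]

theorem alt_run {c : Fin n → Fin n → F} (hc : IsGram c) (x : S' → K) (s t : Fin n) (m : ℕ)
    (p : FB c x × K) :
    Pool.Agent.AR.alt m (stepP hc x s) (stepP hc x t) p =
      if Even m then runF hc x (altL t s m) p else runF hc x (altL s t m) p := by
  induction m generalizing s t with
  | zero =>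
    rw [if_pos Even.zero]
    rfl
  | succ m ih =>
    have e : Pool.Agent.AR.alt (m + 1) (stepP hc x s) (stepP hc x t) p =
        stepF hc x s (Pool.Agent.AR.alt m (stepP hc x t) (stepP hc x s) p) := rfl
    rw [e, ih t s]
    by_cases h : Even m
    · rw [if_pos h, if_neg (by rw [Nat.even_add_one]; exact not_not.2 h), frFa_altL, if_pos h,
        frFa_run_snoc]
    · rw [if_neg h, if_pos (by rw [Nat.even_add_one]; exact h), frFa_altL, if_neg h,
        frFa_run_snoc]

end Pool.Agent.FR
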