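import Pool.Agent.Lib.MP_d24c19_al.FR.Defs

set_option autoImplicit false

/-!
ROW fr-G: finite conjunctions of detected properties: direct sums. `choose` the data `ι_i, C_i, C'_i, ρ_i, e_i, e'_i`; `ι = Σ i, ι_i`, `C = Σ i, C_i`, `C' = Σ i, C'_i`,
`ρ g = Matrix.blockDiagonal' (fun i => ρ_i g)` (a monoid hom into matrices, `MonoidHom.toHomUnits`), `e ⟨i,c⟩ s` = `e_i c s` on the block `i`, 0 elsewhere, same for `e'`.
`(ρ g).mulVec (e ⟨i,c⟩ s)` is `(ρ_i g).mulVec (e_i c s)` on the block `i`; pairings of different blocks vanish. (Use `Fintype.ofFinite I`, classical decidability.)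
-/

namespace Pool.Agent.FR

variable {G : Type} [Group G] {n : ℕ}

section blocks
variable {I : Type} [Fintype I] [DecidableEq I] {ι : I → Type} [∀ i, Fintype (ι i)]
  [∀ i, DecidableEq (ι i)] {L : Type} [Field L]

/-- a vector supported on one block -/
private def frG_sg (i : I) (f : ι i → L) : (Σ i, ι i) → L :=
  fun x => Pi.single (M := fun j => ι j → L) i f x.1 x.2

omit [Fintype I] [∀ i, Fintype (ι i)] [∀ i, DecidableEq (ι i)] in
private theorem frG_same (i : I) (f : ι i → L) (y : ι i) : frG_sg i f ⟨i, y⟩ = f y := by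
  unfold frG_sg
  rw [Pi.single_eq_same]

omit [Fintype I] [∀ i, Fintype (ι i)] [∀ i, DecidableEq (ι i)] in
private theorem frG_ne (i : I) (f : ι i → L) {j : I} (h : j ≠ i) (y : ι j) :
    frG_sg i f ⟨j, y⟩ = 0 := by
  unfold frG_sg
  rw [Pi.single_eq_of_ne h]
  rfl

omit [∀ i, DecidableEq (ι i)] in
private theorem frG_sum_left (i : I) (f : ι i → L) (w : (Σ i, ι i) → L) :
    dotProduct (frG_sg i f) w = ∑ y, f y * w ⟨i, y⟩ := by
  unfold dotProduct
  rw [Fintype.sum_sigma, Finset.sum_eq_single i]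
  · exact Finset.sum_congr rfl fun y _ => by rw [frG_same]
  · intro j _ hj
    exact Finset.sum_eq_zero fun y _ => by rw [frG_ne i f hj, zero_mul]
  · intro h
    exact absurd (Finset.mem_univ i) h

omit [∀ i, DecidableEq (ι i)] in
private theorem frG_sum_right (i : I) (f : ι i → L) (w : (Σ i, ι i) → L) :
    dotProduct w (frG_sg i f) = ∑ y, w ⟨i, y⟩ * f y := by
  rw [dotProduct_comm, frG_sum_left]
  exact Finset.sum_congr rfl fun y _ => mul_comm _ _

omit [∀ i, DecidableEq (ι i)] in
private theorem frG_dot_same (i : I) (f g : ι i → L) :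
    dotProduct (frG_sg i f) (frG_sg i g) = dotProduct f g := by
  rw [frG_sum_left]
  exact Finset.sum_congr rfl fun y _ => by rw [frG_same]

omit [∀ i, DecidableEq (ι i)] in
private theorem frG_dot_ne {i j : I} (h : i ≠ j) (f : ι i → L) (g : ι j → L) :
    dotProduct (frG_sg i f) (frG_sg j g) = 0 := by
  rw [frG_sum_left]
  exact Finset.sum_eq_zero fun y _ => by rw [frG_ne j g h, mul_zero]

omit [∀ i, DecidableEq (ι i)] in
private theorem frG_mulVec (M : ∀ i, Matrix (ι i) (ι i) L) (i : I) (f : ι i → L) :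
    (Matrix.blockDiagonal' M).mulVec (frG_sg i f) = frG_sg i ((M i).mulVec f) := by
  funext ⟨j, x⟩
  show dotProduct _ (frG_sg i f) = _
  rw [frG_sum_right]
  by_cases h : j = i
  · subst h
    rw [frG_same]
    exact Finset.sum_congr rfl fun y _ => by rw [Matrix.blockDiagonal'_apply_eq]
  · rw [frG_ne i _ h]
    exact Finset.sum_eq_zero fun y _ => by rw [Matrix.blockDiagonal'_apply_ne M x y h, zero_mul]

omit [∀ i, DecidableEq (ι i)] in
private theorem frG_vecMul (M : ∀ i, Matrix (ι i) (ι i) L) (i : I) (f : ι i → L) :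
    Matrix.vecMul (frG_sg i f) (Matrix.blockDiagonal' M) = frG_sg i (Matrix.vecMul f (M i)) := by
  funext ⟨j, x⟩
  show dotProduct (frG_sg i f) _ = _
  rw [frG_sum_left]
  by_cases h : j = i
  · subst h
    rw [frG_same]
    exact Finset.sum_congr rfl fun y _ => by rw [Matrix.blockDiagonal'_apply_eq]
  · rw [frG_ne i _ h]
    exact Finset.sum_eq_zero fun y _ => by
      rw [Matrix.blockDiagonal'_apply_ne M y x (Ne.symm h), mul_zero]

/-- the direct sum of the representations -/
private def frG_rep {G : Type} [Group G] (ρ : ∀ i, G →* (Matrix (ι i) (ι i) L)ˣ) :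
    G →* Matrix (Σ i, ι i) (Σ i, ι i) L where
  toFun g := Matrix.blockDiagonal' fun i => (ρ i g : Matrix (ι i) (ι i) L)
  map_one' := by
    have h : (fun i => ((ρ i 1 : (Matrix (ι i) (ι i) L)ˣ) : Matrix (ι i) (ι i) L)) = 1 := by
      funext i
      rw [map_one, Units.val_one]
      rfl
    rw [h, Matrix.blockDiagonal'_one]
  map_mul' g g' := by
    rw [← Matrix.blockDiagonal'_mul]
    refine congrArg _ ?_
    funext i
    rw [map_mul, Units.val_mul]

end blocks

theorem Det.forall {gen : Fin n → G} {Adj : Fin n → Fin n → Prop} {L : Type} [Field L]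
    {I : Type} [Finite I] (Z : I → G → Fin n → Fin n → Prop) (h : ∀ i, Det gen Adj L (Z i)) :
    Det gen Adj L (fun g r s => ∀ i, Z i g r s) := by
  classical
  haveI : Fintype I := Fintype.ofFinite I
  choose ι i1 i2 C i3 C' i4 ρ e e' h1 h2 h3 h4 using h
  refine ⟨Σ i, ι i, inferInstance, inferInstance, Σ i, C i, inferInstance, Σ i, C' i,
    inferInstance, (frG_rep ρ).toHomUnits, fun c s => frG_sg c.1 (e c.1 c.2 s),
    fun c s => frG_sg c.1 (e' c.1 c.2 s), ?_, ?_, ?_, ?_⟩
  · rintro ⟨i, c⟩ r s hrs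
    show (Matrix.blockDiagonal' fun i => (ρ i (gen r) : Matrix (ι i) (ι i) L)).mulVec _ = _
    rw [frG_mulVec, h1 i c r s hrs]
  · rintro ⟨i, c⟩ r s hrs
    show Matrix.vecMul _ (Matrix.blockDiagonal' fun i => (ρ i (gen r) : Matrix (ι i) (ι i) L)) = _
    rw [frG_vecMul, h2 i c r s hrs]
  · rintro ⟨i, c⟩ ⟨j, c'⟩ r s hrs
    show dotProduct (frG_sg j (e' j c' r)) (frG_sg i (e i c s)) = 0
    by_cases hij : j = i
    · subst hij
      rw [frG_dot_same]
      exact h3 j c c' r s hrs
    · exact frG_dot_ne hij _ _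
  · intro g r s h5 i
    apply h4 i g r s
    intro c c'
    have h6 := h5 ⟨i, c⟩ ⟨i, c'⟩
    change dotProduct (frG_sg i (e' i c' r))
      ((Matrix.blockDiagonal' fun i => (ρ i g : Matrix (ι i) (ι i) L)).mulVec
        (frG_sg i (e i c s))) = 0 at h6
    rw [frG_mulVec, frG_dot_same] at h6
    exact h6

theorem Det.and {gen : Fin n → G} {Adj : Fin n → Fin n → Prop} {L : Type} [Field L]
    {Z Z' : G → Fin n → Fin n → Prop} (h : Det gen Adj L Z) (h' : Det gen Adj L Z') :
    Det gen Adj L (fun g r s => Z g r s ∧ Z' g r s) := by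
  have := Det.forall (fun b : Bool => if b then Z else Z') (by
    rintro (_ | _)
    · exact h'
    · exact h)
  exact this.mono (fun g r s h5 => ⟨h5 true, h5 false⟩)

end Pool.Agent.FR
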