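import Pool.Agent.Lib.MP_d24c19_al.FR.Om

set_option autoImplicit false

/-!
ROW fr-Rr: invariance of the orbits. `act (gen r) lam` is `lam` if `lam α_r ≠ none`, `lam.comp r` otherwise (`OmM_gen`, `stepP_apply`, `stepF_some/none`, `act` unfolds to the first component at `(lam, 1)`).
`(lam.comp r).1 b = lam.1 (R_r b) = lam0 (u (R_r b))`: `u * R_r` is in the closure; backwards `lam = (lam.comp r).comp r` (`comp_comp`).
-/

namespace Pool.Agent.FR

open Pool.Agent.VB (ArcSys St Psi cyc path ArcHom)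
open Pool.Agent.AR (Art gen)


variable {n : ℕ} {M : CoxeterMatrix (Fin n)}

theorem frRr_some {F : Type} [Field F] (D : RootData M F) {S' K : Type} [Group K] (x : S' → K)
    (r : Fin n) (lam : FB D.c x) (a : S') (h : lam.1 (al r) = some a) :
    act (OmM D x) (gen M r) lam = lam := by
  unfold act
  rw [OmM_gen, stepP_apply, stepF_some D.gram x r (lam, 1) a h]

theorem frRr_none {F : Type} [Field F] (D : RootData M F) {S' K : Type} [Group K] (x : S' → K)
    (r : Fin n) (lam : FB D.c x) (h : lam.1 (al r) = none) :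
    act (OmM D x) (gen M r) lam = lam.comp D.gram r := by
  unfold act
  rw [OmM_gen, stepP_apply, stepF_none D.gram x r (lam, 1) h]

theorem frRr_comp {F : Type} [Field F] (D : RootData M F) {S₁ W₁ : Type}
    {A : ArcSys S₁ W₁} (Ch : Chain D.c S₁ W₁ A) (r s : Fin n) (h : Ad M r s)
    (lam : FB D.c (wk Ch.W' Ch.Z').x) (hl : lam ∈ Ch.Orb D s) :
    lam.comp D.gram r ∈ Ch.Orb D s := by
  obtain ⟨u, hu, h1⟩ := hl
  refine ⟨u * R D.c (al r), Submonoid.mul_mem _ hu (Submonoid.subset_closure ⟨r, h, rfl⟩),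
    fun b => ?_⟩
  rw [FB.comp_apply, h1]
  rfl

theorem Chain.orb_inv {F : Type} [Field F] (D : RootData M F) {S₁ W₁ : Type}
    {A : ArcSys S₁ W₁} (Ch : Chain D.c S₁ W₁ A) (r s : Fin n) (h : Ad M r s)
    (lam : FB D.c (wk Ch.W' Ch.Z').x) :
    act (OmM D (wk Ch.W' Ch.Z').x) (gen M r) lam ∈ Ch.Orb D s ↔ lam ∈ Ch.Orb D s := by
  rcases h' : lam.1 (al r) with _ | a
  · rw [frRr_none D _ r lam h']
    constructor
    · intro h1
      have h2 := frRr_comp D Ch r s h _ h1
      rwa [FB.comp_comp] at h2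
    · exact frRr_comp D Ch r s h lam
  · rw [frRr_some D _ r lam a h']

end Pool.Agent.FR
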