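import Pool.Agent.Lib.MP_d24c19_al.FR.Om

set_option autoImplicit false

/-!
ROW fr-Sr: the label of the generator `f a` of the chain, `f a` not adjacent to `s`, is not used on the orbit. If `lam.1 (al r) = some (φ a)`, `lam = lam0 ∘ u`: `lam0 (u α_r) = some (φ a)`, so `u α_r = vec (φ a) = α_{f a}`
(`lam0_some`, `Ch.pts.inj`, `Ch.vec_f`). But every `u` in the closure (products of `R_r'`, `r'` adjacent to `s`, so `r' ≠ f a`) keeps the set of vectors with coordinate 0 at `f a`
(`R_r' v = v - B(..) α_r'`), and `α_r` has coordinate 0 there (`r` adjacent to `s`, so `r ≠ f a`), `α_{f a}` has coordinate 1.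
-/

namespace Pool.Agent.FR

open Pool.Agent.VB (ArcSys St Psi cyc path ArcHom)
open Pool.Agent.AR (Art gen)


variable {n : ℕ} {M : CoxeterMatrix (Fin n)}

theorem Chain.orb_label {F : Type} [Field F] (D : RootData M F) {S₁ W₁ : Type}
    {A : ArcSys S₁ W₁} (Ch : Chain D.c S₁ W₁ A) (r s : Fin n) (h : Ad M r s)
    (a : S₁) (ha : ¬ Ad M (Ch.f a) s) (lam : FB D.c (wk Ch.W' Ch.Z').x) (hl : lam ∈ Ch.Orb D s) :
    lam.1 (al r) ≠ some (Ch.φ.f a) := by
  let _ := Ch.dW
  let _ := Ch.aZ
  intro hlab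
  obtain ⟨u, hu, hlu⟩ := hl
  rw [hlu] at hlab
  have h1 : vec Ch.p Ch.δ Ch.ι (Ch.φ.f a) = u (al r) := (lam0_some Ch.pts.inj _ _).1 hlab
  rw [Ch.vec_f] at h1
  have key : ∀ v : Fin n → F, v (Ch.f a) = 0 → (u v) (Ch.f a) = 0 := by
    clear h1 hlab hlu
    induction hu using Submonoid.closure_induction with
    | mem u hu =>
      obtain ⟨r', hr', rfl⟩ := hu
      intro v hv
      have hne : Ch.f a ≠ r' := fun he => ha (he ▸ hr')
      rw [R_apply, Pi.sub_apply, Pi.smul_apply, hv]
      unfold al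
      rw [Pi.single_eq_of_ne hne, smul_zero, sub_zero]
    | one => exact fun v hv => hv
    | mul u u' _ _ h1 h2 => exact fun v hv => h1 _ (h2 v hv)
  have hne : Ch.f a ≠ r := fun he => ha (he ▸ h)
  have h2 := key (al r) (by
    unfold al
    exact Pi.single_eq_of_ne hne _)
  rw [← h1] at h2
  unfold al at h2
  rw [Pi.single_eq_same] at h2
  exact one_ne_zero h2

end Pool.Agent.FR
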