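import Pool.Agent.Lib.MP_d24c19_al.FR.DefsB

set_option autoImplicit false

/-!
ROW fr-Q: root data over a finite field. `L` = product of the nonzero labels (over all pairs), `p` a prime with `p ≡ 1 mod 2L`, `p > 3` (`Nat.exists_prime_gt_modEq_one`), `F = ZMod p`, a generator of the cyclic
group of units gives a primitive `(p-1)`-th root `ζ` (`IsCyclic`, `HasEnoughRootsOfUnity`, or `IsPrimitiveRoot.pow`), `z s t = ζ^((p-1)/(2 m_st))`. `c s s = 2`, `c s t = -(z + 1/z)` for `m_st ≠ 0`, `-2` for `m_st = 0`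
(symmetric because `M` is: `M.isSymm.apply`). Then the values for labels 3 and 2: `z` of order 6: `z^3 = -1`, `z ≠ -1`: `z^2 - z + 1 = 0`: `z + 1/z = 1`; `z` of order 4: `z^2 = -1`: `z + 1/z = 0`.
-/

namespace Pool.Agent.FR

open Pool.Agent.VB (ArcSys St Psi cyc path ArcHom)
open Pool.Agent.AR (Art gen)

private theorem frQ_prim (p : ℕ) [Fact p.Prime] :
    ∃ ζ : ZMod p, IsPrimitiveRoot ζ (p - 1) := by
  obtain ⟨g, hg⟩ := IsCyclic.exists_generator (α := (ZMod p)ˣ)
  have h1 : orderOf g = p - 1 := by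
    rw [orderOf_eq_card_of_forall_mem_zpowers hg, Nat.card_eq_fintype_card, ZMod.card_units_eq_totient,
      Nat.totient_prime (Fact.out : p.Prime)]
  refine ⟨(g : ZMod p), ?_⟩
  rw [IsPrimitiveRoot.coe_units_iff, ← h1]
  exact IsPrimitiveRoot.orderOf g

theorem exists_rootData {n : ℕ} (M : CoxeterMatrix (Fin n)) :
    ∃ (F : Type) (_ : Field F) (_ : Finite F), Nonempty (RootData M F) := by
  set L : ℕ := ∏ x : Fin n × Fin n, (if M.M x.1 x.2 = 0 then 1 else M.M x.1 x.2) with hL
  have hL0 : L ≠ 0 := by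
    rw [hL]
    refine Finset.prod_ne_zero_iff.2 (fun x _ => ?_)
    split_ifs with h
    · exact one_ne_zero
    · exact h
  obtain ⟨p, hp, hp3, hmod⟩ := Nat.exists_prime_gt_modEq_one (k := 2 * L) 3
    (mul_ne_zero two_ne_zero hL0)
  haveI : Fact p.Prime := ⟨hp⟩
  obtain ⟨ζ, hζ⟩ := frQ_prim p
  have hdvd : ∀ s t : Fin n, M.M s t ≠ 0 → 2 * M.M s t ∣ p - 1 := by
    intro s t h
    have h1 : M.M s t ∣ L := by
      have h2 := Finset.dvd_prod_of_mem
        (fun x : Fin n × Fin n => if M.M x.1 x.2 = 0 then 1 else M.M x.1 x.2) (Finset.mem_univ (s, t))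
      simp only [if_neg h] at h2
      exact h2
    have h3 : 2 * L ∣ p - 1 := (Nat.modEq_iff_dvd' (by omega)).1 hmod.symm
    exact (Nat.mul_dvd_mul_left 2 h1).trans h3
  refine ⟨ZMod p, inferInstance, inferInstance, ⟨?_⟩⟩
  refine
    { c := fun s t => if s = t then 2 else
        -(ζ ^ ((p - 1) / (2 * M.M s t)) + (ζ ^ ((p - 1) / (2 * M.M s t)))⁻¹)
      gram := ⟨?_, ?_⟩
      two := ?_
      three := ?_
      z := fun s t => ζ ^ ((p - 1) / (2 * M.M s t))
      prim := ?_
      val := ?_ }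
  · intro s t
    have hs : M.M s t = M.M t s := M.isSymm.apply t s
    by_cases h : s = t
    · subst h
      rfl
    · simp only [if_neg h, if_neg (Ne.symm h), hs]
  · intro s
    simp
  · intro h
    have h1 : ((2 : ℕ) : ZMod p) = 0 := by exact_mod_cast h
    have h2 := (ZMod.natCast_eq_zero_iff 2 p).1 h1
    have := Nat.le_of_dvd (by norm_num) h2
    omega
  · intro h
    have h1 : ((3 : ℕ) : ZMod p) = 0 := by exact_mod_cast h
    have h2 := (ZMod.natCast_eq_zero_iff 3 p).1 h1
    have := Nat.le_of_dvd (by norm_num) h2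
    omega
  · intro s t _ hm
    have hd := hdvd s t hm
    exact hζ.pow (by omega) (Nat.div_mul_cancel hd).symm
  · intro s t hst _
    simp only [if_neg hst]

private theorem frQ_ne {n : ℕ} {M : CoxeterMatrix (Fin n)} {s t : Fin n} {k : ℕ} (hk : k ≠ 1)
    (h : M.M s t = k) : s ≠ t := by
  rintro rfl
  rw [M.diagonal] at h
  exact hk h.symm

theorem RootData.c_three {n : ℕ} {M : CoxeterMatrix (Fin n)} {F : Type} [Field F]
    (D : RootData M F) {s t : Fin n} (h : M.M s t = 3) : D.c s t = -1 := by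
  have hst : s ≠ t := frQ_ne (by norm_num) h
  have hm : M.M s t ≠ 0 := by rw [h]; norm_num
  have hp := D.prim s t hst hm
  rw [D.val s t hst hm]
  rw [h] at hp
  have h6 : D.z s t ^ 6 = 1 := hp.pow_eq_one
  have hne3 : D.z s t ^ 3 ≠ 1 := hp.pow_ne_one_of_pos_of_lt (by norm_num) (by norm_num)
  have hne2 : D.z s t ^ 2 ≠ 1 := hp.pow_ne_one_of_pos_of_lt (by norm_num) (by norm_num)
  have h0 : D.z s t ≠ 0 := hp.ne_zero (by norm_num)
  generalize D.z s t = z at *
  have h3 : z ^ 3 + 1 = 0 := by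
    have : (z ^ 3 - 1) * (z ^ 3 + 1) = 0 := by linear_combination h6
    rcases mul_eq_zero.1 this with h' | h'
    · exact absurd (sub_eq_zero.1 h') hne3
    · exact h'
  have h1 : z + 1 ≠ 0 := by
    intro h'
    apply hne2
    have : z = -1 := by linear_combination h'
    rw [this]
    ring
  have h2 : z ^ 2 - z + 1 = 0 := by
    have : (z + 1) * (z ^ 2 - z + 1) = 0 := by linear_combination h3
    exact (mul_eq_zero.1 this).resolve_left h1
  have h4 : z + z⁻¹ = 1 := by
    field_simp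
    linear_combination h2
  rw [h4]

theorem RootData.c_two {n : ℕ} {M : CoxeterMatrix (Fin n)} {F : Type} [Field F]
    (D : RootData M F) {s t : Fin n} (h : M.M s t = 2) : D.c s t = 0 := by
  have hst : s ≠ t := frQ_ne (by norm_num) h
  have hm : M.M s t ≠ 0 := by rw [h]; norm_num
  have hp := D.prim s t hst hm
  rw [D.val s t hst hm]
  rw [h] at hp
  have h4 : D.z s t ^ 4 = 1 := hp.pow_eq_one
  have hne2 : D.z s t ^ 2 ≠ 1 := hp.pow_ne_one_of_pos_of_lt (by norm_num) (by norm_num)
  have h0 : D.z s t ≠ 0 := hp.ne_zero (by norm_num)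
  generalize D.z s t = z at *
  have h3 : z ^ 2 + 1 = 0 := by
    have : (z ^ 2 - 1) * (z ^ 2 + 1) = 0 := by linear_combination h4
    rcases mul_eq_zero.1 this with h' | h'
    · exact absurd (sub_eq_zero.1 h') hne2
    · exact h'
  have h5 : z + z⁻¹ = 0 := by
    field_simp
    linear_combination h3
  rw [h5, neg_zero]

end Pool.Agent.FR
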