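import Pool.Agent.Lib.MP_d24c19_al.FR.Om
import Pool.Agent.Lib.MP_d24c19_al.FR.Q

set_option autoImplicit false

/-!
ROW fr-Tr: the base frame is fixed by the chain and by what commutes with it, and the cocycle there. Subgroup generated: show that
`OmM (ι g') (base, k) = (base, Ch.φ.map g' * k)` for all `g'`, `k` (generators `A.x i`: `gen M (f i)`, `base.1 (al (f i)) = some (φ.f i)` by `lam0_some`, `vec_f`; `stepF_some`; `(wk ..).x (φ.f i) = φ.map (A.x i)`,
`ArcHom.map_x`; the group of an arc system is generated by the `x i`: induction with `PresentedGroup.induction_on` or closure = ⊤; inverses as in row fr-I) and `OmM g'' (base, k) = (base, k)` for `g''` in the closure: for `y` with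
`M y (f i) = 2` for all `i`: `y ∉ range f` (`M y y = 1`), so `α_y` is not labelled (`supp`: every `vec q` has coordinate 0 at `y`), `stepF_none`, and `base.comp y = base`: `lam0 (R_y b) = lam0 b`
because `R_y (vec q) = vec q` (`B(α_y, vec q) = ∑_t c y t (vec q) t`, only `t = f i` counts, `c_two`). Compare `some`/`none` values through `lam0_some`.
-/

namespace Pool.Agent.FR

open Pool.Agent.VB (ArcSys St Psi cyc path ArcHom)
open Pool.Agent.AR (Art gen)


variable {n : ℕ} {M : CoxeterMatrix (Fin n)}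

private theorem frTr_inv {G X K : Type} [Group G] [Group K] {Om : G →* Equiv.Perm (X × K)}
    (h : Coc Om) (g : G) (x : X) (hx : act Om g x = x) :
    act Om g⁻¹ x = x ∧ kap Om g⁻¹ x = (kap Om g x)⁻¹ := by
  constructor
  · have h1 := act_mul h g⁻¹ g x
    rw [inv_mul_cancel, act_one, hx] at h1
    exact h1.symm
  · have h1 := kap_mul h g⁻¹ g x
    rw [inv_mul_cancel, kap_one, hx] at h1
    exact eq_inv_of_mul_eq_one_left h1.symm

private theorem frTr_ind {S W : Type} {A : ArcSys S W} (P : A.G → Prop) (h1 : P 1)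
    (hx : ∀ s, P (A.x s)) (hm : ∀ g h, P g → P h → P (g * h)) (hi : ∀ g, P g → P g⁻¹) (g : A.G) :
    P g := by
  have hg : g ∈ Subgroup.closure
      (Set.range (PresentedGroup.of (rels := Pool.Agent.VB.artRels A.br A.cm))) := by
    rw [PresentedGroup.closure_range_of]; trivial
  induction hg using Subgroup.closure_induction with
  | mem x hx' =>
    obtain ⟨s, rfl⟩ := hx'
    exact hx s
  | one => exact h1
  | mul x y _ _ ix iy => exact hm x y ix iy
  | inv x _ ix => exact hi x ix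

private theorem frTr_R {F : Type} [Field F] (D : RootData M F) {S₁ W₁ : Type}
    {A : ArcSys S₁ W₁} (Ch : Chain D.c S₁ W₁ A) (y : Fin n) (hy : ∀ i, M.M y (Ch.f i) = 2)
    (q : {q : Ch.W' × Ch.W' × Ch.Z' // q.1 ≠ q.2.1}) :
    letI := Ch.aZ
    R D.c (al y) (vec Ch.p Ch.δ Ch.ι q) = vec Ch.p Ch.δ Ch.ι q := by
  let := Ch.aZ
  have h0 : bil D.c (al y) (vec Ch.p Ch.δ Ch.ι q) = 0 := by
    unfold bil
    refine Finset.sum_eq_zero fun s _ => Finset.sum_eq_zero fun t _ => ?_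
    by_cases hs : s = y
    · subst hs
      by_cases ht : t ∈ Set.range Ch.f
      · obtain ⟨i, rfl⟩ := ht
        rw [D.c_two (hy i), zero_mul, mul_zero]
      · have h2 := Ch.supp q t ht
        rw [show vec Ch.p Ch.δ Ch.ι q t = 0 from h2, mul_zero, mul_zero]
    · have h3 : (al y : Fin n → F) s = 0 := by
        unfold al
        rw [Pi.single_eq_of_ne hs]
      rw [h3, zero_mul]
  rw [R_apply, h0, zero_smul, sub_zero]

private theorem frTr_none {F : Type} [Field F] (D : RootData M F) {S₁ W₁ : Type}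
    {A : ArcSys S₁ W₁} (Ch : Chain D.c S₁ W₁ A) (y : Fin n) (hy : ∀ i, M.M y (Ch.f i) = 2) :
    (Ch.base D).1 (al y) = none := by
  by_contra hne
  obtain ⟨q, hq⟩ := Option.ne_none_iff_exists'.1 hne
  let := Ch.dW
  let := Ch.aZ
  have h1 : vec Ch.p Ch.δ Ch.ι q = al y := (lam0_some Ch.pts.inj (al y) q).1 hq
  have hr : y ∉ Set.range Ch.f := by
    rintro ⟨i, hi⟩
    have h2 := hy i
    rw [hi, M.diagonal y] at h2
    exact absurd h2 (by decide)
  have h2 := Ch.supp q y hr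
  have h3 : vec Ch.p Ch.δ Ch.ι q y = 1 := by
    rw [h1]
    unfold al
    rw [Pi.single_eq_same]
  exact one_ne_zero (h3.symm.trans h2)

private theorem frTr_comp {F : Type} [Field F] (D : RootData M F) {S₁ W₁ : Type}
    {A : ArcSys S₁ W₁} (Ch : Chain D.c S₁ W₁ A) (y : Fin n) (hy : ∀ i, M.M y (Ch.f i) = 2) :
    (Ch.base D).comp D.gram y = Ch.base D := by
  let := Ch.dW
  let := Ch.aZ
  have h2 : bil D.c (al y) (al y) = 2 := by rw [bil_al, D.gram.two]
  apply Subtype.ext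
  funext v
  rw [FB.comp_apply]
  refine Option.ext fun q => ?_
  change lam0 Ch.p Ch.δ Ch.ι (R D.c (al y) v) = some q ↔ lam0 Ch.p Ch.δ Ch.ι v = some q
  rw [lam0_some Ch.pts.inj, lam0_some Ch.pts.inj]
  have h3 := frTr_R D Ch y hy q
  constructor
  · intro h
    have h4 : R D.c (al y) (vec Ch.p Ch.δ Ch.ι q) = R D.c (al y) (R D.c (al y) v) := by rw [h]
    rw [R_R D.c (al y) h2] at h4
    exact h3.symm.trans h4
  · intro h
    have h4 : R D.c (al y) (vec Ch.p Ch.δ Ch.ι q) = R D.c (al y) v := by rw [h]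
    exact h3.symm.trans h4

private theorem frTr_cl {F : Type} [Field F] (D : RootData M F) {S₁ W₁ : Type}
    {A : ArcSys S₁ W₁} (Ch : Chain D.c S₁ W₁ A) (g'' : Art M)
    (hg : g'' ∈ Subgroup.closure (gen M '' {y | ∀ i, M.M y (Ch.f i) = 2})) :
    act (OmM D (wk Ch.W' Ch.Z').x) g'' (Ch.base D) = Ch.base D ∧
      kap (OmM D (wk Ch.W' Ch.Z').x) g'' (Ch.base D) = 1 := by
  have hco := OmM_coc D (wk Ch.W' Ch.Z').x
  induction hg using Subgroup.closure_induction with
  | mem x hx =>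
    obtain ⟨y, hy, rfl⟩ := hx
    have h1 : OmM D (wk Ch.W' Ch.Z').x (gen M y) (Ch.base D, 1) = (Ch.base D, 1) := by
      rw [OmM_gen, stepP_apply, stepF_none _ _ _ _ (frTr_none D Ch y hy)]
      exact Prod.ext (frTr_comp D Ch y hy) rfl
    exact ⟨congrArg Prod.fst h1, congrArg Prod.snd h1⟩
  | one => exact ⟨act_one _, kap_one _⟩
  | mul x y _ _ ix iy =>
    constructor
    · rw [act_mul hco, iy.1, ix.1]
    · rw [kap_mul hco, iy.1, ix.2, iy.2, one_mul]
  | inv x _ ix =>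
    obtain ⟨h1, h2⟩ := frTr_inv hco x _ ix.1
    exact ⟨h1, by rw [h2, ix.2, inv_one]⟩

private theorem frTr_arc {F : Type} [Field F] (D : RootData M F) {S₁ W₁ : Type}
    {A : ArcSys S₁ W₁} (Ch : Chain D.c S₁ W₁ A) (ι : A.G →* Art M)
    (hι : ∀ i, ι (A.x i) = gen M (Ch.f i)) (g' : A.G) :
    act (OmM D (wk Ch.W' Ch.Z').x) (ι g') (Ch.base D) = Ch.base D ∧
      kap (OmM D (wk Ch.W' Ch.Z').x) (ι g') (Ch.base D) = Ch.φ.map g' := by
  have hco := OmM_coc D (wk Ch.W' Ch.Z').x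
  refine frTr_ind (A := A) (fun g' =>
    act (OmM D (wk Ch.W' Ch.Z').x) (ι g') (Ch.base D) = Ch.base D ∧
      kap (OmM D (wk Ch.W' Ch.Z').x) (ι g') (Ch.base D) = Ch.φ.map g') ?_ ?_ ?_ ?_ g'
  · simp only [map_one]
    exact ⟨act_one _, kap_one _⟩
  · intro i
    let := Ch.dW
    let := Ch.aZ
    have h0 : (Ch.base D).1 (al (Ch.f i)) = some (Ch.φ.f i) :=
      (lam0_some Ch.pts.inj (al (Ch.f i)) (Ch.φ.f i)).2 (Ch.vec_f i)
    have h1 : OmM D (wk Ch.W' Ch.Z').x (ι (A.x i)) (Ch.base D, 1) =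
        (Ch.base D, (wk Ch.W' Ch.Z').x (Ch.φ.f i)) := by
      rw [hι, OmM_gen, stepP_apply, stepF_some _ _ _ _ _ h0, mul_one]
    refine ⟨congrArg Prod.fst h1, ?_⟩
    rw [ArcHom.map_x]
    exact congrArg Prod.snd h1
  · intro g h hg hh
    simp only [map_mul]
    constructor
    · rw [act_mul hco, hh.1, hg.1]
    · rw [kap_mul hco, hh.1, hg.2, hh.2]
  · intro g hg
    simp only [map_inv]
    obtain ⟨h1, h2⟩ := frTr_inv hco (ι g) _ hg.1
    exact ⟨h1, by rw [h2, hg.2]⟩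

theorem Chain.base_fix {F : Type} [Field F] (D : RootData M F) {S₁ W₁ : Type}
    {A : ArcSys S₁ W₁} (Ch : Chain D.c S₁ W₁ A) [Nonempty S₁] (ι : A.G →* Art M)
    (hι : ∀ i, ι (A.x i) = gen M (Ch.f i)) (g' : A.G) (g'' : Art M)
    (hg : g'' ∈ Subgroup.closure (gen M '' {y | ∀ i, M.M y (Ch.f i) = 2})) :
    act (OmM D (wk Ch.W' Ch.Z').x) (ι g' * g'') (Ch.base D) = Ch.base D ∧
      kap (OmM D (wk Ch.W' Ch.Z').x) (ι g' * g'') (Ch.base D) = Ch.φ.map g' := by
  have hco := OmM_coc D (wk Ch.W' Ch.Z').x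
  obtain ⟨h1, h2⟩ := frTr_cl D Ch g'' hg
  obtain ⟨h3, h4⟩ := frTr_arc D Ch ι hι g'
  constructor
  · rw [act_mul hco, h1, h3]
  · rw [kap_mul hco, h1, h4, h2, mul_one]

end Pool.Agent.FR
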