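import Pool.Agent.Lib.MP_d24c19_al.FR.DefsB
import Pool.Agent.Lib.MP_7c21d5_al.VB09_Cliques

set_option autoImplicit false

/-!
ROW fr-Ur: the matrices of the modules `modD A b a lv d`, over `L`. `κ = St W`; `Pool.Agent.VB.ra_matrix` gives `M0 : A.G →* (Matrix κ κ KK)ˣ` with `vecMul F (M0 g) = rac (modD ..) F g`; map the entries to `L = FractionRing ℝ[X]` by
the field homomorphism `τ : Pool.Agent.VB.KK = FractionRing ℚ[X] → L` (`IsFractionRing.lift` of `(algebraMap ℝ[X] L).comp (Polynomial.mapRingHom (algebraMap ℚ ℝ))`, injective), `Units.map (RingHom.mapMatrix τ)`.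
`ep = τ ∘ eps tK lv`, `del = Pi.single none 1`. Invariance: `eps_inv`, `none_inv` (for `modE`) and for `d = true` the private lemmas of row H4 in VB09 (H4_eps0, H4_none0): the module is `(modE A.rev b a lv).comp (theta A)`,
`theta (x r) = (x r)⁻¹`: copy the short argument. `Psi A b a lv d g = rac (modD A b a lv d) (eps tK lv) g none`; `ep ⬝ del = τ (eps none) = 0`.
-/

namespace Pool.Agent.FR

open Pool.Agent.VB (ArcSys St Psi cyc path ArcHom)
open Pool.Agent.AR (Art gen)


open Pool.Agent.VB (modD modE rac eps theta none_inv eps_inv rac_mul rac_one theta_x)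

private theorem frUr_modD {S W : Type} [DecidableEq S] [Fintype W] [DecidableEq W]
    (A : ArcSys S W) (b a : S) (lv : Bool) (r : S) (F : St W → Pool.Agent.VB.KK) :
    rac (modD A b a lv true) F (A.x r) = rac (modE A.rev b a lv) F (A.rev.x r)⁻¹ := by
  have e : modD A b a lv true = (modE A.rev b a lv).comp (theta A) := by
    simp only [modD, if_true]
  rw [e]
  have e2 : rac ((modE A.rev b a lv).comp (theta A)) F (A.x r) =
      rac (modE A.rev b a lv) F (theta A (A.x r)) := by
    simp only [rac, MonoidHom.comp_apply]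
  rw [e2, theta_x]

private theorem frUr_modF {S W : Type} [DecidableEq S] [Fintype W] [DecidableEq W]
    (A : ArcSys S W) (b a : S) (lv : Bool) :
    modD A b a lv false = modE A b a lv := by
  simp only [modD, if_false, Bool.false_eq_true]

private theorem frUr_none {S W : Type} [DecidableEq S] [Fintype W] [DecidableEq W]
    (A : ArcSys S W) (b a : S) (lv d : Bool) (r : S) (h : r ≠ a)
    (F : St W → Pool.Agent.VB.KK) :
    rac (modD A b a lv d) F (A.x r) none = F none := by
  cases d with
  | false =>
    rw [frUr_modF]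
    exact none_inv A b a lv r h F
  | true =>
    rw [frUr_modD]
    have h1 := none_inv A.rev b a lv r h (rac (modE A.rev b a lv) F (A.rev.x r)⁻¹)
    rw [← rac_mul, inv_mul_cancel, rac_one] at h1
    exact h1.symm

private theorem frUr_eps {S W : Type} [DecidableEq S] [Fintype W] [DecidableEq W]
    (A : ArcSys S W) (b a : S) (lv d : Bool) (r : S) (h : r ≠ b) :
    rac (modD A b a lv d) (eps Pool.Agent.VB.tK lv) (A.x r) = eps Pool.Agent.VB.tK lv := by
  cases d with
  | false =>
    rw [frUr_modF]
    exact eps_inv A b a lv r h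
  | true =>
    rw [frUr_modD]
    have h1 := eps_inv A.rev b a lv r h
    conv_lhs => rw [← h1]
    rw [← rac_mul, mul_inv_cancel, rac_one]

private theorem frUr_emb : ∃ τ : Pool.Agent.VB.KK →+* L, Function.Injective τ := by
  let g : Polynomial ℚ →+* L :=
    (algebraMap (Polynomial ℝ) L).comp (Polynomial.mapRingHom (algebraMap ℚ ℝ))
  have hg : Function.Injective g :=
    (IsFractionRing.injective (Polynomial ℝ) L).comp
      (Polynomial.map_injective _ (algebraMap ℚ ℝ).injective)
  exact ⟨IsFractionRing.lift hg, RingHom.injective _⟩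

theorem mat_exists {S W : Type} [DecidableEq S] [Fintype W] [DecidableEq W] (A : ArcSys S W) (b a : S)
    (lv d : Bool) :
    ∃ (κ : Type) (_ : Fintype κ) (_ : DecidableEq κ) (Mx : A.G →* (Matrix κ κ L)ˣ)
      (ep del : κ → L), dotProduct ep del = 0 ∧
      (∀ r, r ≠ a → (Mx (A.x r) : Matrix κ κ L).mulVec del = del) ∧
      (∀ r, r ≠ b → Matrix.vecMul ep (Mx (A.x r) : Matrix κ κ L) = ep) ∧
      ∀ g, dotProduct ep ((Mx g : Matrix κ κ L).mulVec del) = 0 → Psi A b a lv d g = 0 := by
  classical
  obtain ⟨M0, hM0⟩ := Pool.Agent.VB.ra_matrix (modD A b a lv d)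
  obtain ⟨τ, hτ⟩ := frUr_emb
  have hval : ∀ g, (((Units.map (RingHom.mapMatrix τ : Matrix (St W) (St W) Pool.Agent.VB.KK →+*
      Matrix (St W) (St W) L).toMonoidHom).comp M0) g : Matrix (St W) (St W) L) =
      (M0 g : Matrix (St W) (St W) Pool.Agent.VB.KK).map τ := fun g => rfl
  have hvm : ∀ (v : St W → Pool.Agent.VB.KK) (X : Matrix (St W) (St W) Pool.Agent.VB.KK),
      Matrix.vecMul (fun x => τ (v x)) (X.map τ) = fun x => τ (Matrix.vecMul v X x) := by
    intro v X
    funext x
    simp only [Matrix.vecMul, dotProduct, Matrix.map_apply, map_sum, map_mul]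
  have hcol : ∀ r, r ≠ a → ∀ i, (M0 (A.x r) : Matrix (St W) (St W) Pool.Agent.VB.KK) i none =
      (Pi.single none 1 : St W → Pool.Agent.VB.KK) i := by
    intro r hr i
    have h1 := congrFun (hM0 (A.x r) (Pi.single i 1)) none
    rw [frUr_none A b a lv d r hr, Matrix.single_one_vecMul] at h1
    change (M0 (A.x r) : Matrix (St W) (St W) Pool.Agent.VB.KK) i none = _ at h1
    rw [h1, Pi.single_apply, Pi.single_apply]
    by_cases h2 : i = none
    · rw [if_pos h2, if_pos h2.symm]
    · rw [if_neg h2, if_neg (fun h3 => h2 h3.symm)]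
  refine ⟨St W, inferInstance, inferInstance, (Units.map (RingHom.mapMatrix τ :
      Matrix (St W) (St W) Pool.Agent.VB.KK →+* Matrix (St W) (St W) L).toMonoidHom).comp M0,
    fun x => τ (eps Pool.Agent.VB.tK lv x), Pi.single none 1, ?_, ?_, ?_, ?_⟩
  · rw [dotProduct_single_one]
    show τ 0 = 0
    exact map_zero τ
  · intro r hr
    rw [hval, Matrix.mulVec_single_one]
    funext i
    show τ ((M0 (A.x r) : Matrix (St W) (St W) Pool.Agent.VB.KK) i none) = _
    rw [hcol r hr i, Pi.single_apply, Pi.single_apply]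
    split_ifs
    · exact map_one τ
    · exact map_zero τ
  · intro r hr
    rw [hval, hvm, hM0, frUr_eps A b a lv d r hr]
  · intro g hg
    rw [Matrix.dotProduct_mulVec, hval, hvm, dotProduct_single_one, hM0] at hg
    have h1 := hτ (hg.trans (map_zero τ).symm)
    exact h1

end Pool.Agent.FR
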