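import Pool.Agent.Lib.MP_d24c19_al.FR.Mc
import Pool.Agent.Lib.MP_d24c19_al.FR.Rr
import Pool.Agent.Lib.MP_d24c19_al.FR.Sr
import Pool.Agent.Lib.MP_d24c19_al.FR.Tr
import Pool.Agent.Lib.MP_d24c19_al.FR.Ur

set_option autoImplicit false

/-!
ROW fr-Vr: detection of `ZC`. `Det.forall` over `(a, b, lv, d) : S₁ × S₁ × Bool × Bool` (then `Det.mono`). For one quadruple: `A' = wk W' Z'` (instances `Ch.fW, Ch.dW, Ch.aZ, Ch.fZ`; the label type is finite), `mat_exists A' (φ.f b) (φ.f a) lv d`,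
`det_coc` with `Om = OmM D A'.x`, `X = FB D.c A'.x` (finite: `FB_finite`), `Orb s := {x | ¬ Ad M s (f a) ∧ x ∈ Ch.Orb D s}`, `Orb' s := {x | ¬ Ad M s (f b) ∧ x ∈ Ch.Orb D s}` (`orb_inv`); `hd`: `kap (gen r) x` is `A'.x q` with `q = x.1 (al r)`, `q ≠ φ.f a`
by `orb_label` (`Ad` is symmetric), or `1`. Then for `g = ι g' * g''`, `x = Ch.base D` (in `Orb s`: `u = 1`): `base_fix`: `kap = φ.map g'`, `Psi A' (φ.f b) (φ.f a) lv d (φ.map g') = Psi A b a lv d g'` (`Pool.Agent.VB.Psi_map`).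
-/

namespace Pool.Agent.FR

open Pool.Agent.VB (ArcSys St Psi cyc path ArcHom)
open Pool.Agent.AR (Art gen)


variable {n : ℕ} {M : CoxeterMatrix (Fin n)}

theorem det_chain {F : Type} [Field F] [Finite F] (D : RootData M F) {S₁ W₁ : Type} [Fintype S₁]
    [DecidableEq S₁] [Fintype W₁] [DecidableEq W₁] {A : ArcSys S₁ W₁} (Ch : Chain D.c S₁ W₁ A)
    [Nonempty S₁] (ι : A.G →* Art M) (hι : ∀ i, ι (A.x i) = gen M (Ch.f i)) :
    Det (gen M) (Ad M) L (ZC A Ch.f ι) := by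
  classical
  letI := Ch.fW
  letI := Ch.dW
  letI := Ch.aZ
  haveI := Ch.fZ
  have hsymm : ∀ r s : Fin n, Ad M r s → Ad M s r := by
    intro r s h
    have : M.M s r = M.M r s := M.isSymm.apply r s
    exact ⟨h.1.symm, by rw [this]; exact h.2⟩
  have key : ∀ q : S₁ × S₁ × Bool × Bool, Det (gen M) (Ad M) L (fun g r s =>
      ¬ Ad M s (Ch.f q.1) → ¬ Ad M r (Ch.f q.2.1) → ∀ (g' : A.G) (g'' : Art M),
        g'' ∈ Subgroup.closure (gen M '' {y | ∀ i, M.M y (Ch.f i) = 2}) → g = ι g' * g'' →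
          Psi A q.2.1 q.1 q.2.2.1 q.2.2.2 g' = 0) := by
    rintro ⟨a, b, lv, d⟩
    obtain ⟨κ, i1, i2, Mx, ep, del, h0, hdel, hep, hPsi⟩ :=
      mat_exists (wk Ch.W' Ch.Z') (Ch.φ.f b) (Ch.φ.f a) lv d
    haveI : Finite (FB D.c (wk Ch.W' Ch.Z').x) := FB_finite D.c (wk Ch.W' Ch.Z').x
    have hk : ∀ (r : Fin n) (x : FB D.c (wk Ch.W' Ch.Z').x),
        kap (OmM D (wk Ch.W' Ch.Z').x) (gen M r) x =
          match x.1 (al r) with
          | some q => (wk Ch.W' Ch.Z').x q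
          | none => 1 := by
      intro r x
      unfold kap
      rw [OmM_gen, stepP_apply]
      rcases h : x.1 (al r) with _ | q
      · rw [stepF_none D.gram _ r (x, 1) h]
      · rw [stepF_some D.gram _ r (x, 1) q h, mul_one]
    have hdet := det_coc (OmM_coc D (wk Ch.W' Ch.Z').x) Mx ep del h0 (gen M) (Ad M)
      (fun s => {x | ¬ Ad M s (Ch.f a) ∧ x ∈ Ch.Orb D s})
      (fun s => {x | ¬ Ad M s (Ch.f b) ∧ x ∈ Ch.Orb D s})
      (fun r s x hrs => and_congr_right fun _ => Ch.orb_inv D r s hrs x)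
      (fun r s x hrs => and_congr_right fun _ => Ch.orb_inv D r s hrs x)
      (by
        rintro r s x hrs ⟨h1, h2⟩
        rw [hk r x]
        rcases h : x.1 (al r) with _ | q
        · show (Mx 1 : Matrix κ κ L).mulVec del = del
          rw [map_one, Units.val_one, Matrix.one_mulVec]
        · apply hdel
          intro hq
          exact Ch.orb_label D r s hrs a (fun h3 => h1 (hsymm _ _ h3)) x h2 (by rw [h, hq]))
      (by
        rintro r s x hrs ⟨h1, h2⟩
        rw [hk r x]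
        rcases h : x.1 (al r) with _ | q
        · show Matrix.vecMul ep (Mx 1 : Matrix κ κ L) = ep
          rw [map_one, Units.val_one, Matrix.vecMul_one]
        · apply hep
          intro hq
          exact Ch.orb_label D r s hrs b (fun h3 => h1 (hsymm _ _ h3)) x h2 (by rw [h, hq]))
    refine hdet.mono ?_
    intro g r s h hs hr g' g'' hg'' hg
    obtain ⟨e1, e2⟩ := Ch.base_fix D ι hι g' g'' hg''
    rw [← hg] at e1 e2
    have hb : ∀ s, Ch.base D ∈ Ch.Orb D s := fun s => ⟨1, Submonoid.one_mem _, fun _ => rfl⟩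
    have h1 := h (Ch.base D) ⟨hs, hb s⟩ (by rw [e1]; exact ⟨hr, hb r⟩)
    rw [e2] at h1
    have h2 := hPsi _ h1
    rw [Pool.Agent.VB.Psi_map] at h2
    exact h2
  exact (Det.forall _ key).mono (fun g r s h a b lv d hs hr g' g'' hg'' hg =>
    h (a, b, lv, d) hs hr g' g'' hg'' hg)

end Pool.Agent.FR
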