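import Pool.Agent.Lib.MP_d24c19_al.FR.DefsB
import Pool.Agent.Lib.MP_d24c19_al.Bur

set_option autoImplicit false

/-!
ROW fr-Wb: detection by the Burau module `rB M` of ../Bur.lean. `C = C' = Fin n`, `e a s = if Ad M s a then 0 else om a`, `e' b r = if Ad M r b then 0 else al b`; `om_fix`, `w_fix` (for `r ≠ a`; if `Ad M r s` and `¬ Ad M s a` then `r ≠ a`),
`al b ⬝ om a = 0` (`al_om`), `Psi_eq`: `Psi M g b a = al b ⬝ (rB M g) om a`.
-/

namespace Pool.Agent.FR

open Pool.Agent.VB (ArcSys St Psi cyc path ArcHom)
open Pool.Agent.AR (Art gen)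


theorem frWb_Ad_symm {n : ℕ} (M : CoxeterMatrix (Fin n)) {r s : Fin n} (h : Ad M r s) : Ad M s r := by
  refine ⟨h.1.symm, ?_⟩
  rw [M.isSymm.apply r s]
  exact h.2

theorem det_burau {n : ℕ} (M : CoxeterMatrix (Fin n)) : Det (gen M) (Ad M) L
    (fun g r s => ∀ a b, ¬ Ad M s a → ¬ Ad M r b → Pool.Agent.AR.Psi M g b a = 0) := by
  classical
  refine ⟨Pool.Agent.AR.I0 n, inferInstance, inferInstance, Fin n, inferInstance, Fin n, inferInstance,
    Pool.Agent.AR.rB M, fun a s => if Ad M s a then 0 else Pool.Agent.AR.om a,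
    fun b r => if Ad M r b then 0 else Pool.Agent.AR.al b, ?_, ?_, ?_, ?_⟩
  · intro a r s hrs
    by_cases h : Ad M s a
    · simp only [if_pos h]
      exact Matrix.mulVec_zero _
    · simp only [if_neg h]
      apply Pool.Agent.AR.om_fix
      rintro rfl
      exact h (frWb_Ad_symm M hrs)
  · intro b r s hrs
    by_cases h : Ad M s b
    · simp only [if_pos h]
      exact Matrix.zero_vecMul _
    · simp only [if_neg h]
      apply Pool.Agent.AR.w_fix
      rintro rfl
      exact h (frWb_Ad_symm M hrs)
  · intro a b r s _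
    by_cases h : Ad M r b
    · simp only [if_pos h]
      exact zero_dotProduct _
    · by_cases h' : Ad M s a
      · simp only [if_pos h']
        exact dotProduct_zero _
      · simp only [if_neg h, if_neg h']
        unfold Pool.Agent.AR.al Pool.Agent.AR.om
        rw [dotProduct_single, mul_one, Pi.single_apply, if_neg]
        intro h2
        cases h2
  · intro g r s hz a b ha hb
    have h := hz a b
    simp only [if_neg ha, if_neg hb] at h
    unfold Pool.Agent.AR.al Pool.Agent.AR.om at h
    rw [single_dotProduct, one_mul, Matrix.mulVec_single_one] at h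
    exact h

end Pool.Agent.FR
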