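import Pool.Agent.Lib.MP_d24c19_al.FR.DefsC
import Pool.Agent.Lib.MP_d24c19_al.FR.Vr
import Pool.Agent.Lib.MP_d24c19_al.FR.Wb
import Pool.Agent.Lib.MP_d24c19_al.FR.G

set_option autoImplicit false

/-!
ROW fr-Z1: detection of `ZZ`. `exists_rootData` gives `F`, `D`. The paths `f : Fin (l+1) → Fin n` injective: `l + 1 ≤ n`, so `I = Σ l : Fin n, {f : Fin (l+1) → Fin n // PathIn M f}` is finite; `det_chain` with `path_chain`, `pathHom`;
same for the cycles (`m + 3 ≤ n`); `det_burau`; `Det.forall`, `Det.and`, `Det.mono`. (`Ch.f = f` is an equation in the statement of `path_chain`: `obtain ⟨Ch, rfl⟩` or rewrite.)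
-/

namespace Pool.Agent.FR

open Pool.Agent.VB (ArcSys St Psi cyc path ArcHom)
open Pool.Agent.AR (Art gen)


variable {n : ℕ} (M : CoxeterMatrix (Fin n))

theorem det_ZZ : Det (gen M) (Ad M) L (ZZ M) := by
  obtain ⟨F, i1, i2, ⟨D⟩⟩ := exists_rootData M
  have h2 : ∀ q : (Σ l : Fin n, {f : Fin (l.1 + 1) → Fin n // PathIn M f}),
      Det (gen M) (Ad M) L (ZC (path (q.1.1 + 1)) q.2.1 (pathHom M q.2.1 q.2.2)) := by
    rintro ⟨l, f, hf⟩
    obtain ⟨Ch, hCh⟩ := path_chain M D f hf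
    have h := det_chain D Ch (pathHom M f hf) (fun i => by rw [pathHom_x, hCh])
    rw [hCh] at h
    exact h
  have h3 : ∀ q : (Σ m : Fin n, {f : Fin (m.1 + 3) → Fin n // CycIn M f}),
      Det (gen M) (Ad M) L (ZC (cyc q.1.1) q.2.1 (cycHom M q.2.1 q.2.2)) := by
    rintro ⟨m, f, hf⟩
    obtain ⟨Ch, hCh⟩ := cyc_chain M D f hf
    have h := det_chain D Ch (cycHom M f hf) (fun i => by rw [cycHom_x, hCh])
    rw [hCh] at h
    exact h
  refine ((det_burau M).and ((Det.forall _ h2).and (Det.forall _ h3))).mono ?_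
  rintro g r s ⟨h4, h5, h6⟩
  refine ⟨h4, ?_, ?_⟩
  · intro l f hf
    have h7 := Fintype.card_le_of_injective f hf.1
    rw [Fintype.card_fin, Fintype.card_fin] at h7
    exact h5 ⟨⟨l, h7⟩, f, hf⟩
  · intro m f hf
    have h7 := Fintype.card_le_of_injective f hf.1
    rw [Fintype.card_fin, Fintype.card_fin] at h7
    exact h6 ⟨⟨m, by omega⟩, f, hf⟩

end Pool.Agent.FR
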