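import Pool.Agent.Lib.MP_d24c19_al.FR.DefsC

set_option autoImplicit false

/-!
ROW fr-Z2: commuting union. Model: `CLset_union` in ../CL.lean. `g = gB * gT`, commuting. `Hyp` for `gB`: Burau part as there; chains `f` with range in `B`: if `gB = ι g' * g''` then `g = ι g' * (g'' * gT)` and `gT` is in the closure of the generators
commuting with the chain (`hcom` and symmetry of `M`), so `Hyp` for `g` applies (`range f ⊆ B ∪ T`). For `gT`: `g = gT * gB`, same.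
-/

namespace Pool.Agent.FR

open Pool.Agent.VB (ArcSys St Psi cyc path ArcHom)
open Pool.Agent.AR (Art gen)


variable {n : ℕ} (M : CoxeterMatrix (Fin n))

theorem frZ2_cent {B T : Set (Fin n)} (hcom : ∀ x ∈ B, ∀ y ∈ T, M.M x y = 2) {l : ℕ}
    {f : Fin l → Fin n} (hf : Set.range f ⊆ B) {g'' gT : Art M}
    (hg : g'' ∈ Subgroup.closure (gen M '' {y | ∀ i, M.M y (f i) = 2}))
    (hgT : gT ∈ Subgroup.closure (gen M '' T)) :
    g'' * gT ∈ Subgroup.closure (gen M '' {y | ∀ i, M.M y (f i) = 2}) := by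
  refine mul_mem hg (Pool.Agent.AR.par_mono M ?_ hgT)
  intro y hy i
  have h1 := hcom (f i) (hf ⟨i, rfl⟩) y hy
  have h2 : M.M y (f i) = M.M (f i) y := M.isSymm.apply (f i) y
  rw [h2, h1]

theorem frZ2_hyp {B T T₁ T₂ : Set (Fin n)} (hdis : ∀ x ∈ B, x ∉ T)
    (hcom : ∀ x ∈ B, ∀ y ∈ T, M.M x y = 2) {gB gT : Art M}
    (hgT : gT ∈ Subgroup.closure (gen M '' T)) (h : Hyp M (B ∪ T) T₁ T₂ (gB * gT)) :
    Hyp M B (T₁ ∩ B) (T₂ ∩ B) gB := by
  obtain ⟨h1, h2, h3⟩ := h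
  refine ⟨?_, ?_, ?_⟩
  · rintro b ⟨hb, _⟩ a ⟨ha, ha'⟩
    rw [← h1 b hb a ha]
    exact (Pool.Agent.AR.Psi_mul_right M (hdis a ha') hgT).symm
  · intro l f hp hf a b ha hb lv d g' g'' hg e
    refine h2 l f hp (hf.trans Set.subset_union_left) a b ha.1 hb.1 lv d g' (g'' * gT)
      (frZ2_cent M hcom hf hg hgT) ?_
    rw [e, mul_assoc]
  · intro m f hp hf a b ha hb lv d g' g'' hg e
    refine h3 m f hp (hf.trans Set.subset_union_left) a b ha.1 hb.1 lv d g' (g'' * gT)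
      (frZ2_cent M hcom hf hg hgT) ?_
    rw [e, mul_assoc]

theorem CLs_union {B T : Set (Fin n)} (hdis : ∀ x ∈ B, x ∉ T)
    (hcom : ∀ x ∈ B, ∀ y ∈ T, M.M x y = 2) (hB : CLs M B) (hT : CLs M T) : CLs M (B ∪ T) := by
  have hc : ∀ x ∈ gen M '' B, ∀ y ∈ gen M '' T, Commute x y := by
    rintro _ ⟨x, hx, rfl⟩ _ ⟨y, hy, rfl⟩
    have h2 := hcom x hx y hy
    have h1 := Pool.Agent.AR.gen_rel M x y (by omega)
    rw [h2] at h1
    have h3 : gen M x * gen M y = gen M y * gen M x := by simpa [Pool.Agent.AR.alt] using h1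
    exact h3
  have hcc := Pool.Agent.AR.comm_closure hc
  intro T₁ T₂ h₁ h₂ g hg h
  rw [Set.image_union] at hg
  obtain ⟨gB, hgB, gT, hgT, rfl⟩ := Pool.Agent.AR.prod_closure hc hg
  obtain ⟨u, hu, v, hv, e1⟩ := hB (T₁ ∩ B) (T₂ ∩ B) Set.inter_subset_right Set.inter_subset_right
    gB hgB (frZ2_hyp M hdis hcom hgT h)
  have hdis' : ∀ x ∈ T, x ∉ B := fun x hx hx' => hdis x hx' hx
  have hcom' : ∀ x ∈ T, ∀ y ∈ B, M.M x y = 2 := by
    intro x hx y hy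
    have h2 : M.M x y = M.M y x := M.isSymm.apply y x
    rw [h2, hcom y hy x hx]
  have h' : Hyp M (T ∪ B) T₁ T₂ (gT * gB) := by
    rw [Set.union_comm, ← (hcc gB hgB gT hgT).eq]
    exact h
  obtain ⟨u', hu', v', hv', e2⟩ := hT (T₁ ∩ T) (T₂ ∩ T) Set.inter_subset_right Set.inter_subset_right
    gT hgT (frZ2_hyp M hdis' hcom' hgB h')
  have m1 : ∀ X : Set (Fin n), B \ (X ∩ B) ⊆ (B ∪ T) \ X := by
    rintro X x ⟨h3, h4⟩
    exact ⟨Or.inl h3, fun h5 => h4 ⟨h5, h3⟩⟩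
  have m2 : ∀ X : Set (Fin n), T \ (X ∩ T) ⊆ (B ∪ T) \ X := by
    rintro X x ⟨h3, h4⟩
    exact ⟨Or.inr h3, fun h5 => h4 ⟨h5, h3⟩⟩
  refine ⟨u * u', mul_mem (Pool.Agent.AR.par_mono M (m1 T₂) hu) (Pool.Agent.AR.par_mono M (m2 T₂) hu'),
    v * v', mul_mem (Pool.Agent.AR.par_mono M (m1 T₁) hv) (Pool.Agent.AR.par_mono M (m2 T₁) hv'), ?_⟩
  have h3 := (hcc v (Pool.Agent.AR.par_mono M Set.sdiff_subset hv) u'
    (Pool.Agent.AR.par_mono M Set.sdiff_subset hu')).eq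
  rw [e1, e2]
  calc u * v * (u' * v') = u * (v * u') * v' := by group
    _ = _ := by rw [h3]; group

end Pool.Agent.FR
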