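import Pool.Agent.Lib.MP_d24c19_al.FR.DefsB
import Pool.Agent.Lib.MP_7c21d5_al.VB09_Cliques

set_option autoImplicit false

/-!
ROW fr-Y1: (CL) for paths from `CT` by the embedding `pathH l : ArcHom (path (l+1)) (cyc l)`: the proof of `CL_path` in VB09_Cliques (with `φ` the identity), copy it and its private helper lemmas (Q2_...).
-/

namespace Pool.Agent.FR

open Pool.Agent.VB (ArcSys St Psi cyc path ArcHom)
open Pool.Agent.AR (Art gen)


open Pool.Agent.VB (pathH CT Psi_map Psi_left Psi_right Psi_one pathH_injective)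

section Y1aux
variable {S' W' S W : Type} {A' : ArcSys S' W'} {A : ArcSys S W}

private theorem frY1_par_mono (A : ArcSys S W) {X Y : Set S} (h : X ⊆ Y) {g : A.G}
    (hg : g ∈ A.par X) : g ∈ A.par Y :=
  Subgroup.closure_mono (Set.image_mono h) hg

private theorem frY1_par_image (φ : ArcHom A' A) (X : Set S') :
    (A'.par X).map φ.map = A.par (φ.f '' X) := by
  unfold ArcSys.par
  have h : (φ.map ∘ A'.x : S' → A.G) = A.x ∘ φ.f := funext (fun s => φ.map_x s)
  rw [MonoidHom.map_closure, ← Set.image_comp, ← Set.image_comp, h]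

private theorem frY1_map_par (φ : ArcHom A' A) (X : Set S') {u : A'.G} (hu : u ∈ A'.par X) :
    φ.map u ∈ A.par (φ.f '' X) := by
  rw [← frY1_par_image]
  exact Subgroup.mem_map_of_mem _ hu

private theorem frY1_par_univ (A : ArcSys S W) (g : A.G) : g ∈ A.par Set.univ := by
  have h : A.par Set.univ = ⊤ := by
    unfold ArcSys.par
    rw [Set.image_univ]
    exact PresentedGroup.closure_range_of _
  rw [h]; trivial

private theorem frY1_map_range (φ : ArcHom A' A) (g : A'.G) :
    φ.map g ∈ A.par (Set.range φ.f) := by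
  rw [← Set.image_univ]
  exact frY1_map_par φ Set.univ (frY1_par_univ A' g)

end Y1aux

theorem CT_path {l : ℕ} (T1 T2 : Set (Fin (l + 1))) (g : (path (l + 1)).G)
    (h : ∀ b ∈ T2, ∀ a ∈ T1, ∀ lv d, Psi (path (l + 1)) b a lv d g = 0) :
    ∃ u ∈ (path (l + 1)).par T2ᶜ, ∃ v ∈ (path (l + 1)).par T1ᶜ, g = u * v := by
  have key : ∀ T : Set (Fin (l + 1)),
      ((pathH l).f '' T ∪ (Set.range (pathH l).f)ᶜ)ᶜ ⊆ (pathH l).f '' Tᶜ := by
    intro T x hx
    rw [Set.mem_compl_iff, Set.mem_union, not_or] at hx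
    obtain ⟨h1, h2⟩ := hx
    rw [Set.mem_compl_iff, not_not] at h2
    obtain ⟨s, rfl⟩ := h2
    exact ⟨s, fun hs => h1 ⟨s, hs, rfl⟩, rfl⟩
  obtain ⟨u, hu, v, hv, e⟩ := CT l ((pathH l).f '' T1 ∪ (Set.range (pathH l).f)ᶜ)
    ((pathH l).f '' T2 ∪ (Set.range (pathH l).f)ᶜ) ((pathH l).map g) (by
    intro b hb a ha lv d
    rcases ha with ⟨a', ha', rfl⟩ | ha
    · rcases hb with ⟨b', hb', rfl⟩ | hb
      · rw [Psi_map (pathH l)]
        exact h _ hb' _ ha' lv d
      · have hm : (pathH l).map g ∈ (cyc l).par {b}ᶜ := by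
          refine frY1_par_mono _ ?_ (frY1_map_range (pathH l) g)
          intro x hx hxb
          rw [Set.mem_singleton_iff] at hxb
          rw [hxb] at hx
          exact hb hx
        have := Psi_left (cyc l) b ((pathH l).f a') lv d ((pathH l).map g) 1 hm
        rw [mul_one, Psi_one] at this
        exact this
    · have hm : (pathH l).map g ∈ (cyc l).par {a}ᶜ := by
        refine frY1_par_mono _ ?_ (frY1_map_range (pathH l) g)
        intro x hx hxa
        rw [Set.mem_singleton_iff] at hxa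
        rw [hxa] at hx
        exact ha hx
      have := Psi_right (cyc l) b a lv d 1 ((pathH l).map g) hm
      rw [one_mul, Psi_one] at this
      exact this)
  have hu' := frY1_par_mono _ (key T2) hu
  have hv' := frY1_par_mono _ (key T1) hv
  rw [← frY1_par_image] at hu' hv'
  obtain ⟨u', hu1, rfl⟩ := hu'
  obtain ⟨v', hv1, rfl⟩ := hv'
  refine ⟨u', hu1, v', hv1, pathH_injective l ?_⟩
  rw [map_mul]
  exact e

end Pool.Agent.FR
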