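import Pool.Agent.Lib.MP_d24c19_al.FR.DefsC
import Pool.Agent.Lib.MP_d24c19_al.FR.Y1

set_option autoImplicit false

/-!
ROW fr-Z3: a path and a cycle as blocks: `g` in the closure of `gen M '' range f` is `ι g'` (`ι` = pathHom; `Subgroup.closure` of the image = range of `ι`: closure_induction), `CT_path` with `T1' = f ⁻¹' T₁`, `T2' = f ⁻¹' T₂` and `Hyp` with `g'' = 1`;
`g' = u v`, `ι u ∈ closure (gen '' (range f \ T₂))`: the image of `par T2'ᶜ`. Same for cycles with `Pool.Agent.VB.CT`.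
-/

namespace Pool.Agent.FR

open Pool.Agent.VB (ArcSys St Psi cyc path ArcHom)
open Pool.Agent.AR (Art gen)


variable {n : ℕ} (M : CoxeterMatrix (Fin n))

private theorem frZ3_map {S' W' : Type} (A : ArcSys S' W') (f : S' → Fin n) (ι : A.G →* Art M)
    (hι : ∀ i, ι (A.x i) = gen M (f i)) (X : Set S') :
    (A.par X).map ι = Subgroup.closure (gen M '' (f '' X)) := by
  unfold ArcSys.par
  have h : (ι ∘ A.x : S' → Art M) = gen M ∘ f := funext hι
  rw [MonoidHom.map_closure, ← Set.image_comp, ← Set.image_comp, h]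

private theorem frZ3_main {S' W' : Type} (A : ArcSys S' W') (f : S' → Fin n) (ι : A.G →* Art M)
    (hι : ∀ i, ι (A.x i) = gen M (f i)) (T₁ T₂ : Set (Fin n)) (g : Art M)
    (hg : g ∈ Subgroup.closure (gen M '' Set.range f))
    (hC : ∀ g' : A.G, g = ι g' → ∃ u ∈ A.par (f ⁻¹' T₂)ᶜ, ∃ v ∈ A.par (f ⁻¹' T₁)ᶜ, g' = u * v) :
    ∃ u ∈ Subgroup.closure (gen M '' (Set.range f \ T₂)),
      ∃ v ∈ Subgroup.closure (gen M '' (Set.range f \ T₁)), g = u * v := by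
  rw [← Set.image_univ, ← frZ3_map M A f ι hι] at hg
  obtain ⟨g', _, rfl⟩ := hg
  obtain ⟨u, hu, v, hv, e⟩ := hC g' rfl
  have hsub : ∀ T : Set (Fin n), f '' (f ⁻¹' T)ᶜ ⊆ Set.range f \ T := by
    rintro T _ ⟨s, hs, rfl⟩
    exact ⟨⟨s, rfl⟩, hs⟩
  have key : ∀ (T : Set (Fin n)) (w : A.G), w ∈ A.par (f ⁻¹' T)ᶜ →
      ι w ∈ Subgroup.closure (gen M '' (Set.range f \ T)) := by
    intro T w hw
    have h1 : ι w ∈ (A.par (f ⁻¹' T)ᶜ).map ι := Subgroup.mem_map_of_mem _ hw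
    rw [frZ3_map M A f ι hι] at h1
    exact Subgroup.closure_mono (Set.image_mono (hsub T)) h1
  exact ⟨ι u, key T₂ u hu, ι v, key T₁ v hv, by rw [← map_mul, e]⟩

theorem CLs_path {l : ℕ} (f : Fin (l + 1) → Fin n) (h : PathIn M f) : CLs M (Set.range f) := by
  intro T₁ T₂ _ _ g hg hyp
  refine frZ3_main M (path (l + 1)) f (pathHom M f h) (pathHom_x M f h) T₁ T₂ g hg ?_
  intro g' hg'
  refine CT_path (f ⁻¹' T₁) (f ⁻¹' T₂) g' ?_
  intro b hb a ha lv d
  exact hyp.2.1 l f h (le_refl _) a b ha hb lv d g' 1 (one_mem _) (by rw [mul_one]; exact hg')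

theorem CLs_cyc {m : ℕ} (f : Fin (m + 3) → Fin n) (h : CycIn M f) : CLs M (Set.range f) := by
  intro T₁ T₂ _ _ g hg hyp
  refine frZ3_main M (cyc m) f (cycHom M f h) (cycHom_x M f h) T₁ T₂ g hg ?_
  intro g' hg'
  refine Pool.Agent.VB.CT m (f ⁻¹' T₁) (f ⁻¹' T₂) g' ?_
  intro b hb a ha lv d
  exact hyp.2.2 m f h (le_refl _) a b ha hb lv d g' 1 (one_mem _) (by rw [mul_one]; exact hg')

end Pool.Agent.FR
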