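import Pool.Agent.Lib.MP_d24c19_al.FR.DefsB

set_option autoImplicit false

/-!
ROW fr-Z5: a non empty clique contains a block commuting with the rest. All labels inside `T` are `≥ 2` (`M.off_diagonal`, finite). (1) If `s, t ∈ T` have label `≥ 4`: `B = {s,t}`: for `y ∈ T`, `y ≠ s,t`: `M y s ≥ 3` would give
`M t y = 0` or `M y t = 0` by (i) (`4 ≤ M t s`, `3 ≤ M s y`), excluded; so label 2; same for `t`. (2) Otherwise all labels in `T` are 2 or 3, and no vertex of `T` has three neighbours with label 3 in `T` (ii). Take `k` maximal such that there is an injective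
`f : Fin (k+1) → Fin n` with values in `T` and consecutive labels 3 (`k = 0` exists, `k < n`; `Nat.findGreatest`). Every inner vertex has its two neighbours `f (i-1), f (i+1)`, so no other neighbour: `M (f i) (f j) = 2` for `|i-j| ≥ 2` except possibly `{i,j} = {0,k}`.
A neighbour `y ∈ T` of `f k` not in the range would give a longer path (`Fin.snoc`); same for `f 0` (`Fin.cons`). If `k ≥ 2` and `M (f 0) (f k) = 3`: cycle with `m = k - 2`, `f k`, `f 0` have their two neighbours, everything else in `T` commutes with the range.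
Otherwise: path. (Compare row Q3 `exists_chain` in VB09_Cliques.)
-/

namespace Pool.Agent.FR

open Pool.Agent.VB (ArcSys St Psi cyc path ArcHom)
open Pool.Agent.AR (Art gen)

/-- long injective walks with labels 3 in `T` -/
private def frZ5_P {n : ℕ} (M : CoxeterMatrix (Fin n)) (T : Finset (Fin n)) (k : ℕ) : Prop :=
  ∃ g : ℕ → Fin n, (∀ i j, i ≤ k → j ≤ k → g i = g j → i = j) ∧ (∀ i, i ≤ k → g i ∈ T) ∧
    ∀ i, i < k → M.M (g i) (g (i + 1)) = 3

private theorem frZ5_max {n : ℕ} (M : CoxeterMatrix (Fin n)) (T : Finset (Fin n))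
    (hT : T.Nonempty) : ∃ k, frZ5_P M T k ∧ ¬ frZ5_P M T (k + 1) := by
  by_contra hcon
  push Not at hcon
  have h0 : frZ5_P M T 0 := by
    obtain ⟨a, ha⟩ := hT
    refine ⟨fun _ => a, fun i j hi hj _ => by omega, fun i _ => ha, fun i hi => by omega⟩
  have h1 : ∀ k, frZ5_P M T k := by
    intro k
    induction k with
    | zero => exact h0
    | succ k ih => exact hcon k ih
  obtain ⟨g, hg, -, -⟩ := h1 n
  have h2 : Function.Injective (fun i : Fin (n + 1) => g i.1) := by
    intro i j hij
    exact Fin.ext (hg i.1 j.1 (by omega) (by omega) hij)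
  have h3 := Fintype.card_le_of_injective _ h2
  simp at h3

/-- the case where all labels are 2 or 3 -/
private theorem frZ5_small {n : ℕ} (M : CoxeterMatrix (Fin n)) (hM : Star2 M) (T : Finset (Fin n))
    (hT : T.Nonempty) (hsym : ∀ a b, M.M a b = M.M b a) (hne0 : ∀ a ∈ T, ∀ b ∈ T, M.M a b ≠ 0)
    (h23 : ∀ a ∈ T, ∀ b ∈ T, a ≠ b → M.M a b ≠ 3 → M.M a b = 2) :
    ∃ B : Finset (Fin n), B ⊆ T ∧ B.Nonempty ∧ (∀ x ∈ B, ∀ y ∈ T, y ∉ B → M.M x y = 2) ∧
      ((∃ (l : ℕ) (f : Fin (l + 1) → Fin n), PathIn M f ∧ (B : Set (Fin n)) = Set.range f) ∨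
        ∃ (m : ℕ) (f : Fin (m + 3) → Fin n), CycIn M f ∧ (B : Set (Fin n)) = Set.range f) := by
  classical
  have hdeg : ∀ r ∈ T, ∀ s ∈ T, ∀ t ∈ T, ∀ u ∈ T, s ≠ t → t ≠ u → s ≠ u → M.M r s = 3 →
      M.M r t = 3 → M.M r u = 3 → False := by
    intro r _ s hs t ht u hu h1 h2 h3 h4 h5 h6
    rcases hM.2 r s t u h1 h2 h3 h4 h5 h6 with h | h | h
    · exact hne0 s hs t ht h
    · exact hne0 t ht u hu h
    · exact hne0 s hs u hu h
  obtain ⟨k, ⟨g, hinj, hmem, hcons⟩, hmax⟩ := frZ5_max M T hT
  -- inner vertices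
  have hin : ∀ i, 0 < i → i < k → ∀ y ∈ T, y ≠ g (i - 1) → y ≠ g (i + 1) → M.M (g i) y ≠ 3 := by
    intro i hi hik y hy h1 h2 h3
    refine hdeg (g i) (hmem i hik.le) (g (i - 1)) (hmem _ (by omega)) (g (i + 1))
      (hmem _ (by omega)) y hy ?_ (Ne.symm h2) (Ne.symm h1) ?_ (hcons i hik) h3
    · intro h
      have := hinj _ _ (by omega) (by omega) h
      omega
    · rw [hsym]
      have := hcons (i - 1) (by omega)
      rwa [Nat.sub_add_cancel (by omega : 1 ≤ i)] at this
  -- the last vertex
  have hlast : ∀ y ∈ T, (∀ i, i ≤ k → g i ≠ y) → M.M (g k) y ≠ 3 := by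
    intro y hy hyr h3
    apply hmax
    refine ⟨fun i => if i = k + 1 then y else g i, ?_, ?_, ?_⟩
    · intro i j hi hj hij
      simp only at hij
      split_ifs at hij with h1 h2 h2
      · omega
      · exact absurd hij.symm (hyr j (by omega))
      · exact absurd hij (hyr i (by omega))
      · exact hinj i j (by omega) (by omega) hij
    · intro i hi
      simp only
      split_ifs with h1
      · exact hy
      · exact hmem i (by omega)
    · intro i hi
      simp only
      by_cases h1 : i = k
      · subst h1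
        rw [if_neg (by omega), if_pos rfl]
        exact h3
      · rw [if_neg (by omega), if_neg (by omega)]
        exact hcons i (by omega)
  -- the first vertex
  have hfirst : ∀ y ∈ T, (∀ i, i ≤ k → g i ≠ y) → M.M (g 0) y ≠ 3 := by
    intro y hy hyr h3
    apply hmax
    refine ⟨fun i => if i = 0 then y else g (i - 1), ?_, ?_, ?_⟩
    · intro i j hi hj hij
      simp only at hij
      split_ifs at hij with h1 h2 h2
      · omega
      · exact absurd hij.symm (hyr (j - 1) (by omega))
      · exact absurd hij (hyr (i - 1) (by omega))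
      · have := hinj (i - 1) (j - 1) (by omega) (by omega) hij
        omega
    · intro i hi
      simp only
      split_ifs with h1
      · exact hy
      · exact hmem (i - 1) (by omega)
    · intro i hi
      simp only
      by_cases h1 : i = 0
      · subst h1
        rw [if_pos rfl, if_neg (by omega)]
        rw [hsym]
        exact h3
      · rw [if_neg h1, if_neg (by omega)]
        have := hcons (i - 1) (by omega)
        rw [Nat.sub_add_cancel (by omega : 1 ≤ i)] at this
        simpa using this
  -- far vertices inside the walk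
  have hfar : ∀ i j, i + 2 ≤ j → j ≤ k → ¬ (i = 0 ∧ j = k) → M.M (g i) (g j) = 2 := by
    intro i j hij hjk hne
    have hneq : g i ≠ g j := by
      intro h
      have := hinj i j (by omega) hjk h
      omega
    refine h23 _ (hmem i (by omega)) _ (hmem j hjk) hneq ?_
    by_cases hi : i = 0
    · rw [hsym]
      refine hin j (by omega) (by omega) (g i) (hmem i (by omega)) ?_ ?_
      · intro h
        have := hinj _ _ (by omega) (by omega) h
        omega
      · intro h
        have := hinj _ _ (by omega) (by omega) h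
        omega
    · refine hin i (by omega) (by omega) (g j) (hmem j (by omega)) ?_ ?_
      · intro h
        have := hinj _ _ (by omega) (by omega) h
        omega
      · intro h
        have := hinj _ _ (by omega) (by omega) h
        omega
  -- outside
  have hout : ∀ i, i ≤ k → ∀ y ∈ T, (∀ j, j ≤ k → g j ≠ y) → M.M (g i) y = 2 := by
    intro i hi y hy hyr
    refine h23 _ (hmem i hi) _ hy (hyr i hi) ?_
    by_cases h0 : i = 0
    · rw [h0]
      exact hfirst y hy hyr
    · by_cases hk : i = k
      · rw [hk]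
        exact hlast y hy hyr
      · exact hin i (by omega) (by omega) y hy (Ne.symm (hyr _ (by omega)))
          (Ne.symm (hyr _ (by omega)))
  refine ⟨(Finset.range (k + 1)).image g, ?_, ?_, ?_, ?_⟩
  · intro x hx
    obtain ⟨i, hi, rfl⟩ := Finset.mem_image.1 hx
    exact hmem i (by have := Finset.mem_range.1 hi; omega)
  · exact ⟨g 0, Finset.mem_image.2 ⟨0, Finset.mem_range.2 (by omega), rfl⟩⟩
  · intro x hx y hy hyB
    obtain ⟨i, hi, rfl⟩ := Finset.mem_image.1 hx
    refine hout i (by have := Finset.mem_range.1 hi; omega) y hy ?_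
    intro j hj h
    exact hyB (Finset.mem_image.2 ⟨j, Finset.mem_range.2 (by omega), h⟩)
  · by_cases hcyc : 2 ≤ k ∧ M.M (g 0) (g k) = 3
    · right
      obtain ⟨hk2, h3⟩ := hcyc
      obtain ⟨m, rfl⟩ : ∃ m, k = m + 2 := ⟨k - 2, by omega⟩
      have hstep : ∀ i : Fin (m + 3), i.1 < m + 2 → (i + 1).1 = i.1 + 1 := by
        intro i hi
        rw [Fin.val_add_one_of_lt]
        rw [Fin.lt_def]
        simpa using hi
      have hstep2 : ∀ i : Fin (m + 3), i.1 = m + 2 → (i + 1).1 = 0 := by
        intro i hi
        have : i = Fin.last (m + 2) := Fin.ext (by simpa using hi)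
        rw [this]
        simp
      refine ⟨m, fun i => g i.1, ⟨?_, ?_, ?_⟩, ?_⟩
      · intro i j hij
        exact Fin.ext (hinj i.1 j.1 (by omega) (by omega) hij)
      · intro i
        show M.M (g i.1) (g (i + 1).1) = 3
        by_cases hi : i.1 < m + 2
        · rw [hstep i hi]
          exact hcons i.1 hi
        · have hi2 : i.1 = m + 2 := by omega
          rw [hstep2 i hi2, hi2, hsym]
          exact h3
      · have key : ∀ i j : Fin (m + 3), i.1 < j.1 → i + 1 ≠ j → j + 1 ≠ i →
            M.M (g i.1) (g j.1) = 2 := by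
          intro i j hij h1 h2
          apply hfar i.1 j.1
          · by_contra hcon
            apply h1
            apply Fin.ext
            rw [hstep i (by omega)]
            omega
          · omega
          · rintro ⟨h4, h5⟩
            apply h2
            apply Fin.ext
            rw [hstep2 j h5, h4]
        intro i j hij h1 h2
        show M.M (g i.1) (g j.1) = 2
        rcases lt_trichotomy i.1 j.1 with h | h | h
        · exact key i j h h1 h2
        · exact absurd (Fin.ext h) hij
        · rw [hsym]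
          exact key j i h h2 h1
      · ext x
        constructor
        · intro hx
          obtain ⟨i, hi, rfl⟩ := Finset.mem_image.1 (Finset.mem_coe.1 hx)
          exact ⟨⟨i, by have := Finset.mem_range.1 hi; omega⟩, rfl⟩
        · rintro ⟨i, rfl⟩
          exact Finset.mem_coe.2 (Finset.mem_image.2 ⟨i.1, Finset.mem_range.2 (by omega), rfl⟩)
    · left
      refine ⟨k, fun i => g i.1, ⟨?_, ?_, ?_⟩, ?_⟩
      · intro i j hij
        exact Fin.ext (hinj i.1 j.1 (by omega) (by omega) hij)
      · intro i j hij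
        show M.M (g i.1) (g j.1) = 3
        rw [← hij]
        exact hcons i.1 (by omega)
      · intro i j hij
        show M.M (g i.1) (g j.1) = 2
        by_cases he : i.1 = 0 ∧ j.1 = k
        · have h3 : M.M (g 0) (g k) ≠ 3 := fun h => hcyc ⟨by omega, h⟩
          rw [he.1, he.2]
          refine h23 _ (hmem 0 (by omega)) _ (hmem k le_rfl) ?_ h3
          intro h
          have := hinj _ _ (by omega) (by omega) h
          omega
        · exact hfar i.1 j.1 hij (by omega) he
      · ext x
        constructor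
        · intro hx
          obtain ⟨i, hi, rfl⟩ := Finset.mem_image.1 (Finset.mem_coe.1 hx)
          exact ⟨⟨i, by have := Finset.mem_range.1 hi; omega⟩, rfl⟩
        · rintro ⟨i, rfl⟩
          exact Finset.mem_coe.2 (Finset.mem_image.2 ⟨i.1, Finset.mem_range.2 (by omega), rfl⟩)

theorem exists_block {n : ℕ} (M : CoxeterMatrix (Fin n)) (hM : Star2 M) (T : Finset (Fin n))
    (hT : T.Nonempty) (hc : ∀ a ∈ T, ∀ b ∈ T, a ≠ b → Ad M a b) :
    ∃ B : Finset (Fin n), B ⊆ T ∧ B.Nonempty ∧ (∀ x ∈ B, ∀ y ∈ T, y ∉ B → M.M x y = 2) ∧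
      ((∃ s t, s ≠ t ∧ 3 ≤ M.M s t ∧ (B : Set (Fin n)) = {s, t}) ∨
        (∃ (l : ℕ) (f : Fin (l + 1) → Fin n), PathIn M f ∧ (B : Set (Fin n)) = Set.range f) ∨
        ∃ (m : ℕ) (f : Fin (m + 3) → Fin n), CycIn M f ∧ (B : Set (Fin n)) = Set.range f) := by
  classical
  have hsym : ∀ a b, M.M a b = M.M b a := fun a b => M.symmetric a b
  have h1 : ∀ a b, a ≠ b → M.M a b ≠ 1 := fun a b h => M.off_diagonal a b h
  have hne0 : ∀ a ∈ T, ∀ b ∈ T, M.M a b ≠ 0 := by
    intro a ha b hb
    by_cases h : a = b
    · rw [h]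
      have : M.M b b = 1 := M.diagonal b
      rw [this]
      exact one_ne_zero
    · exact (hc a ha b hb h).2
  by_cases hbig : ∃ s ∈ T, ∃ t ∈ T, s ≠ t ∧ 4 ≤ M.M s t
  · obtain ⟨s, hs, t, ht, hst, h4⟩ := hbig
    refine ⟨{s, t}, ?_, ⟨s, by simp⟩, ?_, Or.inl ⟨s, t, hst, by omega, by simp⟩⟩
    · intro x hx
      rcases Finset.mem_insert.1 hx with h | h
      · rw [h]; exact hs
      · rw [Finset.mem_singleton.1 h]; exact ht
    · have key : ∀ a ∈ T, ∀ b ∈ T, a ≠ b → 4 ≤ M.M a b → ∀ y ∈ T, y ≠ a → y ≠ b →
          M.M b y = 2 := by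
        intro a ha b hb hab h y hy hya hyb
        have e0 := hne0 b hb y hy
        have e1 := h1 b y (Ne.symm hyb)
        by_contra h2
        exact hne0 a ha y hy (hM.1 a b y hab (Ne.symm hyb) (Ne.symm hya) h (by omega))
      intro x hx y hy hyB
      have hys : y ≠ s := fun h => hyB (by simp [h])
      have hyt : y ≠ t := fun h => hyB (by simp [h])
      rcases Finset.mem_insert.1 hx with h | h
      · rw [h]
        exact key t ht s hs (Ne.symm hst) (by rw [hsym]; exact h4) y hy hyt hys
      · rw [Finset.mem_singleton.1 h]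
        exact key s hs t ht hst h4 y hy hys hyt
  · have h23 : ∀ a ∈ T, ∀ b ∈ T, a ≠ b → M.M a b ≠ 3 → M.M a b = 2 := by
      intro a ha b hb hab h3
      have e0 := hne0 a ha b hb
      have e1 := h1 a b hab
      have e4 : ¬ 4 ≤ M.M a b := fun h => hbig ⟨a, ha, b, hb, hab, h⟩
      omega
    obtain ⟨B, hB1, hB2, hB3, hB4⟩ := frZ5_small M hM T hT hsym hne0 h23
    exact ⟨B, hB1, hB2, hB3, Or.inr hB4⟩

end Pool.Agent.FR
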