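import Pool.Agent.Lib.MP_d24c19_al.FR.H
import Pool.Agent.Lib.MP_d24c19_al.FR.Z1
import Pool.Agent.Lib.MP_d24c19_al.FR.Z2
import Pool.Agent.Lib.MP_d24c19_al.FR.Z3
import Pool.Agent.Lib.MP_d24c19_al.FR.Z5
import Pool.Agent.Lib.MP_d24c19_al.Final

set_option autoImplicit false

/-!
The second theorem on the Hopf property of Artin groups.
-/

namespace Pool.Agent.FR

open Pool.Agent.VB (ArcSys St Psi cyc path ArcHom)
open Pool.Agent.AR (Art gen)


variable {n : ℕ} (M : CoxeterMatrix (Fin n))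

theorem CLs_pair {s t : Fin n} (hst : s ≠ t) (hm : 3 ≤ M.M s t) : CLs M {s, t} :=
  fun T₁ T₂ h₁ h₂ g hg h => Pool.Agent.AR.CLset_pair M hst hm T₁ T₂ h₁ h₂ g hg h.1

theorem CLs_all (hM : Star2 M) (T : Finset (Fin n))
    (hc : ∀ a ∈ T, ∀ b ∈ T, a ≠ b → Ad M a b) : CLs M (T : Set (Fin n)) := by
  induction T using Finset.strongInduction with
  | H T ih =>
    rcases T.eq_empty_or_nonempty with h0 | h0
    · subst h0
      intro T₁ T₂ _ _ g hg _
      refine ⟨1, one_mem _, 1, one_mem _, ?_⟩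
      rw [Finset.coe_empty, Set.image_empty, Subgroup.closure_empty, Subgroup.mem_bot] at hg
      rw [hg, one_mul]
    · obtain ⟨B, hBT, hB0, hBc, hB⟩ := exists_block M hM T h0 hc
      have hB' : CLs M (B : Set (Fin n)) := by
        rcases hB with ⟨s, t, hst, hm, e⟩ | ⟨l, f, hf, e⟩ | ⟨m, f, hf, e⟩
        · rw [e]; exact CLs_pair M hst hm
        · rw [e]; exact CLs_path M f hf
        · rw [e]; exact CLs_cyc M f hf
      have h1 := ih (T \ B) (Finset.sdiff_ssubset hBT hB0) (fun a ha b hb hab =>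
        hc a (Finset.mem_sdiff.1 ha).1 b (Finset.mem_sdiff.1 hb).1 hab)
      have e : (T : Set (Fin n)) = (B : Set (Fin n)) ∪ ((T \ B : Finset (Fin n)) : Set (Fin n)) := by
        rw [← Finset.coe_union, Finset.union_sdiff_of_subset hBT]
      rw [e]
      apply CLs_union M _ _ hB' h1
      · intro x hx hx'
        exact (Finset.mem_sdiff.1 (Finset.mem_coe.1 hx')).2 hx
      · intro x hx y hy
        rw [Finset.mem_coe, Finset.mem_sdiff] at hy
        exact hBc x hx y hy.1 hy.2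

theorem exists_Tw (hM : Star2 M) :
    ∃ (ι : Type) (_ : Fintype ι) (_ : DecidableEq ι) (C : Type) (_ : Finite C)
      (D : Pool.Agent.AR.TwData (Art M) (Fin n) ι (MvPolynomial C L)),
      D.gen = gen M ∧ D.Adj = Ad M := by
  classical
  apply Det.toTw (Z := ZZ M) _ _ (Pool.Agent.AR.art_top M) (det_ZZ M)
  · intro T hT g hg r s hrs h
    have h1 := CLs_all M hM T.toFinset (by
      intro a ha b hb
      rw [Set.mem_toFinset] at ha hb
      exact hT a ha b hb)
    rw [Set.coe_toFinset] at h1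
    obtain ⟨u, hu, v, hv, e⟩ := h1 {x | x ∈ T ∧ ¬ Ad M s x} {x | x ∈ T ∧ ¬ Ad M r x}
      (fun x hx => hx.1) (fun x hx => hx.1) g hg ⟨fun b hb a ha => h.1 a b ha.2 hb.2,
        fun l f hf _ a b ha hb lv d g' g'' hg'' e => h.2.1 l f hf a b lv d ha.2 hb.2 g' g'' hg'' e,
        fun m f hf _ a b ha hb lv d g' g'' hg'' e => h.2.2 m f hf a b lv d ha.2 hb.2 g' g'' hg'' e⟩
    refine ⟨u, Subgroup.closure_mono (Set.image_mono ?_) hu, v,
      Subgroup.closure_mono (Set.image_mono ?_) hv, e⟩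
    · rintro x ⟨h8, h9⟩
      refine ⟨h8, ?_⟩
      by_contra h10
      exact h9 ⟨h8, h10⟩
    · rintro x ⟨h8, h9⟩
      refine ⟨h8, ?_⟩
      by_contra h10
      exact h9 ⟨h8, h10⟩
  · intro T hT g hg h
    have h1 := CLs_all M hM T.toFinset (by
      intro a ha b hb
      rw [Set.mem_toFinset] at ha hb
      exact hT a ha b hb)
    rw [Set.coe_toFinset] at h1
    have hirr : ∀ x, ¬ Ad M x x := fun x hx => hx.1 rfl
    obtain ⟨u, hu, v, hv, e⟩ := h1 T T (le_refl _) (le_refl _) g hg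
      ⟨fun b hb a ha => (h b hb a ha).1 a b (hirr a) (hirr b),
        fun l f hf _ a b ha hb lv d g' g'' hg'' e =>
          (h (f b) hb (f a) ha).2.1 l f hf a b lv d (hirr _) (hirr _) g' g'' hg'' e,
        fun m f hf _ a b ha hb lv d g' g'' hg'' e =>
          (h (f b) hb (f a) ha).2.2 m f hf a b lv d (hirr _) (hirr _) g' g'' hg'' e⟩
    rw [Set.sdiff_self, Set.image_empty, Subgroup.closure_empty, Subgroup.mem_bot] at hu hv
    rw [e, hu, hv, one_mul]
  · intro r s h
    have : M.M s r = M.M r s := M.isSymm.apply r s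
    exact ⟨h.1.symm, by rw [this]; exact h.2⟩
  · exact fun s h => h.1 rfl

/-- the theorem -/
theorem main (hM : Star2 M) :
    (∃ (N : ℕ) (φ : Art M →* Matrix.GeneralLinearGroup (Fin N) ℂ), Function.Injective φ) ∧
    (∀ g : Art M, g ≠ 1 → ∃ K : Subgroup (Art M), K.Normal ∧ K.FiniteIndex ∧ g ∉ K) ∧
    (∀ f : Art M →* Art M, Function.Surjective f → Function.Injective f) ∧
    (∀ H : Subgroup (Art M), H.FG → ∀ f : H →* H, Function.Surjective f → Function.Injective f) := by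
  obtain ⟨ι, i1, i2, C, i3, D, hg, hA⟩ := exists_Tw M hM
  have hL : Pool.Agent.AR.PairLift (Art M) D.gen D.Adj := by
    rw [hg, hA]
    exact Pool.Agent.AR.art_lift M (Ad M) (fun _ _ h1 h2 => ⟨h1, h2⟩)
  obtain ⟨ρ, hρ⟩ := D.exists_inj hL
  exact Pool.Agent.AR.main_abs (Pool.Agent.AR.card_mv _ _ (Pool.Agent.AR.card_mv _ _
    Pool.Agent.AR.card_frac)) (Pool.Agent.AR.art_fg M) ρ hρ

end Pool.Agent.FR
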