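import Pool.Agent.Lib.MP_d24c19_al.FR.Defs

set_option autoImplicit false

/-!
ROW fr-H: the data of the twisting theorem (`TwData`, file TwDef) from a detected property which separates. Model: `BurData.toTw` in ../Data.lean (copy what you need).
Index set `ι ⊕ Fin n`, parameters `C ⊕ C'` (finite), `R₀ = MvPolynomial (C ⊕ C') L`, `ρ₀ g = fromBlocks ((ρ g).map C) 0 0 1`,
`e_s = (∑_c X_(inl c) C(e c s), 1_s)`, `e'_r = (∑_c' X_(inr c') C(e' c' r), ∑_{s ≠ r, ¬ Adj r s} 1*_s)`. Then
`e'_r ρ₀(g) e_s = ∑_{c,c'} X_c X_c' C(e' c' r ⬝ ρ g e c s) + [s ≠ r ∧ ¬ Adj r s]`. If it vanishes: evaluate at 0: `Adj r s ∨ r = s`; evaluate at `X_c = X_c' = 1`, other variables 0: each coefficient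
vanishes, so `Z g r s`, and `hZ3`. H4: `ρ₀ g = 1` gives `ρ g = 1` (C injective), so for `r, s ∈ T` (equal or adjacent) all coefficients `e' c' r ⬝ e c s` are 0: `Z g r s`, `hZ4`.
(The existence statement has `D : TwData G (Fin n) ι (MvPolynomial C L)`, `D.gen = gen`, `D.Adj = Adj`: definitional for the structure you build.)
-/

namespace Pool.Agent.FR

section frH
open MvPolynomial

/-- add a trivial block -/
noncomputable def frH_blk (ι : Type) [Fintype ι] [DecidableEq ι] (n : ℕ) (Q L : Type) [Field L] :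
    Matrix ι ι L →* Matrix (ι ⊕ Fin n) (ι ⊕ Fin n) (MvPolynomial Q L) where
  toFun A := Matrix.fromBlocks (A.map MvPolynomial.C) 0 0 1
  map_one' := by
    rw [Matrix.map_one _ (map_zero _) (map_one _), Matrix.fromBlocks_one]
  map_mul' A B := by
    rw [Matrix.fromBlocks_multiply, Matrix.map_mul]
    simp

theorem frH_blk_apply {ι : Type} [Fintype ι] [DecidableEq ι] {n : ℕ} {Q L : Type} [Field L]
    (A : Matrix ι ι L) :
    frH_blk ι n Q L A = Matrix.fromBlocks (A.map MvPolynomial.C) 0 0 1 := rfl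

/-- the generic combination of the vectors `v c` -/
noncomputable def frH_v {ι P Q L : Type} [Fintype P] [Field L] (j : P → Q) (v : P → ι → L) :
    ι → MvPolynomial Q L :=
  fun i => ∑ c, MvPolynomial.X (j c) * MvPolynomial.C (v c i)

theorem frH_mulVec {ι P Q L : Type} [Fintype ι] [Fintype P] [Field L] (j : P → Q) (v : P → ι → L)
    (A : Matrix ι ι L) :
    (A.map (MvPolynomial.C : L →+* MvPolynomial Q L)).mulVec (frH_v j v) =
      frH_v j (fun c => A.mulVec (v c)) := by
  funext i
  simp only [Matrix.mulVec, dotProduct, frH_v, Matrix.map_apply, Finset.mul_sum, map_sum, map_mul]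
  rw [Finset.sum_comm]
  refine Finset.sum_congr rfl fun c _ => Finset.sum_congr rfl fun k _ => ?_
  ring

theorem frH_vecMul {ι P Q L : Type} [Fintype ι] [Fintype P] [Field L] (j : P → Q) (v : P → ι → L)
    (A : Matrix ι ι L) :
    Matrix.vecMul (frH_v j v) (A.map (MvPolynomial.C : L →+* MvPolynomial Q L)) =
      frH_v j (fun c => Matrix.vecMul (v c) A) := by
  funext i
  simp only [Matrix.vecMul, dotProduct, frH_v, Matrix.map_apply, Finset.mul_sum, Finset.sum_mul,
    map_sum, map_mul]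
  rw [Finset.sum_comm]
  refine Finset.sum_congr rfl fun c _ => Finset.sum_congr rfl fun k _ => ?_
  ring

theorem frH_dot {ι P P' Q L : Type} [Fintype ι] [Fintype P] [Fintype P'] [Field L] (j : P → Q)
    (j' : P' → Q) (v : P → ι → L) (v' : P' → ι → L) :
    dotProduct (frH_v j' v') (frH_v j v) =
      ∑ c', ∑ c, MvPolynomial.X (j' c') * MvPolynomial.X (j c) *
        MvPolynomial.C (dotProduct (v' c') (v c)) := by
  simp only [dotProduct, frH_v, Finset.mul_sum, Finset.sum_mul, map_sum, map_mul]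
  rw [Finset.sum_comm]
  rw [show (∑ y : P, ∑ x : ι, ∑ i : P', MvPolynomial.X (j' i) * MvPolynomial.C (v' i x) *
      (MvPolynomial.X (j y) * MvPolynomial.C (v y x)) : MvPolynomial Q L) =
      ∑ y : P, ∑ i : P', ∑ x : ι, MvPolynomial.X (j' i) * MvPolynomial.C (v' i x) *
      (MvPolynomial.X (j y) * MvPolynomial.C (v y x)) from
    Finset.sum_congr rfl fun y _ => Finset.sum_comm]
  rw [Finset.sum_comm]
  refine Finset.sum_congr rfl fun c' _ => Finset.sum_congr rfl fun c _ =>
    Finset.sum_congr rfl fun i _ => ?_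
  ring

open Classical in
theorem frH_coeff {ι P P' L : Type} [Fintype ι] [Fintype P] [Fintype P'] [Field L]
    (v : P → ι → L) (v' : P' → ι → L)
    (h : dotProduct (frH_v (Q := P ⊕ P') Sum.inr v') (frH_v Sum.inl v) = 0) (c : P) (c' : P') :
    dotProduct (v' c') (v c) = 0 := by
  have h1 := congrArg (MvPolynomial.eval (Sum.elim (Pi.single c (1 : L)) (Pi.single c' (1 : L)))) h
  rw [frH_dot] at h1
  simp only [map_sum, map_mul, eval_X, eval_C, Sum.elim_inl, Sum.elim_inr, map_zero] at h1
  rw [Finset.sum_eq_single c', Finset.sum_eq_single c] at h1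
  · simpa using h1
  · intro b _ hb
    rw [Pi.single_eq_of_ne hb]
    ring
  · intro hb; exact absurd (Finset.mem_univ _) hb
  · intro b _ hb
    refine Finset.sum_eq_zero fun x _ => ?_
    rw [Pi.single_eq_of_ne hb]
    ring
  · intro hb; exact absurd (Finset.mem_univ _) hb

theorem frH_eval0 {ι P P' Q L : Type} [Fintype ι] [Fintype P] [Fintype P'] [Field L] (j : P → Q)
    (j' : P' → Q) (v : P → ι → L) (v' : P' → ι → L) :
    MvPolynomial.eval (fun _ => (0 : L)) (dotProduct (frH_v j' v') (frH_v j v)) = 0 := by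
  rw [frH_dot]
  simp

open Classical in
/-- the trivial part of `e_s` -/
noncomputable def frH_es1 {n : ℕ} (Q L : Type) [Field L] (s : Fin n) : Fin n → MvPolynomial Q L :=
  fun t => if t = s then 1 else 0

open Classical in
/-- the trivial part of `e'_r` -/
noncomputable def frH_er1 {n : ℕ} (Q L : Type) [Field L] (Adj : Fin n → Fin n → Prop) (r : Fin n) :
    Fin n → MvPolynomial Q L :=
  fun t => if t ≠ r ∧ ¬ Adj r t then 1 else 0

open Classical in
theorem frH_er1_es1 {n : ℕ} {Q L : Type} [Field L] (Adj : Fin n → Fin n → Prop) (r s : Fin n) :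
    dotProduct (frH_er1 Q L Adj r) (frH_es1 Q L s) = if s ≠ r ∧ ¬ Adj r s then 1 else 0 := by
  unfold frH_es1
  have h : (fun t => if t = s then (1 : MvPolynomial Q L) else 0) = Pi.single s 1 := by
    funext t
    by_cases ht : t = s
    · rw [if_pos ht, ht, Pi.single_eq_same]
    · rw [if_neg ht, Pi.single_eq_of_ne ht]
  rw [h, dotProduct_single, mul_one]
  rfl

theorem frH_pair {ι P P' L : Type} [Fintype ι] [DecidableEq ι] [Fintype P] [Fintype P'] [Field L]
    {n : ℕ} (Adj : Fin n → Fin n → Prop) (A : Matrix ι ι L) (v : P → ι → L) (v' : P' → ι → L)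
    (r s : Fin n) :
    dotProduct (Sum.elim (frH_v (Q := P ⊕ P') Sum.inr v') (frH_er1 (P ⊕ P') L Adj r))
      ((frH_blk ι n (P ⊕ P') L A).mulVec (Sum.elim (frH_v Sum.inl v) (frH_es1 (P ⊕ P') L s))) =
      dotProduct (frH_v (Q := P ⊕ P') Sum.inr v') (frH_v Sum.inl (fun c => A.mulVec (v c))) +
        dotProduct (frH_er1 (P ⊕ P') L Adj r) (frH_es1 (P ⊕ P') L s) := by
  rw [frH_blk_apply, Matrix.fromBlocks_mulVec]
  simp only [Matrix.zero_mulVec, add_zero, zero_add, Matrix.one_mulVec]
  rw [Sum.elim_comp_inl, Sum.elim_comp_inr, sumElim_dotProduct_sumElim, frH_mulVec]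

end frH

variable {G : Type} [Group G] {n : ℕ}


theorem Det.toTw {gen : Fin n → G} {Adj : Fin n → Fin n → Prop} {L : Type} [Field L]
    (hsymm : ∀ r s, Adj r s → Adj s r) (hirr : ∀ s, ¬ Adj s s)
    (htop : Subgroup.closure (Set.range gen) = ⊤)
    {Z : G → Fin n → Fin n → Prop} (h : Det gen Adj L Z)
    (hZ3 : ∀ T : Set (Fin n), (∀ a ∈ T, ∀ b ∈ T, a ≠ b → Adj a b) →
      ∀ g ∈ Subgroup.closure (gen '' T), ∀ r s, (Adj r s ∨ r = s) → Z g r s →
        ∃ u ∈ Subgroup.closure (gen '' (T ∩ {x | Adj r x})),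
          ∃ v ∈ Subgroup.closure (gen '' (T ∩ {x | Adj s x})), g = u * v)
    (hZ4 : ∀ T : Set (Fin n), (∀ a ∈ T, ∀ b ∈ T, a ≠ b → Adj a b) →
      ∀ g ∈ Subgroup.closure (gen '' T), (∀ r ∈ T, ∀ s ∈ T, Z g r s) → g = 1) :
    ∃ (ι : Type) (_ : Fintype ι) (_ : DecidableEq ι) (C : Type) (_ : Finite C)
      (D : Pool.Agent.AR.TwData G (Fin n) ι (MvPolynomial C L)), D.gen = gen ∧ D.Adj = Adj := by
  classical
  obtain ⟨ι, i1, i2, P, i3, P', i4, ρ, e, e', h1, h2, h3, h4⟩ := h
  refine ⟨ι ⊕ Fin n, inferInstance, inferInstance, P ⊕ P', inferInstance,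
    { gen := gen
      Adj := Adj
      symm := hsymm
      irr := hirr
      top := htop
      ρ₀ := (Units.map (frH_blk ι n (P ⊕ P') L)).comp ρ
      e := fun s => Sum.elim (frH_v Sum.inl (fun c => e c s)) (frH_es1 (P ⊕ P') L s)
      e' := fun r => Sum.elim (frH_v Sum.inr (fun c => e' c r)) (frH_er1 (P ⊕ P') L Adj r)
      H1 := ?_
      H1' := ?_
      H2 := ?_
      H3 := ?_
      H4 := ?_ }, rfl, rfl⟩
  · intro r s hrs
    rw [MonoidHom.comp_apply, Units.coe_map, frH_blk_apply, Matrix.fromBlocks_mulVec]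
    simp only [Matrix.zero_mulVec, add_zero, zero_add, Matrix.one_mulVec]
    rw [Sum.elim_comp_inl, Sum.elim_comp_inr, frH_mulVec]
    congr 2
    funext c
    exact h1 c r s hrs
  · intro r s hrs
    rw [MonoidHom.comp_apply, Units.coe_map, frH_blk_apply, Matrix.vecMul_fromBlocks]
    simp only [Matrix.vecMul_zero, add_zero, zero_add, Matrix.vecMul_one]
    rw [Sum.elim_comp_inl, Sum.elim_comp_inr, frH_vecMul]
    congr 2
    funext c
    exact h2 c r s hrs
  · intro r s hrs
    rw [sumElim_dotProduct_sumElim, frH_er1_es1, if_neg, add_zero, frH_dot]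
    · refine Finset.sum_eq_zero fun c' _ => Finset.sum_eq_zero fun c _ => ?_
      rw [h3 c c' r s hrs, map_zero, mul_zero]
    · rintro ⟨h5, h6⟩
      rcases hrs with h7 | h7
      · exact h6 h7
      · exact h5 h7.symm
  · intro T hT g hg r s h
    rw [MonoidHom.comp_apply, Units.coe_map, frH_pair, frH_er1_es1] at h
    have h5 := congrArg (MvPolynomial.eval (fun _ => (0 : L))) h
    rw [map_add, frH_eval0, map_zero, zero_add] at h5
    have hrs : Adj r s ∨ r = s := by
      by_contra hc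
      rw [not_or] at hc
      rw [if_pos ⟨fun h6 => hc.2 h6.symm, hc.1⟩, map_one] at h5
      exact one_ne_zero h5
    refine ⟨hrs, ?_⟩
    rw [if_neg (by
      rintro ⟨h5, h6⟩
      rcases hrs with h7 | h7
      · exact h6 h7
      · exact h5 h7.symm), add_zero] at h
    exact hZ3 T hT g hg r s hrs (h4 g r s fun c c' => frH_coeff _ _ h c c')
  · intro T hT g hg h
    have h5 : frH_blk ι n (P ⊕ P') L (ρ g : Matrix ι ι L) = 1 := congrArg Units.val h
    have h6 : (ρ g : Matrix ι ι L) = 1 := by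
      ext i j
      have h7 := congrFun (congrFun h5 (Sum.inl i)) (Sum.inl j)
      rw [frH_blk_apply, Matrix.fromBlocks_apply₁₁, Matrix.map_apply] at h7
      apply MvPolynomial.C_injective (P ⊕ P') L
      rw [h7]
      by_cases hij : i = j
      · subst hij
        rw [Matrix.one_apply_eq, Matrix.one_apply_eq, map_one]
      · rw [Matrix.one_apply_ne hij, Matrix.one_apply_ne (fun h8 => hij (Sum.inl_injective h8)),
          map_zero]
    refine hZ4 T hT g hg fun r hr s hs => h4 g r s fun c c' => ?_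
    rw [h6, Matrix.one_mulVec]
    apply h3
    by_cases hrs : r = s
    · exact Or.inr hrs
    · exact Or.inl (hT r hr s hs hrs)

end Pool.Agent.FR
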