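import Pool.Agent.Lib.MP_d24c19_al.FR.Defs

set_option autoImplicit false

/-!
ROW fr-I: `Coc` is enough to check on generators (Subgroup.closure_induction; for the inverse: apply the property of `g` to the point `Om g⁻¹ (x, k)` and use injectivity of `Om g`).
-/

namespace Pool.Agent.FR

variable {G X K : Type} [Group G] [Group K] {Om : G →* Equiv.Perm (X × K)}


theorem coc_of_gen {n : ℕ} (gen : Fin n → G) (htop : Subgroup.closure (Set.range gen) = ⊤)
    (h : ∀ s x k h, Om (gen s) (x, k * h) = ((Om (gen s) (x, k)).1, (Om (gen s) (x, k)).2 * h)) :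
    Coc Om := by
  intro g
  have hg : g ∈ Subgroup.closure (Set.range gen) := by rw [htop]; exact Subgroup.mem_top g
  induction hg using Subgroup.closure_induction with
  | mem g hg =>
    obtain ⟨s, rfl⟩ := hg
    exact fun x k h' => h s x k h'
  | one =>
    intro x k h'
    simp
  | mul a b _ _ ha hb =>
    intro x k h'
    rw [map_mul, Equiv.Perm.mul_apply, Equiv.Perm.mul_apply, hb x k h', ha]
  | inv a _ ha =>
    intro x k h'
    have hai : ∀ y : X × K, Om a ((Om a)⁻¹ y) = y := fun y => by
      rw [← Equiv.Perm.mul_apply, mul_inv_cancel, Equiv.Perm.one_apply]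
    rw [map_inv]
    apply (Om a).injective
    rw [hai]
    obtain ⟨p, hp⟩ : ∃ p, p = (Om a)⁻¹ (x, k) := ⟨_, rfl⟩
    rw [← hp]
    have h1 : Om a p = (x, k) := by rw [hp, hai]
    have h2 := ha p.1 p.2 h'
    rw [show ((p.1, p.2) : X × K) = p from rfl, h1] at h2
    exact h2.symm

end Pool.Agent.FR
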