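import Pool.Agent.Lib.MP_d24c19_al.FR.Defs

set_option autoImplicit false

/-!
ROW fr-J: tensor powers of a matrix representation. The matrix `∏ l, M (y l) (y' l)` is multiplicative: `∑_f ∏_l A (y l) (f l) B (f l) (y' l) = ∏_l ∑_i ..` (`Finset.prod_univ_sum` / `Fintype.piFinset_univ`),
identity goes to identity; `MonoidHom.toHomUnits`. Second statement: pairing with the tensor powers of vectors.
-/

namespace Pool.Agent.FR

variable {G X K : Type} [Group G] [Group K] {Om : G →* Equiv.Perm (X × K)}

private theorem frJ_sum {κ L : Type} [Fintype κ] [DecidableEq κ] [Field L] (j : ℕ) (F : Fin j → κ → L) :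
    ∑ f : Fin j → κ, ∏ l, F l (f l) = ∏ l, ∑ i, F l i := by
  rw [Finset.prod_univ_sum, Fintype.piFinset_univ]

theorem tensor_exists {κ L : Type} [Fintype κ] [DecidableEq κ] [Field L]
    (Mx : K →* (Matrix κ κ L)ˣ) (j : ℕ) :
    ∃ Mj : K →* (Matrix (Fin j → κ) (Fin j → κ) L)ˣ, ∀ k y y',
      (Mj k : Matrix (Fin j → κ) (Fin j → κ) L) y y' = ∏ l, (Mx k : Matrix κ κ L) (y l) (y' l) := by
  let F : K →* Matrix (Fin j → κ) (Fin j → κ) L :=
    { toFun := fun k => Matrix.of fun y y' => ∏ l, (Mx k : Matrix κ κ L) (y l) (y' l)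
      map_one' := by
        ext y y'
        rw [Matrix.of_apply, map_one, Units.val_one, Matrix.one_apply]
        simp only [Matrix.one_apply]
        by_cases h : y = y'
        · subst h
          simp
        · rw [if_neg h]
          obtain ⟨l, hl⟩ := Function.ne_iff.mp h
          exact Finset.prod_eq_zero (Finset.mem_univ l) (if_neg hl)
      map_mul' := by
        intro a b
        ext y y'
        rw [map_mul, Units.val_mul, Matrix.of_apply, Matrix.mul_apply]
        simp only [Matrix.mul_apply, Matrix.of_apply]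
        rw [← frJ_sum j (fun l i => (Mx a : Matrix κ κ L) (y l) i * (Mx b : Matrix κ κ L) i (y' l))]
        exact Finset.sum_congr rfl fun f _ => Finset.prod_mul_distrib }
  exact ⟨F.toHomUnits, fun k y y' => rfl⟩

/-- matrix times vector for a tensor power -/
theorem tensor_mulVec {κ L : Type} [Fintype κ] [DecidableEq κ] [Field L] (j : ℕ)
    (A : Matrix κ κ L) (B : Matrix (Fin j → κ) (Fin j → κ) L) (hB : ∀ y y', B y y' = ∏ l, A (y l) (y' l))
    (v : κ → L) : B.mulVec (fun y => ∏ l, v (y l)) = fun y => ∏ l, (A.mulVec v) (y l) := by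
  funext y
  simp only [Matrix.mulVec, dotProduct]
  rw [← frJ_sum j (fun l i => A (y l) i * v i)]
  exact Finset.sum_congr rfl fun f _ => by rw [hB, Finset.prod_mul_distrib]

/-- vector times matrix for a tensor power -/
theorem tensor_vecMul {κ L : Type} [Fintype κ] [DecidableEq κ] [Field L] (j : ℕ)
    (A : Matrix κ κ L) (B : Matrix (Fin j → κ) (Fin j → κ) L) (hB : ∀ y y', B y y' = ∏ l, A (y l) (y' l))
    (v : κ → L) : Matrix.vecMul (fun y => ∏ l, v (y l)) B = fun y => ∏ l, (Matrix.vecMul v A) (y l) := by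
  funext y
  simp only [Matrix.vecMul, dotProduct]
  rw [← frJ_sum j (fun l i => v i * A i (y l))]
  exact Finset.sum_congr rfl fun f _ => by rw [hB, Finset.prod_mul_distrib]

/-- pairing of tensor powers -/
theorem tensor_dot {κ L : Type} [Fintype κ] [DecidableEq κ] [Field L] (j : ℕ) (v w : κ → L) :
    dotProduct (fun y : Fin j → κ => ∏ l, v (y l)) (fun y => ∏ l, w (y l)) = (dotProduct v w) ^ j := by
  simp only [dotProduct]
  have h := frJ_sum j (fun (_ : Fin j) i => v i * w i)
  rw [Finset.prod_const, Finset.card_univ, Fintype.card_fin] at h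
  rw [← h]
  exact Finset.sum_congr rfl fun f _ => by rw [Finset.prod_mul_distrib]

end Pool.Agent.FR
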