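import Pool.Agent.Lib.MP_d24c19_al.FR.Defs

set_option autoImplicit false

/-!
ROW fr-Kp: power sums. Suppose `z i₀ ≠ 0`. For every polynomial `P` with `P(0) = 0` and degree `≤ N`: `∑_{i ∈ A} P(z i) = 0`. Take `P = X ∏_{y ∈ (A.image z) \ {0, z i₀}} (X - y)`
(degree `≤ A.card ≤ N`: the image has at most `A.card` elements and contains `z i₀`): the sum is `#{i ∈ A : z i = z i₀} · P(z i₀) ≠ 0` (characteristic 0). Contradiction.
-/

namespace Pool.Agent.FR

variable {G X K : Type} [Group G] [Group K] {Om : G →* Equiv.Perm (X × K)}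


theorem power_sums {L : Type} [Field L] [CharZero L] {I : Type} (A : Finset I) (z : I → L)
    (N : ℕ) (hN : A.card ≤ N) (h : ∀ j, 1 ≤ j → j ≤ N → ∑ i ∈ A, z i ^ j = 0) :
    ∀ i ∈ A, z i = 0 := by
  classical
  intro i₀ hi₀
  by_contra hz
  set S : Finset L := ((A.image z).erase (z i₀)).erase 0 with hS
  set P : Polynomial L := Polynomial.X * ∏ y ∈ S, (Polynomial.X - Polynomial.C y) with hP
  have hcard : S.card + 1 ≤ N := by
    have h1 : S.card ≤ ((A.image z).erase (z i₀)).card := Finset.card_le_card (Finset.erase_subset _ _)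
    have h2 : ((A.image z).erase (z i₀)).card + 1 = (A.image z).card :=
      Finset.card_erase_add_one (Finset.mem_image_of_mem z hi₀)
    have h3 : (A.image z).card ≤ A.card := Finset.card_image_le
    omega
  have hdeg : P.natDegree < N + 1 := by
    have h1 : P.natDegree ≤ Polynomial.natDegree (Polynomial.X : Polynomial L) +
        (∏ y ∈ S, (Polynomial.X - Polynomial.C y)).natDegree := Polynomial.natDegree_mul_le
    have h2 : (∏ y ∈ S, (Polynomial.X - Polynomial.C y) : Polynomial L).natDegree ≤ S.card := by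
      refine (Polynomial.natDegree_prod_le _ _).trans ?_
      refine (Finset.sum_le_sum fun y _ => (Polynomial.natDegree_X_sub_C y).le).trans ?_
      simp
    have h3 := Polynomial.natDegree_X_le (R := L)
    omega
  have h0 : P.coeff 0 = 0 := by
    rw [hP, Polynomial.mul_coeff_zero, Polynomial.coeff_X_zero, zero_mul]
  have hsum : ∑ i ∈ A, P.eval (z i) = 0 := by
    have h1 : ∀ i ∈ A, P.eval (z i) = ∑ j ∈ Finset.range (N + 1), P.coeff j * z i ^ j := fun i _ =>
      Polynomial.eval_eq_sum_range' hdeg (z i)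
    rw [Finset.sum_congr rfl h1, Finset.sum_comm]
    refine Finset.sum_eq_zero fun j hj => ?_
    rw [← Finset.mul_sum]
    rcases Nat.eq_zero_or_pos j with hj0 | hj0
    · rw [hj0, h0, zero_mul]
    · rw [h j hj0 (Nat.lt_succ_iff.1 (Finset.mem_range.1 hj)), mul_zero]
  have hval : ∀ i ∈ A, P.eval (z i) = if z i = z i₀ then P.eval (z i₀) else 0 := by
    intro i hi
    split_ifs with h1
    · rw [h1]
    · rw [hP, Polynomial.eval_mul, Polynomial.eval_X, Polynomial.eval_prod]
      by_cases h2 : z i = 0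
      · rw [h2, zero_mul]
      · have h3 : z i ∈ S := by
          rw [hS]
          exact Finset.mem_erase.2 ⟨h2, Finset.mem_erase.2 ⟨h1, Finset.mem_image_of_mem z hi⟩⟩
        rw [Finset.prod_eq_zero h3 (by simp), mul_zero]
  rw [Finset.sum_congr rfl hval, ← Finset.sum_filter, Finset.sum_const, nsmul_eq_mul] at hsum
  have hc : ((A.filter fun i => z i = z i₀).card : L) ≠ 0 := by
    rw [Nat.cast_ne_zero]
    exact Finset.card_ne_zero_of_mem (Finset.mem_filter.2 ⟨hi₀, rfl⟩)
  have hPz : P.eval (z i₀) ≠ 0 := by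
    rw [hP, Polynomial.eval_mul, Polynomial.eval_X, Polynomial.eval_prod]
    refine mul_ne_zero hz (Finset.prod_ne_zero_iff.2 fun y hy => ?_)
    rw [Polynomial.eval_sub, Polynomial.eval_X, Polynomial.eval_C]
    intro hcon
    have h1 : z i₀ = y := sub_eq_zero.1 hcon
    rw [hS, Finset.mem_erase, Finset.mem_erase] at hy
    exact hy.2.1 h1.symm
  exact (mul_ne_zero hc hPz) hsum

end Pool.Agent.FR
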