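import Pool.Agent.Lib.MP_d24c19_al.FR.Defs

set_option autoImplicit false

/-!
ROW fr-Li: the induced representation. Multiplicative: `(ρ g ρ g')_{p,p'} = ∑_q [p.1 = g q.1][q.1 = g' p'.1] (Mx(kap g q.1))_{p.2,q.2} (Mx (kap g' p'.1))_{q.2,p'.2}`: only `q.1 = act g' p'.1` survives;
`act_mul`, `kap_mul`. `act_one`, `kap_one`. `MonoidHom.toHomUnits`.
-/

namespace Pool.Agent.FR

variable {G X K : Type} [Group G] [Group K] {Om : G →* Equiv.Perm (X × K)}


theorem ind_exists {κ L : Type} [Fintype κ] [DecidableEq κ] [Field L] [Fintype X] [DecidableEq X]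
    (h : Coc Om) (Mx : K →* (Matrix κ κ L)ˣ) :
    ∃ ρ : G →* (Matrix (X × κ) (X × κ) L)ˣ, ∀ g p p',
      (ρ g : Matrix (X × κ) (X × κ) L) p p' =
        if p.1 = act Om g p'.1 then (Mx (kap Om g p'.1) : Matrix κ κ L) p.2 p'.2 else 0 := by
  let f : G →* Matrix (X × κ) (X × κ) L :=
    { toFun := fun g => Matrix.of fun p p' =>
        if p.1 = act Om g p'.1 then (Mx (kap Om g p'.1) : Matrix κ κ L) p.2 p'.2 else 0
      map_one' := by
        ext p p'
        rw [Matrix.of_apply, act_one, kap_one, map_one, Units.val_one, Matrix.one_apply,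
          Matrix.one_apply]
        by_cases h1 : p.1 = p'.1
        · by_cases h2 : p.2 = p'.2
          · rw [if_pos h1, if_pos h2, if_pos (Prod.ext h1 h2)]
          · rw [if_pos h1, if_neg h2, if_neg (fun h3 => h2 (congrArg Prod.snd h3))]
        · rw [if_neg h1, if_neg (fun h3 => h1 (congrArg Prod.fst h3))]
      map_mul' := by
        intro g g'
        ext p p'
        rw [Matrix.mul_apply, Matrix.of_apply, act_mul h, kap_mul h, map_mul, Units.val_mul,
          Matrix.mul_apply, Fintype.sum_prod_type, Finset.sum_eq_single (act Om g' p'.1)]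
        · by_cases h1 : p.1 = act Om g (act Om g' p'.1)
          · rw [if_pos h1]
            refine Finset.sum_congr rfl fun j _ => ?_
            rw [Matrix.of_apply, Matrix.of_apply, if_pos h1, if_pos rfl]
          · rw [if_neg h1]
            symm
            refine Finset.sum_eq_zero fun j _ => ?_
            rw [Matrix.of_apply, if_neg h1, zero_mul]
        · intro b _ hb
          refine Finset.sum_eq_zero fun j _ => ?_
          rw [Matrix.of_apply, Matrix.of_apply]
          rw [if_neg (show ¬ ((b, j) : X × κ).1 = act Om g' p'.1 from hb), mul_zero]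
        · intro h1
          exact absurd (Finset.mem_univ _) h1 }
  refine ⟨f.toHomUnits, fun g p p' => ?_⟩
  rw [MonoidHom.coe_toHomUnits]
  rfl

end Pool.Agent.FR
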