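import Pool.Agent.Lib.MP_d24c19_al.FR.G
import Pool.Agent.Lib.MP_d24c19_al.FR.J
import Pool.Agent.Lib.MP_d24c19_al.FR.Kp
import Pool.Agent.Lib.MP_d24c19_al.FR.Li

set_option autoImplicit false

/-!
ROW fr-Mc: detection with all tensor powers. For `j = 1 .. N`, `N = Nat.card X`: `Det` of `Z_j g r s := ∑ over x with x ∈ Orb s and act g x ∈ Orb' r of (eps ⬝ Mx(kap g x) del)^j = 0`
(one module `ind_exists` for `Mj` of `tensor_exists`, `C = C' = Unit`, `e s (x,y) = [x ∈ Orb s] ∏_l del (y l)`, `e' r (x,y) = [x ∈ Orb' r] ∏_l eps (y l)`):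
coefficient: `e'_r ρ(g) e_s = ∑_{x ∈ Orb s, act g x ∈ Orb' r} (eps ⬝ (Mx (kap g x)).mulVec del)^j` (`tensor_mulVec`, `tensor_dot`);
invariance of `e s`: `(ρ(gen r) e)(x',·) = [x ∈ Orb s] (Mx (kap (gen r) x) del)^⊗` for the unique `x` with `act (gen r) x = x'` (`act` of a group element is bijective: `act_mul`, `act_one`), `hO`, `hd`;
invariance of `e' s`: `(e' ρ(gen r))(x,·) = [act (gen r) x ∈ Orb' s] (eps Mx(kap (gen r) x))^⊗`, `hO'`, `he`; `e'_r ⬝ e_s = ∑_{x ∈ Orb s ∩ Orb' r} (eps ⬝ del)^j = 0` for `j ≥ 1` (`h0`).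
Then `Det.forall` over `Fin N` (`j = i + 1`), `Det.mono` with `power_sums` for the finset of these `x`.
-/

namespace Pool.Agent.FR

variable {G X K : Type} [Group G] [Group K] {Om : G →* Equiv.Perm (X × K)}


/-- the action of a group element is injective -/
theorem frMc_act_inv (h : Coc Om) (g : G) (x : X) : act Om g (act Om g⁻¹ x) = x := by
  rw [← act_mul h, mul_inv_cancel, act_one]

theorem frMc_act_inv' (h : Coc Om) (g : G) (x : X) : act Om g⁻¹ (act Om g x) = x := by
  rw [← act_mul h, inv_mul_cancel, act_one]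

open Classical in
/-- tensor power of a vector on a set, zero outside -/
noncomputable def frMc_v {κ L : Type} [Field L] (O : Set X) (v : κ → L) (j : ℕ) :
    X × (Fin j → κ) → L := fun p => if p.1 ∈ O then ∏ l, v (p.2 l) else 0

theorem frMc_pos {κ L : Type} [Field L] (O : Set X) (v : κ → L) (j : ℕ) (p : X × (Fin j → κ))
    (h : p.1 ∈ O) : frMc_v O v j p = ∏ l, v (p.2 l) := if_pos h

theorem frMc_neg {κ L : Type} [Field L] (O : Set X) (v : κ → L) (j : ℕ) (p : X × (Fin j → κ))
    (h : p.1 ∉ O) : frMc_v O v j p = 0 := if_neg h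

open Classical in
/-- the coefficients for one tensor power -/
theorem frMc_one {κ L : Type} [Fintype κ] [DecidableEq κ] [Field L] [Fintype X] [DecidableEq X]
    (h : Coc Om) (Mx : K →* (Matrix κ κ L)ˣ) (eps del : κ → L)
    (h0 : dotProduct eps del = 0) {n : ℕ} (gen : Fin n → G) (Adj : Fin n → Fin n → Prop)
    (Orb Orb' : Fin n → Set X)
    (hO : ∀ r s x, Adj r s → (act Om (gen r) x ∈ Orb s ↔ x ∈ Orb s))
    (hO' : ∀ r s x, Adj r s → (act Om (gen r) x ∈ Orb' s ↔ x ∈ Orb' s))
    (hd : ∀ r s x, Adj r s → x ∈ Orb s →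
      (Mx (kap Om (gen r) x) : Matrix κ κ L).mulVec del = del)
    (he : ∀ r s x, Adj r s → x ∈ Orb' s →
      Matrix.vecMul eps (Mx (kap Om (gen r) x) : Matrix κ κ L) = eps) (j : ℕ) (hj : 1 ≤ j) :
    Det gen Adj L (fun g r s => ∑ x ∈ Finset.univ.filter (fun x => x ∈ Orb s ∧ act Om g x ∈ Orb' r),
      (dotProduct eps ((Mx (kap Om g x) : Matrix κ κ L).mulVec del)) ^ j = 0) := by
  obtain ⟨Mj, hMj⟩ := tensor_exists Mx j
  obtain ⟨ρ, hρ⟩ := ind_exists h Mj
  -- matrix times vector
  have hmv : ∀ (g : G) (s : Fin n) (p : X × (Fin j → κ)),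
      (ρ g : Matrix (X × (Fin j → κ)) (X × (Fin j → κ)) L).mulVec
        (frMc_v (Orb s) del j) p =
      ∑ x, if p.1 = act Om g x then (if x ∈ Orb s then
        ∏ l, ((Mx (kap Om g x) : Matrix κ κ L).mulVec del) (p.2 l) else 0) else 0 := by
    intro g s p
    rw [Matrix.mulVec, dotProduct, Fintype.sum_prod_type]
    refine Finset.sum_congr rfl fun x _ => ?_
    by_cases hx : p.1 = act Om g x
    · rw [if_pos hx]
      by_cases hs : x ∈ Orb s
      · rw [if_pos hs]
        have h1 := congrFun (tensor_mulVec j (Mx (kap Om g x) : Matrix κ κ L) (Mj (kap Om g x))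
          (hMj (kap Om g x)) del) p.2
        rw [← h1, Matrix.mulVec, dotProduct]
        refine Finset.sum_congr rfl fun y _ => ?_
        rw [hρ, if_pos hx, frMc_pos _ _ _ _ hs]
      · rw [if_neg hs]
        refine Finset.sum_eq_zero fun y _ => ?_
        rw [frMc_neg _ _ _ _ hs, mul_zero]
    · rw [if_neg hx]
      refine Finset.sum_eq_zero fun y _ => ?_
      rw [hρ, if_neg hx, zero_mul]
  -- vector times matrix
  have hvm : ∀ (g : G) (s : Fin n) (p : X × (Fin j → κ)),
      Matrix.vecMul (frMc_v (Orb' s) eps j)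
        (ρ g : Matrix (X × (Fin j → κ)) (X × (Fin j → κ)) L) p =
      if act Om g p.1 ∈ Orb' s then
        ∏ l, (Matrix.vecMul eps (Mx (kap Om g p.1) : Matrix κ κ L)) (p.2 l) else 0 := by
    intro g s p
    rw [Matrix.vecMul, dotProduct, Fintype.sum_prod_type, Finset.sum_eq_single (act Om g p.1)]
    · by_cases hs : act Om g p.1 ∈ Orb' s
      · rw [if_pos hs]
        have h1 := congrFun (tensor_vecMul j (Mx (kap Om g p.1) : Matrix κ κ L) (Mj (kap Om g p.1))
          (hMj (kap Om g p.1)) eps) p.2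
        rw [← h1, Matrix.vecMul, dotProduct]
        refine Finset.sum_congr rfl fun y _ => ?_
        rw [hρ, if_pos rfl, frMc_pos _ _ _ _ hs]
      · rw [if_neg hs]
        refine Finset.sum_eq_zero fun y _ => ?_
        rw [frMc_neg _ _ _ _ hs, zero_mul]
    · intro x' _ hx'
      refine Finset.sum_eq_zero fun y _ => ?_
      rw [hρ, if_neg hx', mul_zero]
    · intro h'; exact absurd (Finset.mem_univ _) h'
  refine ⟨X × (Fin j → κ), inferInstance, inferInstance, Unit, inferInstance, Unit, inferInstance, ρ,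
    fun _ s => frMc_v (Orb s) del j, fun _ s => frMc_v (Orb' s) eps j, ?_, ?_, ?_, ?_⟩
  · intro _ r s hrs
    beta_reduce
    funext p
    rw [hmv, Finset.sum_eq_single (act Om (gen r)⁻¹ p.1)]
    · rw [if_pos (frMc_act_inv h (gen r) p.1).symm]
      have h2 := hO r s (act Om (gen r)⁻¹ p.1) hrs
      rw [frMc_act_inv h] at h2
      by_cases hs : act Om (gen r)⁻¹ p.1 ∈ Orb s
      · rw [if_pos hs, frMc_pos _ _ _ _ (h2.2 hs), hd r s _ hrs hs]
      · rw [if_neg hs, frMc_neg _ _ _ _ (fun h' => hs (h2.1 h'))]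
    · intro x _ hx
      rw [if_neg]
      intro h'
      exact hx (by rw [h', frMc_act_inv' h])
    · intro h'; exact absurd (Finset.mem_univ _) h'
  · intro _ r s hrs
    beta_reduce
    funext p
    rw [hvm]
    have h2 := hO' r s p.1 hrs
    by_cases hs : p.1 ∈ Orb' s
    · rw [frMc_pos _ _ _ _ hs, if_pos (h2.2 hs), he r s _ hrs hs]
    · rw [frMc_neg _ _ _ _ hs, if_neg (fun h' => hs (h2.1 h'))]
  · intro _ _ r s _
    beta_reduce
    rw [dotProduct, Fintype.sum_prod_type]
    refine Finset.sum_eq_zero fun x _ => ?_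
    by_cases h1 : x ∈ Orb' r
    · by_cases h2 : x ∈ Orb s
      · have h3 := tensor_dot j eps del
        rw [h0, zero_pow (by omega), dotProduct] at h3
        refine Eq.trans (Finset.sum_congr rfl fun y _ => ?_) h3
        rw [frMc_pos _ _ _ (x, y) h1, frMc_pos _ _ _ (x, y) h2]
      · refine Finset.sum_eq_zero fun y _ => ?_
        rw [frMc_neg _ _ _ (x, y) h2, mul_zero]
    · refine Finset.sum_eq_zero fun y _ => ?_
      rw [frMc_neg _ _ _ (x, y) h1, zero_mul]
  · intro g r s hz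
    have h1 := hz () ()
    beta_reduce at h1
    rw [← h1, dotProduct, Fintype.sum_prod_type, Finset.sum_filter]
    -- expand the right side
    have h2 : ∀ x : X, ∀ y : Fin j → κ,
        frMc_v (Orb' r) eps j (x, y) *
        (ρ g : Matrix (X × (Fin j → κ)) (X × (Fin j → κ)) L).mulVec
          (frMc_v (Orb s) del j) (x, y) =
        ∑ x1, if x = act Om g x1 then ((if x1 ∈ Orb s ∧ x ∈ Orb' r then
          (∏ l, eps (y l)) * ∏ l, ((Mx (kap Om g x1) : Matrix κ κ L).mulVec del) (y l) else 0)) else 0 := by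
      intro x y
      rw [hmv, Finset.mul_sum]
      refine Finset.sum_congr rfl fun x1 _ => ?_
      by_cases a1 : x = act Om g x1
      · rw [if_pos a1, if_pos a1]
        by_cases a2 : x1 ∈ Orb s
        · by_cases a3 : x ∈ Orb' r
          · rw [if_pos a2, frMc_pos _ _ _ (x, y) a3, if_pos (And.intro a2 a3)]
          · rw [frMc_neg _ _ _ (x, y) a3, zero_mul, if_neg (fun h' : x1 ∈ Orb s ∧ x ∈ Orb' r => a3 h'.2)]
        · rw [if_neg a2, mul_zero, if_neg (fun h' : x1 ∈ Orb s ∧ x ∈ Orb' r => a2 h'.1)]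
      · rw [if_neg a1, if_neg a1, mul_zero]
    rw [Finset.sum_congr rfl (fun x _ => Finset.sum_congr rfl (fun y _ => h2 x y))]
    rw [Finset.sum_congr rfl (fun x _ => Finset.sum_comm)]
    rw [Finset.sum_comm]
    refine Finset.sum_congr rfl fun x1 _ => ?_
    rw [Finset.sum_eq_single (act Om g x1)]
    · by_cases a2 : x1 ∈ Orb s ∧ act Om g x1 ∈ Orb' r
      · rw [if_pos a2, ← tensor_dot, dotProduct]
        refine Finset.sum_congr rfl fun y _ => ?_
        rw [if_pos rfl, if_pos a2]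
      · rw [if_neg a2]
        refine (Finset.sum_eq_zero fun y _ => ?_).symm
        rw [if_pos rfl, if_neg a2]
    · intro x _ hx
      refine Finset.sum_eq_zero fun y _ => ?_
      rw [if_neg hx]
    · intro h'; exact absurd (Finset.mem_univ _) h'

theorem det_coc {κ L : Type} [Fintype κ] [DecidableEq κ] [Field L] [CharZero L] [Finite X]
    (h : Coc Om) (Mx : K →* (Matrix κ κ L)ˣ) (eps del : κ → L)
    (h0 : dotProduct eps del = 0) {n : ℕ} (gen : Fin n → G) (Adj : Fin n → Fin n → Prop)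
    (Orb Orb' : Fin n → Set X)
    (hO : ∀ r s x, Adj r s → (act Om (gen r) x ∈ Orb s ↔ x ∈ Orb s))
    (hO' : ∀ r s x, Adj r s → (act Om (gen r) x ∈ Orb' s ↔ x ∈ Orb' s))
    (hd : ∀ r s x, Adj r s → x ∈ Orb s →
      (Mx (kap Om (gen r) x) : Matrix κ κ L).mulVec del = del)
    (he : ∀ r s x, Adj r s → x ∈ Orb' s →
      Matrix.vecMul eps (Mx (kap Om (gen r) x) : Matrix κ κ L) = eps) :
    Det gen Adj L (fun g r s => ∀ x, x ∈ Orb s → act Om g x ∈ Orb' r →
      dotProduct eps ((Mx (kap Om g x) : Matrix κ κ L).mulVec del) = 0) := by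
  classical
  have : Fintype X := Fintype.ofFinite X
  have h1 := Det.forall (I := Fin (Fintype.card X))
    (fun i g r s => ∑ x ∈ Finset.univ.filter (fun x => x ∈ Orb s ∧ act Om g x ∈ Orb' r),
      (dotProduct eps ((Mx (kap Om g x) : Matrix κ κ L).mulVec del)) ^ (i.1 + 1) = 0)
    (fun i => frMc_one h Mx eps del h0 gen Adj Orb Orb' hO hO' hd he (i.1 + 1) (by omega))
  refine h1.mono (fun g r s h2 x hx hx' => ?_)
  refine power_sums (Finset.univ.filter (fun x => x ∈ Orb s ∧ act Om g x ∈ Orb' r))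
    (fun x => dotProduct eps ((Mx (kap Om g x) : Matrix κ κ L).mulVec del)) (Fintype.card X)
    (Finset.card_le_univ _) ?_ x (Finset.mem_filter.2 ⟨Finset.mem_univ _, hx, hx'⟩)
  intro j hj hj'
  have h3 := h2 ⟨j - 1, by omega⟩
  simp only [Nat.sub_add_cancel hj] at h3
  exact h3

end Pool.Agent.FR
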