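import Pool.Agent.Lib.MP_d24c19_al.FR.DefsB

set_option autoImplicit false

/-!
ROW fr-N: the base frame is a frame. `lam0 b = some q ↔ vec q = b` (`lam0_some`, `hp.inj`). From `hp`: `B(vec q, vec q') = <q,q'>` in `F` with
`<q,q'> = [i=k] - [i=l] - [j=k] + [j=l]` (`q = (i,j,z)`, `q' = (k,l,z')`; expand with `bil_add_left`, .., `hp.rad`, `hp.rad0`, `bil_symm`), an integer in `{-2,..,2}`; `q = q'` ends: 2.
norm: 2. gram: clear. comm: `<q,q'> = 0` in `F` forces 0 in `ℤ` (`2 ≠ 0`, `3 ≠ 0` in `F`: 1, -1, 2, -2 are not 0), which means that the four sites `i,j,k,l` are distinct (remember `i ≠ j`, `k ≠ l`): `(wk W' Z').cm q q'`,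
`Pool.Agent.VB.x_comm`. braid: `-1` forces `-1` in `ℤ` (`-1 ≠ 0, 1, 2, -2`): `j = k` and `i,l` different from the other sites: `(wk W' Z').br q q'` (definition: tgt q = src q', src q ≠ tgt q'), or `i = l`: `br q' q`; `x_braid`.
refl: `R (vec q) (vec q') = vec q' - <q,q'> vec q` is again some `vec q''`: with `s(i) = -z, s(j) = z, 0` otherwise and `π` = transposition of `i, j`: `q'' = (π k, π l, z' + s(k) - s(l))`
(cases: disjoint: q'; `k=i, l≠j`: `p_j - p_l + (z'-z)δ`; `k=i,l=j`: `p_j - p_i + (z'-2z)δ`; `k=j,l=i`: `p_i - p_j + (z'+2z)δ`; `k=j,l≠i`: `p_i - p_l + (z'+z)δ`; `l=j,k≠i`: `p_k - p_i + (z'-z)δ`; `l=i,k≠j`: `p_k - p_j + (z'+z)δ`).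
-/

namespace Pool.Agent.FR

open Pool.Agent.VB (ArcSys St Psi cyc path ArcHom)
open Pool.Agent.AR (Art gen)


theorem frN_bil {F : Type} [Field F] {n : ℕ} {W' Z' : Type} [DecidableEq W'] [AddCommGroup Z']
    (c : Fin n → Fin n → F) (hc : IsGram c)
    (p : W' → Fin n → F) (δ : Fin n → F) (ι : Z' →+ F) (hp : IsPts c p δ ι)
    (q q' : {q : W' × W' × Z' // q.1 ≠ q.2.1}) :
    bil c (vec p δ ι q) (vec p δ ι q') =
      (if q.1.1 = q'.1.1 then 1 else 0) - (if q.1.1 = q'.1.2.1 then 1 else 0) -
        (if q.1.2.1 = q'.1.1 then 1 else 0) + (if q.1.2.1 = q'.1.2.1 then 1 else 0) := by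
  unfold vec
  rw [bil_add_left, bil_add_right, bil_add_right, bil_smul_left, bil_smul_left, bil_smul_right,
    bil_smul_right, hp.rad, hp.rad0, bil_symm c hc.symm _ δ, hp.rad, hp.gram]
  ring

theorem lam0_frame {F : Type} [Field F] {n : ℕ} {W' Z' : Type} [DecidableEq W'] [AddCommGroup Z']
    (c : Fin n → Fin n → F) (hc : IsGram c) (h2 : (2 : F) ≠ 0) (h3 : (3 : F) ≠ 0)
    (p : W' → Fin n → F) (δ : Fin n → F) (ι : Z' →+ F) (hp : IsPts c p δ ι) :
    IsFrame c (wk W' Z').x (lam0 p δ ι) := by
  have h1 : (1 : F) ≠ 0 := one_ne_zero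
  have hB := frN_bil c hc p δ ι hp
  refine ⟨?_, ?_, ?_, ?_, ?_⟩
  · intro b q hq
    rw [lam0_some hp.inj] at hq
    obtain ⟨⟨i, j, z⟩, hij⟩ := q
    have hij' : i ≠ j := hij
    rw [← hq, hB]
    simp only [if_true, if_neg hij', if_neg hij'.symm]
    ring
  · intro b b' q q' hq hq'
    rw [lam0_some hp.inj] at hq hq'
    obtain ⟨⟨i, j, z⟩, hij⟩ := q
    obtain ⟨⟨k, l, z'⟩, hkl⟩ := q'
    have hij' : i ≠ j := hij
    have hkl' : k ≠ l := hkl
    rw [← hq, ← hq', hB]
    simp only
    by_cases e1 : i = k
    · have e2 : i ≠ l := fun h => hkl' (e1.symm.trans h)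
      have e3 : j ≠ k := fun h => hij' (e1.trans h.symm)
      by_cases e4 : j = l
      · rw [if_pos e1, if_neg e2, if_neg e3, if_pos e4]
        right; right; right; left
        ring
      · rw [if_pos e1, if_neg e2, if_neg e3, if_neg e4]
        right; left
        ring
    · by_cases e2 : i = l
      · have e4 : j ≠ l := fun h => hij' (e2.trans h.symm)
        by_cases e3 : j = k
        · rw [if_neg e1, if_pos e2, if_pos e3, if_neg e4]
          right; right; right; right
          ring
        · rw [if_neg e1, if_pos e2, if_neg e3, if_neg e4]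
          right; right; left
          ring
      · by_cases e3 : j = k
        · have e4 : j ≠ l := fun h => hkl' (e3.symm.trans h)
          rw [if_neg e1, if_neg e2, if_pos e3, if_neg e4]
          right; right; left
          ring
        · by_cases e4 : j = l
          · rw [if_neg e1, if_neg e2, if_neg e3, if_pos e4]
            right; left
            ring
          · rw [if_neg e1, if_neg e2, if_neg e3, if_neg e4]
            left
            ring
  · intro b b' q q' hq hq' h0
    rw [lam0_some hp.inj] at hq hq'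
    apply Pool.Agent.VB.x_comm
    obtain ⟨⟨i, j, z⟩, hij⟩ := q
    obtain ⟨⟨k, l, z'⟩, hkl⟩ := q'
    have hij' : i ≠ j := hij
    have hkl' : k ≠ l := hkl
    rw [← hq, ← hq', hB] at h0
    simp only at h0
    by_cases e1 : i = k
    · exfalso
      have e2 : i ≠ l := fun h => hkl' (e1.symm.trans h)
      have e3 : j ≠ k := fun h => hij' (e1.trans h.symm)
      by_cases e4 : j = l
      · rw [if_pos e1, if_neg e2, if_neg e3, if_pos e4] at h0
        exact h2 (by rw [← h0]; ring)
      · rw [if_pos e1, if_neg e2, if_neg e3, if_neg e4] at h0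
        exact h1 (by rw [← h0]; ring)
    · by_cases e2 : i = l
      · exfalso
        have e4 : j ≠ l := fun h => hij' (e2.trans h.symm)
        by_cases e3 : j = k
        · rw [if_neg e1, if_pos e2, if_pos e3, if_neg e4] at h0
          exact h2 (by linear_combination -h0)
        · rw [if_neg e1, if_pos e2, if_neg e3, if_neg e4] at h0
          exact h1 (by linear_combination -h0)
      · by_cases e3 : j = k
        · exfalso
          have e4 : j ≠ l := fun h => hkl' (e3.symm.trans h)
          rw [if_neg e1, if_neg e2, if_pos e3, if_neg e4] at h0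
          exact h1 (by linear_combination -h0)
        · by_cases e4 : j = l
          · exfalso
            rw [if_neg e1, if_neg e2, if_neg e3, if_pos e4] at h0
            exact h1 (by linear_combination h0)
          · exact ⟨e1, e2, e3, e4⟩
  · intro b b' q q' hq hq' h0
    rw [lam0_some hp.inj] at hq hq'
    obtain ⟨⟨i, j, z⟩, hij⟩ := q
    obtain ⟨⟨k, l, z'⟩, hkl⟩ := q'
    have hij' : i ≠ j := hij
    have hkl' : k ≠ l := hkl
    rw [← hq, ← hq', hB] at h0
    simp only at h0
    by_cases e1 : i = k
    · exfalso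
      have e2 : i ≠ l := fun h => hkl' (e1.symm.trans h)
      have e3 : j ≠ k := fun h => hij' (e1.trans h.symm)
      by_cases e4 : j = l
      · rw [if_pos e1, if_neg e2, if_neg e3, if_pos e4] at h0
        exact h3 (by linear_combination h0)
      · rw [if_pos e1, if_neg e2, if_neg e3, if_neg e4] at h0
        exact h2 (by linear_combination h0)
    · by_cases e2 : i = l
      · have e4 : j ≠ l := fun h => hij' (e2.trans h.symm)
        by_cases e3 : j = k
        · exfalso
          rw [if_neg e1, if_pos e2, if_pos e3, if_neg e4] at h0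
          exact h1 (by linear_combination -h0)
        · exact (Pool.Agent.VB.x_braid (wk W' Z') ⟨(k, l, z'), hkl⟩ ⟨(i, j, z), hij⟩
            ⟨e2.symm, fun h => e3 h.symm⟩).symm
      · by_cases e3 : j = k
        · exact Pool.Agent.VB.x_braid (wk W' Z') ⟨(i, j, z), hij⟩ ⟨(k, l, z'), hkl⟩ ⟨e3, e2⟩
        · exfalso
          by_cases e4 : j = l
          · rw [if_neg e1, if_neg e2, if_neg e3, if_pos e4] at h0
            exact h2 (by linear_combination h0)
          · rw [if_neg e1, if_neg e2, if_neg e3, if_neg e4] at h0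
            exact h1 (by linear_combination h0)
  · intro b b' q q' hq hq'
    rw [lam0_some hp.inj] at hq hq'
    obtain ⟨⟨i, j, z⟩, hij⟩ := q
    obtain ⟨⟨k, l, z'⟩, hkl⟩ := q'
    have hij' : i ≠ j := hij
    have hkl' : k ≠ l := hkl
    have hv : ∀ (i j : W') (z : Z') (hij : i ≠ j), vec p δ ι ⟨(i, j, z), hij⟩ =
      p i - p j + ι z • δ := fun _ _ _ _ => rfl
    have key : ∀ (D : F) (i'' j'' : W') (z'' : Z') (hne : i'' ≠ j''),
        bil c (vec p δ ι ⟨(i, j, z), hij⟩) (vec p δ ι ⟨(k, l, z'), hkl⟩) = D →
        p i'' - p j'' + ι z'' • δ = (p k - p l + ι z' • δ) - D • (p i - p j + ι z • δ) →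
        ∃ a'', lam0 p δ ι (R c b b') = some a'' := by
      intro D i'' j'' z'' hne hD he
      refine ⟨⟨(i'', j'', z''), hne⟩, ?_⟩
      rw [lam0_some hp.inj, R_apply, ← hq, ← hq', hD]
      exact he
    rw [hB] at key
    simp only at key
    by_cases e1 : i = k
    · have e2 : i ≠ l := fun h => hkl' (e1.symm.trans h)
      have e3 : j ≠ k := fun h => hij' (e1.trans h.symm)
      by_cases e4 : j = l
      · refine key 2 j i (z' - z - z) hij'.symm ?_ ?_
        · rw [if_pos e1, if_neg e2, if_neg e3, if_pos e4]
          ring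
        · rw [← e1, ← e4, map_sub, map_sub, two_smul, sub_smul, sub_smul]
          abel
      · refine key 1 j l (z' - z) e4 ?_ ?_
        · rw [if_pos e1, if_neg e2, if_neg e3, if_neg e4]
          ring
        · rw [← e1, map_sub, one_smul, sub_smul]
          abel
    · by_cases e2 : i = l
      · have e4 : j ≠ l := fun h => hij' (e2.trans h.symm)
        by_cases e3 : j = k
        · refine key (-2) i j (z' + z + z) hij' ?_ ?_
          · rw [if_neg e1, if_pos e2, if_pos e3, if_neg e4]
            ring
          · rw [← e2, ← e3, map_add, map_add, neg_smul, two_smul, add_smul, add_smul]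
            abel
        · refine key (-1) k j (z' + z) (fun h => e3 h.symm) ?_ ?_
          · rw [if_neg e1, if_pos e2, if_neg e3, if_neg e4]
            ring
          · rw [← e2, map_add, neg_smul, one_smul, add_smul]
            abel
      · by_cases e3 : j = k
        · have e4 : j ≠ l := fun h => hkl' (e3.symm.trans h)
          refine key (-1) i l (z' + z) e2 ?_ ?_
          · rw [if_neg e1, if_neg e2, if_pos e3, if_neg e4]
            ring
          · rw [← e3, map_add, neg_smul, one_smul, add_smul]
            abel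
        · by_cases e4 : j = l
          · refine key 1 k i (z' - z) (fun h => e1 h.symm) ?_ ?_
            · rw [if_neg e1, if_neg e2, if_neg e3, if_pos e4]
              ring
            · rw [← e4, map_sub, one_smul, sub_smul]
              abel
          · refine key 0 k l z' hkl' ?_ ?_
            · rw [if_neg e1, if_neg e2, if_neg e3, if_neg e4]
              ring
            · rw [zero_smul, sub_zero]

end Pool.Agent.FR
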