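import Pool.Agent.Lib.MP_d24c19_al.FR.DefsB

set_option autoImplicit false

/-!
ROW fr-O: points of a path `f 0, .., f (l-1)`: `p i = - ∑_{k : Fin l, k < i} α_{f k}` (`i : Fin (l+1)`), `δ = 0`, no winding. Gram: `q(i,k) = B(p i, p k)`; claim `q(i,k) = [i=k] - [i=0] - [k=0] + 1`
(by induction: `p (i+1) = p i - α_{f i}`, `B(p i, α_{f k}) = [i = k+1... ]`: for a vector `p i` and a generator `α_{f k}`: `B(p i, α_{f k}) = -∑_{j<i} c(f j, f k) = [i=k] - [i=k+1] - [k=0]..`; check: it must be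
`q(i,k) - q(i,k+1) = [i=k] - [i=k+1] - [k=0]` (`k = 0` counted once)). Then the claim of `gram` follows. Any other way to compute is fine (e.g. compare `p i - p j` with `e_i - e_j`).
Injective: `p i - p j` has coordinate `1` at `f k` for `i ≤ k < j`, resp. `-1` for `j ≤ k < i`, and 0 elsewhere; `1 ≠ -1`.
-/

namespace Pool.Agent.FR

open Pool.Agent.VB (ArcSys St Psi cyc path ArcHom)
open Pool.Agent.AR (Art gen)

/-- the root of the step `m` of the path, 0 when there is none -/
private def frO_b {F : Type} [Field F] {n l : ℕ} (f : Fin l → Fin n) (m : ℕ) : Fin n → F :=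
  if h : m < l then al (f ⟨m, h⟩) else 0

/-- the points of the path -/
private def frO_P {F : Type} [Field F] {n l : ℕ} (f : Fin l → Fin n) : ℕ → Fin n → F
  | 0 => 0
  | m + 1 => frO_P f m - frO_b f m

private theorem frO_bil_zero_left {F : Type} [Field F] {n : ℕ} (c : Fin n → Fin n → F)
    (v : Fin n → F) : bil c 0 v = 0 := by
  unfold bil; simp

private theorem frO_bil_zero_right {F : Type} [Field F] {n : ℕ} (c : Fin n → Fin n → F)
    (v : Fin n → F) : bil c v 0 = 0 := by
  unfold bil; simp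

private theorem frO_bb {F : Type} [Field F] {n : ℕ} (c : Fin n → Fin n → F) (hc : IsGram c) {l : ℕ}
    (f : Fin l → Fin n)
    (h1 : ∀ i j : Fin l, i.1 + 1 = j.1 → c (f i) (f j) = -1)
    (h2 : ∀ i j : Fin l, i.1 + 2 ≤ j.1 → c (f i) (f j) = 0) (i k : ℕ) (hi : i < l) (hk : k < l) :
    bil c (frO_b f i) (frO_b f k) =
      2 * (if i = k then 1 else 0) - (if i + 1 = k then 1 else 0) - (if k + 1 = i then 1 else 0) := by
  unfold frO_b
  rw [dif_pos hi, dif_pos hk, bil_al]
  rcases lt_trichotomy i k with h | h | h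
  · rw [if_neg (by omega : ¬ i = k), if_neg (by omega : ¬ k + 1 = i)]
    by_cases h' : i + 1 = k
    · rw [if_pos h', h1 ⟨i, hi⟩ ⟨k, hk⟩ h']
      ring
    · rw [if_neg h', h2 ⟨i, hi⟩ ⟨k, hk⟩ (by show i + 2 ≤ k; omega)]
      ring
  · subst h
    rw [if_pos rfl, if_neg (by omega : ¬ i + 1 = i), hc.two]
    ring
  · rw [if_neg (by omega : ¬ i = k), if_neg (by omega : ¬ i + 1 = k), hc.symm]
    by_cases h' : k + 1 = i
    · rw [if_pos h', h1 ⟨k, hk⟩ ⟨i, hi⟩ h']
      ring
    · rw [if_neg h', h2 ⟨k, hk⟩ ⟨i, hi⟩ (by show k + 2 ≤ i; omega)]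
      ring

private theorem frO_Pb {F : Type} [Field F] {n : ℕ} (c : Fin n → Fin n → F) (hc : IsGram c) {l : ℕ}
    (f : Fin l → Fin n)
    (h1 : ∀ i j : Fin l, i.1 + 1 = j.1 → c (f i) (f j) = -1)
    (h2 : ∀ i j : Fin l, i.1 + 2 ≤ j.1 → c (f i) (f j) = 0) (k : ℕ) (hk : k < l) (i : ℕ)
    (hi : i ≤ l) :
    bil c (frO_P f i) (frO_b f k) =
      (if i = k then 1 else 0) - (if i = k + 1 then 1 else 0) - (if k = 0 then 1 else 0) := by
  induction i with
  | zero =>
    rw [frO_P, frO_bil_zero_left, if_neg (by omega : ¬ 0 = k + 1)]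
    by_cases h : k = 0
    · rw [if_pos h, if_pos h.symm]; ring
    · rw [if_neg h, if_neg (fun h' => h h'.symm)]; ring
  | succ i ih =>
    rw [frO_P, bil_sub_left, ih (by omega), frO_bb c hc f h1 h2 i k (by omega) hk]
    by_cases h : i = k
    · subst h
      split_ifs <;> first | contradiction | omega | ring1
    · split_ifs <;> first | contradiction | omega | ring1

private theorem frO_PP {F : Type} [Field F] {n : ℕ} (c : Fin n → Fin n → F) (hc : IsGram c) {l : ℕ}
    (f : Fin l → Fin n)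
    (h1 : ∀ i j : Fin l, i.1 + 1 = j.1 → c (f i) (f j) = -1)
    (h2 : ∀ i j : Fin l, i.1 + 2 ≤ j.1 → c (f i) (f j) = 0) (i : ℕ)
    (hi : i ≤ l) (k : ℕ) (hk : k ≤ l) :
    bil c (frO_P f i) (frO_P f k) =
      (if i = k then 1 else 0) - (if i = 0 then 1 else 0) - (if k = 0 then 1 else 0) + 1 := by
  induction k with
  | zero =>
    rw [frO_P, frO_bil_zero_right]
    split_ifs <;> first | contradiction | omega | ring1
  | succ k ih =>
    rw [frO_P, bil_sub_right, ih (by omega), frO_Pb c hc f h1 h2 k (by omega) i hi]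
    split_ifs <;> first | contradiction | omega | ring1

private theorem frO_coord {F : Type} [Field F] {n l : ℕ} (f : Fin l → Fin n)
    (hf : Function.Injective f) (k : ℕ) (hk : k < l) (i : ℕ) (hi : i ≤ l) :
    (frO_P f i : Fin n → F) (f ⟨k, hk⟩) = -(if k < i then 1 else 0) := by
  induction i with
  | zero => rw [frO_P]; simp
  | succ i ih =>
    rw [frO_P, Pi.sub_apply, ih (by omega), frO_b, dif_pos (by omega : i < l), al]
    by_cases h : k = i
    · subst h
      rw [Pi.single_eq_same, if_neg (lt_irrefl _), if_pos (Nat.lt_succ_self _)]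
      ring
    · rw [Pi.single_eq_of_ne, if_congr (by omega : k < i ↔ k < i + 1) rfl rfl, sub_zero]
      intro h'
      have := hf h'
      rw [Fin.mk.injEq] at this
      exact h this

private theorem frO_supp {F : Type} [Field F] {n l : ℕ} (f : Fin l → Fin n)
    (r : Fin n) (hr : r ∉ Set.range f) (i : ℕ) :
    (frO_P f i : Fin n → F) r = 0 := by
  induction i with
  | zero => rw [frO_P]; rfl
  | succ i ih =>
    rw [frO_P, Pi.sub_apply, ih, frO_b]
    split_ifs with h
    · rw [al, Pi.single_eq_of_ne, sub_zero]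
      rintro rfl
      exact hr ⟨_, rfl⟩
    · rw [Pi.zero_apply, sub_zero]

private theorem frO_one {F : Type} [Field F] (hF : (2 : F) ≠ 0) (P Q P' Q' : Prop)
    [Decidable P] [Decidable Q] [Decidable P'] [Decidable Q']
    (h : -(if P then (1 : F) else 0) - -(if Q then 1 else 0) =
      -(if P' then 1 else 0) - -(if Q' then 1 else 0)) :
    ((¬ P ∧ Q) ↔ (¬ P' ∧ Q')) ∧ ((P ∧ ¬ Q) ↔ (P' ∧ ¬ Q')) := by
  have h3 : (1 : F) ≠ -1 := by
    intro h'
    apply hF
    calc (2 : F) = 1 + 1 := by norm_num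
      _ = -1 + 1 := by rw [← h']
      _ = 0 := by ring
  by_cases hP : P <;> by_cases hQ : Q <;> by_cases hP' : P' <;> by_cases hQ' : Q' <;>
    simp [hP, hQ, hP', hQ'] at h ⊢
  all_goals first | exact h3 h | exact h3 h.symm

private theorem frO_inj {F : Type} [Field F] {n l : ℕ} (f : Fin l → Fin n)
    (hf : Function.Injective f) (hF : (2 : F) ≠ 0) (i j i' j' : ℕ) (hi : i ≤ l) (hj : j ≤ l)
    (hi' : i' ≤ l) (hj' : j' ≤ l) (hij : i ≠ j) (hij' : i' ≠ j')
    (h : (frO_P f i - frO_P f j : Fin n → F) = frO_P f i' - frO_P f j') : i = i' ∧ j = j' := by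
  have key : ∀ k, k < l → ((¬ k < i ∧ k < j) ↔ (¬ k < i' ∧ k < j')) ∧
      ((k < i ∧ ¬ k < j) ↔ (k < i' ∧ ¬ k < j')) := by
    intro k hk
    apply frO_one hF
    have h2 := congrFun h (f ⟨k, hk⟩)
    rw [Pi.sub_apply, Pi.sub_apply, frO_coord f hf k hk i hi, frO_coord f hf k hk j hj,
      frO_coord f hf k hk i' hi', frO_coord f hf k hk j' hj'] at h2
    exact h2
  rcases lt_or_gt_of_ne hij with h0 | h0
  · have k1 := (key i (by omega)).1
    have k2 := (key (j - 1) (by omega)).1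
    rcases lt_or_gt_of_ne hij' with h0' | h0'
    · have k3 := (key i' (by omega)).1
      have k4 := (key (j' - 1) (by omega)).1
      omega
    · omega
  · have k1 := (key j (by omega)).2
    have k2 := (key (i - 1) (by omega)).2
    rcases lt_or_gt_of_ne hij' with h0' | h0'
    · omega
    · have k3 := (key j' (by omega)).2
      have k4 := (key (i' - 1) (by omega)).2
      omega

theorem pts_path {F : Type} [Field F] {n : ℕ} (c : Fin n → Fin n → F) (hc : IsGram c) (l : ℕ)
    (f : Fin l → Fin n)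
    (hf : Function.Injective f) (h1 : ∀ i j : Fin l, i.1 + 1 = j.1 → c (f i) (f j) = -1)
    (h2 : ∀ i j : Fin l, i.1 + 2 ≤ j.1 → c (f i) (f j) = 0) (hF : (2 : F) ≠ 0) :
    ∃ p : Fin (l + 1) → Fin n → F, IsPts c p 0 (0 : PUnit →+ F) ∧
      (∀ i : Fin l, p i.castSucc - p i.succ = al (f i)) ∧
      ∀ i j r, r ∉ Set.range f → (p i - p j) r = 0 := by
  refine ⟨fun i => frO_P f i.1, ⟨?_, ?_, ?_, ?_⟩, ?_, ?_⟩
  · intro i j k m
    have hle : ∀ a : Fin (l + 1), a.1 ≤ l := fun a => Nat.lt_succ_iff.1 a.2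
    rw [bil_sub_left, bil_sub_right, bil_sub_right,
      frO_PP c hc f h1 h2 i.1 (hle i) k.1 (hle k), frO_PP c hc f h1 h2 i.1 (hle i) m.1 (hle m),
      frO_PP c hc f h1 h2 j.1 (hle j) k.1 (hle k), frO_PP c hc f h1 h2 j.1 (hle j) m.1 (hle m)]
    simp only [Fin.ext_iff]
    ring
  · intro i j
    exact frO_bil_zero_left c _
  · exact frO_bil_zero_left c _
  · rintro ⟨⟨i, j, z⟩, hij⟩ ⟨⟨i', j', z'⟩, hij'⟩ h
    simp only [vec, smul_zero, add_zero] at h
    have hle : ∀ a : Fin (l + 1), a.1 ≤ l := fun a => Nat.lt_succ_iff.1 a.2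
    obtain ⟨e1, e2⟩ := frO_inj f hf hF i.1 j.1 i'.1 j'.1 (hle i) (hle j) (hle i') (hle j')
      (fun e => hij (Fin.ext e)) (fun e => hij' (Fin.ext e)) h
    have e1' : i = i' := Fin.ext e1
    have e2' : j = j' := Fin.ext e2
    subst e1' e2'
    rfl
  · intro i
    show frO_P f i.1 - frO_P f (i.1 + 1) = al (f i)
    rw [frO_P, frO_b, dif_pos i.2]
    abel
  · intro i j r hr
    show (frO_P f i.1 : Fin n → F) r - (frO_P f j.1 : Fin n → F) r = 0
    rw [frO_supp f r hr, frO_supp f r hr, sub_zero]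

end Pool.Agent.FR
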