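import Pool.Agent.Lib.MP_d24c19_al.FR.StepRel
import Pool.Agent.Lib.MP_d24c19_al.FR.I
import Pool.Agent.Lib.MP_d24c19_al.FR.N
import Pool.Agent.Lib.MP_d24c19_al.FR.DefsB

set_option autoImplicit false

/-!
The action of the Artin group on frames; base frame and orbits of a chain.
-/

namespace Pool.Agent.FR

open Pool.Agent.VB (ArcSys St Psi cyc path ArcHom)
open Pool.Agent.AR (Art gen)


variable {n : ℕ} {M : CoxeterMatrix (Fin n)}

/-- the action of the Artin group on frames -/
noncomputable def OmM {F : Type} [Field F] (D : RootData M F) {S' K : Type} [Group K]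
    (x : S' → K) : Art M →* Equiv.Perm (FB D.c x × K) :=
  Pool.Agent.AR.artLift (stepP D.gram x) (by
    intro i j hij
    by_cases h : i = j
    · rw [h]
    · have h1 := M.off_diagonal i j h
      exact step_rel D.gram x (D.z i j) (M.M i j) (by omega) (D.prim i j h hij) i j h
        (D.val i j h hij) D.two D.three)

theorem OmM_gen {F : Type} [Field F] (D : RootData M F) {S' K : Type} [Group K]
    (x : S' → K) (s : Fin n) : OmM D x (gen M s) = stepP D.gram x s :=
  Pool.Agent.AR.artLift_gen _ _ s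

theorem OmM_coc {F : Type} [Field F] (D : RootData M F) {S' K : Type} [Group K]
    (x : S' → K) : Coc (OmM D x) :=
  coc_of_gen (gen M) (Pool.Agent.AR.art_top M) (fun s y k h => by
    rw [OmM_gen, stepP_apply, stepP_apply]
    exact stepF_mul D.gram x s y k h)

/-- the base frame of a chain -/
noncomputable def Chain.base {F : Type} [Field F] (D : RootData M F) {S₁ W₁ : Type}
    {A : ArcSys S₁ W₁} (Ch : Chain D.c S₁ W₁ A) : FB D.c (wk Ch.W' Ch.Z').x :=
  letI := Ch.dW
  letI := Ch.aZ
  ⟨lam0 Ch.p Ch.δ Ch.ι, lam0_frame D.c D.gram D.two D.three Ch.p Ch.δ Ch.ι Ch.pts⟩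

/-- the frames `lam0 ∘ u`, `u` a product of reflections in the link of `s` -/
def Chain.Orb {F : Type} [Field F] (D : RootData M F) {S₁ W₁ : Type}
    {A : ArcSys S₁ W₁} (Ch : Chain D.c S₁ W₁ A) (s : Fin n) : Set (FB D.c (wk Ch.W' Ch.Z').x) :=
  {lam | ∃ u ∈ Submonoid.closure {v : Module.End F (Fin n → F) | ∃ r, Ad M r s ∧ v = R D.c (al r)},
    ∀ b, lam.1 b = (Ch.base D).1 (u b)}

end Pool.Agent.FR
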