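import Pool.Agent.Lib.MP_d24c19_al.FR.DefsB

set_option autoImplicit false

/-!
ROW fr-Pc: points of a cycle `f 0, .., f (m-1)`, `m = M + 3`: `p i = - ∑_{k < i} α_{f k}` (`i : Fin m`), `δ = ∑_k α_{f k}`, winding numbers in `F`. `B(δ, α_{f k}) = 2 - 1 - 1 = 0`. The Gram matrix of the points
only involves `f 0 .. f (m-2)` (a path with `m-1` arcs and `m` sites): same computation as for a path: `B(p i - p j, p k - p l) = [i=k]-[i=l]-[j=k]+[j=l]` (you may reuse row O by importing it: restrict `f` to `Fin (m-1)`).
`p (m-1) - p 0 + δ = α_{f (m-1)}`. Injective: the coordinate at `f (m-1)` of `p i - p j + z δ` is `z`; the other coordinates (`k < m-1`) are `z + 1` for `i ≤ k < j`, `z - 1` for `j ≤ k < i`, `z` otherwise; `1 ≠ -1`.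
-/

namespace Pool.Agent.FR

open Pool.Agent.VB (ArcSys St Psi cyc path ArcHom)
open Pool.Agent.AR (Art gen)

section frPc
variable {F : Type} [Field F] {n : ℕ}

/-- combination of the simple roots of the cycle -/
private def frPc_v {m : ℕ} (f : Fin m → Fin n) (u : Fin m → F) : Fin n → F :=
  ∑ k, u k • al (f k)

private theorem frPc_bil_sum_left (c : Fin n → Fin n → F) {ι : Type} (s : Finset ι)
    (g : ι → Fin n → F) (w : Fin n → F) : bil c (∑ k ∈ s, g k) w = ∑ k ∈ s, bil c (g k) w := by
  classical
  induction s using Finset.induction_on with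
  | empty =>
    rw [Finset.sum_empty, Finset.sum_empty]
    have := bil_smul_left c 0 (0 : Fin n → F) w
    rwa [zero_smul, zero_mul] at this
  | insert a s ha ih => rw [Finset.sum_insert ha, Finset.sum_insert ha, bil_add_left, ih]

private theorem frPc_bil_sum_right (c : Fin n → Fin n → F) {ι : Type} (s : Finset ι)
    (g : ι → Fin n → F) (w : Fin n → F) : bil c w (∑ k ∈ s, g k) = ∑ k ∈ s, bil c w (g k) := by
  classical
  induction s using Finset.induction_on with
  | empty =>
    rw [Finset.sum_empty, Finset.sum_empty]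
    have := bil_smul_right c 0 w (0 : Fin n → F)
    rwa [zero_smul, zero_mul] at this
  | insert a s ha ih => rw [Finset.sum_insert ha, Finset.sum_insert ha, bil_add_right, ih]

private theorem frPc_ne1 (M : ℕ) (k : Fin (M + 3)) : k + 1 ≠ k := by
  intro h
  have h1 : (1 : Fin (M + 3)) = 0 := by
    have := congrArg (fun x => x - k) h
    simpa using this
  have h2 := congrArg Fin.val h1
  simp at h2

private theorem frPc_ne2 (M : ℕ) (k : Fin (M + 3)) : k + 1 + 1 ≠ k := by
  intro h
  have h1 : (1 + 1 : Fin (M + 3)) = 0 := by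
    have := congrArg (fun x => x - k) h
    simpa [add_assoc] using this
  have h2 := congrArg Fin.val h1
  rw [Fin.val_add] at h2
  have h3 : ((1 : Fin (M + 3)) : ℕ) = 1 := by simp
  rw [h3, Nat.mod_eq_of_lt (by omega)] at h2
  simp at h2

private theorem frPc_form (c : Fin n → Fin n → F) (hc : IsGram c) (M : ℕ)
    (f : Fin (M + 3) → Fin n)
    (h1 : ∀ i : Fin (M + 3), c (f i) (f (i + 1)) = -1)
    (h2 : ∀ i j : Fin (M + 3), i ≠ j → i + 1 ≠ j → j + 1 ≠ i → c (f i) (f j) = 0)
    (u w : Fin (M + 3) → F) :
    bil c (frPc_v f u) (frPc_v f w) = ∑ k, (u (k + 1) - u k) * (w (k + 1) - w k) := by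
  have hcc : ∀ k l : Fin (M + 3), c (f k) (f l) =
      (if k = l then 2 else 0) - (if k + 1 = l then 1 else 0) - (if l + 1 = k then 1 else 0) := by
    intro k l
    by_cases e1 : k = l
    · subst e1
      rw [hc.two, if_pos rfl, if_neg (frPc_ne1 M k), sub_zero, sub_zero]
    · rw [if_neg e1]
      by_cases e2 : k + 1 = l
      · subst e2
        rw [h1, if_pos rfl, if_neg (frPc_ne2 M k)]
        ring
      · rw [if_neg e2]
        by_cases e3 : l + 1 = k
        · subst e3
          rw [hc.symm, h1, if_pos rfl]
          ring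
        · rw [if_neg e3, h2 k l e1 e2 e3]
          ring
  have hA : bil c (frPc_v f u) (frPc_v f w) =
      ∑ k, u k * (2 * w k - w (k + 1)) - ∑ l, w l * u (l + 1) := by
    unfold frPc_v
    rw [frPc_bil_sum_left]
    have hin : ∀ k : Fin (M + 3), bil c (u k • al (f k)) (∑ l, w l • al (f l)) =
        u k * (2 * w k - w (k + 1)) - ∑ l, (if l + 1 = k then w l * u k else 0) := by
      intro k
      rw [bil_smul_left, frPc_bil_sum_right]
      have : ∀ l : Fin (M + 3), bil c (al (f k)) (w l • al (f l)) =
          (if k = l then 2 * w l else 0) - (if k + 1 = l then w l else 0) -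
            (if l + 1 = k then w l else 0) := by
        intro l
        rw [bil_smul_right, bil_al, hcc]
        split_ifs <;> ring
      rw [Finset.sum_congr rfl (fun l _ => this l), Finset.sum_sub_distrib,
        Finset.sum_sub_distrib, Finset.sum_ite_eq, Finset.sum_ite_eq,
        if_pos (Finset.mem_univ _), if_pos (Finset.mem_univ _), mul_sub, Finset.mul_sum]
      congr 1
      refine Finset.sum_congr rfl (fun l _ => ?_)
      split_ifs <;> ring
    rw [Finset.sum_congr rfl (fun k _ => hin k), Finset.sum_sub_distrib, Finset.sum_comm]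
    congr 1
    refine Finset.sum_congr rfl (fun l _ => ?_)
    rw [Finset.sum_ite_eq, if_pos (Finset.mem_univ _)]
  have hB : ∑ k : Fin (M + 3), u (k + 1) * w (k + 1) = ∑ k, u k * w k :=
    Equiv.sum_comp (Equiv.addRight (1 : Fin (M + 3))) (fun k => u k * w k)
  have hC : ∑ k : Fin (M + 3), (u (k + 1) - u k) * (w (k + 1) - w k) =
      ∑ k, u (k + 1) * w (k + 1) - ∑ k, w k * u (k + 1) - ∑ k, u k * w (k + 1) +
        ∑ k, u k * w k := by
    rw [← Finset.sum_sub_distrib, ← Finset.sum_sub_distrib, ← Finset.sum_add_distrib]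
    exact Finset.sum_congr rfl (fun k _ => by ring)
  have hD : ∑ k : Fin (M + 3), u k * (2 * w k - w (k + 1)) =
      ∑ k, u k * w k + ∑ k, u k * w k - ∑ k, u k * w (k + 1) := by
    rw [← Finset.sum_add_distrib, ← Finset.sum_sub_distrib]
    exact Finset.sum_congr rfl (fun k _ => by ring)
  rw [hA, hC, hB, hD]
  ring

private theorem frPc_v_apply {m : ℕ} (f : Fin m → Fin n) (hf : Function.Injective f)
    (u : Fin m → F) (l : Fin m) : frPc_v f u (f l) = u l := by
  unfold frPc_v
  rw [Finset.sum_apply, Finset.sum_eq_single l]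
  · simp [al]
  · intro b _ hb
    have : f l ≠ f b := fun h => hb (hf h).symm
    simp [al, this]
  · intro h
    exact absurd (Finset.mem_univ _) h

private theorem frPc_v_out {m : ℕ} (f : Fin m → Fin n) (u : Fin m → F) (r : Fin n)
    (hr : r ∉ Set.range f) : frPc_v f u r = 0 := by
  unfold frPc_v
  rw [Finset.sum_apply]
  refine Finset.sum_eq_zero (fun k _ => ?_)
  have : r ≠ f k := fun h => hr ⟨k, h.symm⟩
  simp [al, this]

private theorem frPc_v_sub {m : ℕ} (f : Fin m → Fin n) (u w : Fin m → F) :
    frPc_v f u - frPc_v f w = frPc_v f (fun k => u k - w k) := by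
  unfold frPc_v
  rw [← Finset.sum_sub_distrib]
  exact Finset.sum_congr rfl (fun k _ => (sub_smul _ _ _).symm)

private theorem frPc_v_add {m : ℕ} (f : Fin m → Fin n) (u w : Fin m → F) :
    frPc_v f u + frPc_v f w = frPc_v f (fun k => u k + w k) := by
  unfold frPc_v
  rw [← Finset.sum_add_distrib]
  exact Finset.sum_congr rfl (fun k _ => (add_smul _ _ _).symm)

private theorem frPc_v_smul {m : ℕ} (f : Fin m → Fin n) (x : F) (u : Fin m → F) :
    x • frPc_v f u = frPc_v f (fun k => x * u k) := by
  unfold frPc_v
  rw [Finset.smul_sum]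
  exact Finset.sum_congr rfl (fun k _ => smul_smul _ _ _)

/-- coefficients of the point `i` -/
private def frPc_u {M : ℕ} (i k : Fin (M + 3)) : F := if k < i then -1 else 0

private theorem frPc_u_step {M : ℕ} (i k : Fin (M + 3)) :
    (frPc_u i (k + 1) : F) - frPc_u i k =
      (if k + 1 = i then 1 else 0) - (if k = Fin.last (M + 2) then 1 else 0) := by
  unfold frPc_u
  by_cases hk : k = Fin.last (M + 2)
  · subst hk
    have h0 : Fin.last (M + 2) + 1 = (0 : Fin (M + 3)) := Fin.last_add_one (M + 2)
    rw [h0, if_pos rfl, if_neg (not_lt.2 (Fin.le_last i))]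
    by_cases hi : i = 0
    · subst hi
      simp
    · rw [if_pos (Fin.pos_of_ne_zero hi), if_neg (Ne.symm hi)]
      ring
  · rw [if_neg hk]
    have hlt : k < Fin.last (M + 2) := lt_of_le_of_ne (Fin.le_last k) hk
    have hv : ((k + 1 : Fin (M + 3)) : ℕ) = (k : ℕ) + 1 := Fin.val_add_one_of_lt hlt
    by_cases e : k + 1 = i
    · subst e
      have : k < k + 1 := by rw [Fin.lt_def, hv]; omega
      rw [if_neg (lt_irrefl _), if_pos this, if_pos rfl]
      ring
    · rw [if_neg e]
      have e' : (k : ℕ) + 1 ≠ (i : ℕ) := by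
        intro h
        apply e
        ext
        rw [hv, h]
      by_cases h3 : k < i
      · have h4 : k + 1 < i := by
          rw [Fin.lt_def, hv]
          rw [Fin.lt_def] at h3
          omega
        rw [if_pos h3, if_pos h4]
        ring
      · have h4 : ¬ k + 1 < i := by
          rw [Fin.lt_def, hv]
          rw [Fin.lt_def] at h3
          omega
        rw [if_neg h3, if_neg h4]

private theorem frPc_diff {M : ℕ} (i j k : Fin (M + 3)) :
    ((frPc_u i (k + 1) : F) - frPc_u j (k + 1)) - (frPc_u i k - frPc_u j k) =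
      (if k + 1 = i then 1 else 0) - (if k + 1 = j then 1 else 0) := by
  have h1 := frPc_u_step (F := F) i k
  have h2 := frPc_u_step (F := F) j k
  linear_combination h1 - h2

private theorem frPc_self {M : ℕ} (i k : Fin (M + 3)) :
    (frPc_u i k : F) - frPc_u (i + 1) k + (if i = Fin.last (M + 2) then (1 : F) else 0) =
      if k = i then 1 else 0 := by
  unfold frPc_u
  by_cases hi : i = Fin.last (M + 2)
  · subst hi
    have h0 : Fin.last (M + 2) + 1 = (0 : Fin (M + 3)) := Fin.last_add_one (M + 2)
    rw [h0, if_pos rfl, if_neg (Fin.not_lt_zero k)]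
    by_cases hk : k = Fin.last (M + 2)
    · subst hk
      simp
    · have hlt : k < Fin.last (M + 2) := lt_of_le_of_ne (Fin.le_last k) hk
      rw [if_pos hlt, if_neg hk]
      norm_num
  · rw [if_neg hi]
    have hlt : i < Fin.last (M + 2) := lt_of_le_of_ne (Fin.le_last i) hi
    have hv : ((i + 1 : Fin (M + 3)) : ℕ) = (i : ℕ) + 1 := Fin.val_add_one_of_lt hlt
    by_cases e : k = i
    · subst e
      have : k < k + 1 := by rw [Fin.lt_def, hv]; omega
      rw [if_neg (lt_irrefl _), if_pos this, if_pos rfl]
      ring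
    · rw [if_neg e]
      have e' : (k : ℕ) ≠ (i : ℕ) := fun h => e (Fin.ext h)
      by_cases h3 : k < i
      · have h4 : k < i + 1 := by
          rw [Fin.lt_def, hv]
          rw [Fin.lt_def] at h3
          omega
        rw [if_pos h3, if_pos h4]
        ring
      · have h4 : ¬ k < i + 1 := by
          rw [Fin.lt_def, hv]
          rw [Fin.lt_def] at h3
          omega
        rw [if_neg h3, if_neg h4]
        ring

end frPc

theorem pts_cycle {F : Type} [Field F] {n : ℕ} (c : Fin n → Fin n → F) (hc : IsGram c) (M : ℕ)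
    (f : Fin (M + 3) → Fin n)
    (hf : Function.Injective f) (h1 : ∀ i : Fin (M + 3), c (f i) (f (i + 1)) = -1)
    (h2 : ∀ i j : Fin (M + 3), i ≠ j → i + 1 ≠ j → j + 1 ≠ i → c (f i) (f j) = 0)
    (hF : (2 : F) ≠ 0) :
    ∃ (p : Fin (M + 3) → Fin n → F) (δ : Fin n → F), IsPts c p δ (AddMonoidHom.id F) ∧
      (∀ i : Fin (M + 3), p i - p (i + 1) + (if i = Fin.last (M + 2) then (1 : F) else 0) • δ =
        al (f i)) ∧
      (∀ i j r, r ∉ Set.range f → (p i - p j) r = 0) ∧ ∀ r, r ∉ Set.range f → δ r = 0 := by
  have hform := frPc_form c hc M f h1 h2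
  refine ⟨fun i => frPc_v f (frPc_u i), frPc_v f (fun _ => 1), ⟨?_, ?_, ?_, ?_⟩, ?_, ?_, ?_⟩
  · intro i j k l
    rw [frPc_v_sub, frPc_v_sub, hform]
    have e1 : ∀ a : Fin (M + 3), ((frPc_u i (a + 1) : F) - frPc_u j (a + 1) -
        (frPc_u i a - frPc_u j a)) * (frPc_u k (a + 1) - frPc_u l (a + 1) -
        (frPc_u k a - frPc_u l a)) =
        (fun b => ((if b = i then (1 : F) else 0) - (if b = j then 1 else 0)) *
          ((if b = k then 1 else 0) - (if b = l then 1 else 0))) (a + 1) := by
      intro a
      rw [frPc_diff, frPc_diff]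
    rw [Finset.sum_congr rfl (fun a _ => e1 a)]
    refine (Equiv.sum_comp (Equiv.addRight (1 : Fin (M + 3))) (fun b =>
      ((if b = i then (1 : F) else 0) - (if b = j then 1 else 0)) *
          ((if b = k then 1 else 0) - (if b = l then 1 else 0)))).trans ?_
    have e2 : ∀ b : Fin (M + 3), ((if b = i then (1 : F) else 0) - (if b = j then 1 else 0)) *
          ((if b = k then 1 else 0) - (if b = l then 1 else 0)) =
        (if b = i then ((if b = k then 1 else 0) - (if b = l then 1 else 0)) else 0) -
        (if b = j then ((if b = k then 1 else 0) - (if b = l then 1 else 0)) else 0) := by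
      intro b
      split_ifs <;> ring
    rw [Finset.sum_congr rfl (fun b _ => e2 b), Finset.sum_sub_distrib, Finset.sum_ite_eq',
      Finset.sum_ite_eq', if_pos (Finset.mem_univ _), if_pos (Finset.mem_univ _)]
    ring
  · intro i j
    rw [frPc_v_sub, hform]
    exact Finset.sum_eq_zero (fun k _ => by rw [sub_self, zero_mul])
  · rw [hform]
    exact Finset.sum_eq_zero (fun k _ => by rw [sub_self, zero_mul])
  · rintro ⟨⟨i, j, z⟩, hij⟩ ⟨⟨i', j', z'⟩, hij'⟩ h
    simp only [vec, AddMonoidHom.id_apply] at h hij hij'
    rw [frPc_v_sub, frPc_v_sub, frPc_v_smul, frPc_v_smul, frPc_v_add, frPc_v_add] at h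
    have hk : ∀ k, (frPc_u i k : F) - frPc_u j k + z * 1 = frPc_u i' k - frPc_u j' k + z' * 1 := by
      intro k
      have := congrFun h (f k)
      rwa [frPc_v_apply f hf, frPc_v_apply f hf] at this
    have hz : z = z' := by
      have := hk (Fin.last (M + 2))
      have h0 : ∀ i : Fin (M + 3), (frPc_u i (Fin.last (M + 2)) : F) = 0 := by
        intro i
        unfold frPc_u
        rw [if_neg (not_lt.2 (Fin.le_last i))]
      simp only [h0] at this
      linear_combination this
    have hd : ∀ k : Fin (M + 3), (if k = i then (1 : F) else 0) - (if k = j then 1 else 0) =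
        (if k = i' then 1 else 0) - (if k = j' then 1 else 0) := by
      intro k
      have e := frPc_diff (F := F) i j (k - 1)
      have e' := frPc_diff (F := F) i' j' (k - 1)
      rw [sub_add_cancel] at e e'
      have a1 := hk k
      have a2 := hk (k - 1)
      linear_combination a1 - a2 - e + e'
    have hne : (1 : F) ≠ -1 := by
      intro h
      apply hF
      linear_combination h
    have hi : i = i' := by
      by_contra hne1
      have e := hd i
      rw [if_pos rfl, if_neg hij, if_neg hne1] at e
      by_cases e2 : i = j'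
      · rw [if_pos e2] at e
        apply hne
        linear_combination e
      · rw [if_neg e2] at e
        apply one_ne_zero (α := F)
        linear_combination e
    have hj : j = j' := by
      by_contra hne1
      have e := hd j
      rw [if_pos rfl, if_neg (Ne.symm hij), if_neg hne1] at e
      by_cases e2 : j = i'
      · rw [if_pos e2] at e
        apply hne
        linear_combination -e
      · rw [if_neg e2] at e
        apply one_ne_zero (α := F)
        linear_combination -e
    subst hi hj hz
    rfl
  · intro i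
    simp only
    rw [frPc_v_sub, frPc_v_smul, frPc_v_add]
    have : (fun k => (frPc_u i k : F) - frPc_u (i + 1) k +
        (if i = Fin.last (M + 2) then (1 : F) else 0) * 1) = fun k => if k = i then 1 else 0 := by
      funext k
      rw [mul_one]
      exact frPc_self i k
    rw [this]
    unfold frPc_v
    rw [Finset.sum_eq_single i]
    · simp
    · intro b _ hb
      simp [hb]
    · intro h
      exact absurd (Finset.mem_univ _) h
  · intro i j r hr
    rw [frPc_v_sub]
    exact frPc_v_out f _ r hr
  · intro r hr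
    exact frPc_v_out f _ r hr

end Pool.Agent.FR
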