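import Pool.Agent.Lib.MP_d24c19_al.FR.A
import Pool.Agent.Lib.MP_d24c19_al.FR.B
import Pool.Agent.Lib.MP_d24c19_al.FR.C
import Pool.Agent.Lib.MP_d24c19_al.FR.D
import Pool.Agent.Lib.MP_d24c19_al.FR.E
import Pool.Agent.Lib.MP_d24c19_al.FR.Fa

set_option autoImplicit false

/-!
The permutations `stepP s` satisfy the Artin relations.
-/

namespace Pool.Agent.FR

variable {F : Type} [Field F] {n : ℕ} {S' K : Type} [Group K]

theorem step_rel {c : Fin n → Fin n → F} (hc : IsGram c) (x : S' → K) (z : F) (m : ℕ) (hm : 2 ≤ m)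
    (hz : IsPrimitiveRoot z (2 * m)) (s t : Fin n) (hst : s ≠ t) (hcs : c s t = -(z + z⁻¹))
    (h2 : (2 : F) ≠ 0) (h3 : (3 : F) ≠ 0) :
    Pool.Agent.AR.alt m (stepP hc x s) (stepP hc x t) =
      Pool.Agent.AR.alt m (stepP hc x t) (stepP hc x s) := by
  apply Equiv.ext
  rintro ⟨lam, k⟩
  have key : runF hc x (altL s t m) (lam, k) = runF hc x (altL t s m) (lam, k) := by
    obtain ⟨e1, e2, e3⟩ := rts_alt c hc z m hm hz s t hst hcs
    obtain ⟨nu, h1, h1'⟩ := run_fold hc x lam (altL s t m) LinearMap.id LinearMap.id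
      (fun _ _ => rfl) k lam (fun _ => rfl)
    obtain ⟨nu', h4, h4'⟩ := run_fold hc x lam (altL t s m) LinearMap.id LinearMap.id
      (fun _ _ => rfl) k lam (fun _ => rfl)
    have e4 : foldF c x lam.1 (rts c (altL s t m) LinearMap.id) (LinearMap.id, k) =
        foldF c x lam.1 (rts c (altL t s m) LinearMap.id) (LinearMap.id, k) := by
      rw [e1, e2, fold_filter hc x lam ((List.range m).map (dr z s t)) (LinearMap.id, k)
        (fun _ => Iff.rfl), fold_filter hc x lam ((List.range m).map (dr z s t)).reverse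
        (LinearMap.id, k) (fun _ => Iff.rfl), List.filter_reverse]
      apply fold_shape hc x lam
      · intro b hb
        rw [List.mem_filter] at hb
        intro h
        rw [h] at hb
        simp at hb
      · apply shape_dr c hc z m hm hz s t hst hcs h2 h3
        · intro b b' hb hb'
          obtain ⟨a, ha⟩ := Option.isSome_iff_exists.1 hb
          obtain ⟨a', ha'⟩ := Option.isSome_iff_exists.1 hb'
          exact lam.2.gram _ _ a a' ha ha'
        · intro b b' hb hb'
          obtain ⟨a, ha⟩ := Option.isSome_iff_exists.1 hb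
          obtain ⟨a', ha'⟩ := Option.isSome_iff_exists.1 hb'
          obtain ⟨a'', h5⟩ := lam.2.refl _ _ a a' ha ha'
          rw [h5]
          rfl
    rw [h1, h4, e4]
    congr 1
    apply Subtype.ext
    funext b
    rw [h1', h4', e4, e3]
  rw [alt_run, alt_run, key]

end Pool.Agent.FR
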