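import Pool.Agent.Lib.MP_d24c19_al.FR.DefsB
import Pool.Agent.Lib.MP_d24c19_al.FR.O
import Pool.Agent.Lib.MP_d24c19_al.FR.Pc
import Pool.Agent.Lib.MP_d24c19_al.FR.Q

set_option autoImplicit false

/-!
ROW fr-X1: homomorphisms and chains of paths and cycles. Homs: `Pool.Agent.VB.artLift`; relations of `path l`: `br s r` means `r = s + 1`, `cm s r` distance at least 2; of `cyc m`: `br s r`: `r = s + 1`, `cm`: not equal, not neighbours.
In `Art M`: label 3 gives the braid relation, label 2 the commutation (`Pool.Agent.AR.gen_rel` with `alt` unfolded, see `CLset_union` in ../CL.lean). Chains: path: `W' = Fin (l+1)`, `Z' = PUnit`, `p` of `pts_path`, `δ = 0`, `φ.f i = (i.castSucc, i.succ, 0)`, `φ.v = id`;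
cycle: `W' = Fin (m+3)`, `Z' = F`, `pts_cycle`, `φ.f i = (i, i+1, if i = last then 1 else 0)`, `φ.v = id`.
-/

namespace Pool.Agent.FR

open Pool.Agent.VB (ArcSys St Psi cyc path ArcHom)
open Pool.Agent.AR (Art gen)


variable {n : ℕ} (M : CoxeterMatrix (Fin n))

private theorem frX1_rel3 {a b : Fin n} (h : M.M a b = 3) :
    gen M a * gen M b * gen M a = gen M b * gen M a * gen M b := by
  have h1 := Pool.Agent.AR.gen_rel M a b (by omega)
  rw [h] at h1
  simpa [Pool.Agent.AR.alt, mul_assoc] using h1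

private theorem frX1_rel2 {a b : Fin n} (h : M.M a b = 2) :
    gen M a * gen M b = gen M b * gen M a := by
  have h1 := Pool.Agent.AR.gen_rel M a b (by omega)
  rw [h] at h1
  simpa [Pool.Agent.AR.alt] using h1

private theorem frX1_symm (a b : Fin n) : M.M a b = M.M b a := M.symmetric a b

private theorem frX1_pcm {l : ℕ} {s r : Fin l} (h : (path l).cm s r) :
    s.1 + 2 ≤ r.1 ∨ r.1 + 2 ≤ s.1 := by
  obtain ⟨h1, h2, h3, h4⟩ := h
  have e1 : s.1 ≠ r.1 := fun h => h1 (Fin.ext h)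
  have e2 : s.1 ≠ r.1 + 1 := fun h => h2 (Fin.ext h)
  have e3 : s.1 + 1 ≠ r.1 := fun h => h3 (Fin.ext h)
  omega

theorem path_hom {l : ℕ} (f : Fin l → Fin n) (h : PathIn M f) :
    ∃ ι : (path l).G →* Art M, ∀ i, ι ((path l).x i) = gen M (f i) := by
  refine ⟨Pool.Agent.VB.artLift (fun i => gen M (f i)) ?_ ?_, fun i =>
    Pool.Agent.VB.artLift_gen _ _ _ _⟩
  · intro s r hb
    have e : s.1 + 1 = r.1 := congrArg Fin.val hb.1
    exact frX1_rel3 M (h.2.1 s r e)
  · intro s r hb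
    rcases frX1_pcm hb with e | e
    · exact frX1_rel2 M (h.2.2 s r e)
    · exact (frX1_rel2 M (h.2.2 r s e)).symm

theorem cyc_hom {m : ℕ} (f : Fin (m + 3) → Fin n) (h : CycIn M f) :
    ∃ ι : (cyc m).G →* Art M, ∀ i, ι ((cyc m).x i) = gen M (f i) := by
  refine ⟨Pool.Agent.VB.artLift (fun i => gen M (f i)) ?_ ?_, fun i =>
    Pool.Agent.VB.artLift_gen _ _ _ _⟩
  · intro s r hb
    have e : s + 1 = r := hb.1
    subst e
    exact frX1_rel3 M (h.2.1 s)
  · intro s r hb
    obtain ⟨h1, h2, h3, -⟩ := hb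
    exact frX1_rel2 M (h.2.2 s r h1 h3 (fun e => h2 e.symm))

theorem path_chain {F : Type} [Field F] [Finite F] (D : RootData M F) {l : ℕ} (f : Fin l → Fin n)
    (h : PathIn M f) : ∃ Ch : Chain D.c (Fin l) (Fin (l + 1)) (path l), Ch.f = f := by
  obtain ⟨p, hp, hv, hs⟩ := pts_path D.c D.gram l f h.1
    (fun i j hij => D.c_three (h.2.1 i j hij)) (fun i j hij => D.c_two (h.2.2 i j hij)) D.two
  refine ⟨⟨Fin (l + 1), PUnit, inferInstance, inferInstance, inferInstance, inferInstance, p, 0, 0,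
    hp, f, ⟨fun i => ⟨(i.castSucc, i.succ, PUnit.unit), (path l).ne i⟩, id, ?_,
      Function.injective_id, fun _ => rfl, fun _ => rfl⟩, ?_, ?_⟩, rfl⟩
  · intro i j hij
    have := congrArg (fun q => q.1.1) hij
    exact Fin.castSucc_injective _ this
  · intro i
    change p i.castSucc - p i.succ + (0 : PUnit.{1} →+ F) PUnit.unit.{1} • (0 : Fin n → F) = al (f i)
    rw [smul_zero, add_zero, hv]
  · intro q r hr
    change (p q.1.1 - p q.1.2.1) r + ((0 : PUnit.{1} →+ F) q.1.2.2 • (0 : Fin n → F)) r = 0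
    rw [hs _ _ r hr, smul_zero, Pi.zero_apply, add_zero]

theorem cyc_chain {F : Type} [Field F] [Finite F] (D : RootData M F) {m : ℕ}
    (f : Fin (m + 3) → Fin n) (h : CycIn M f) :
    ∃ Ch : Chain D.c (Fin (m + 3)) (Fin (m + 3)) (cyc m), Ch.f = f := by
  obtain ⟨p, δ, hp, hv, hs, hd⟩ := pts_cycle D.c D.gram m f h.1
    (fun i => D.c_three (h.2.1 i)) (fun i j h1 h2 h3 => D.c_two (h.2.2 i j h1 h2 h3)) D.two
  refine ⟨⟨Fin (m + 3), F, inferInstance, inferInstance, inferInstance, inferInstance, p, δ,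
    AddMonoidHom.id F,
    hp, f, ⟨fun i => ⟨(i, i + 1, if i = Fin.last (m + 2) then (1 : F) else 0), (cyc m).ne i⟩, id,
      ?_, Function.injective_id, fun _ => rfl, fun _ => rfl⟩, ?_, ?_⟩, rfl⟩
  · intro i j hij
    have := congrArg (fun q => q.1.1) hij
    exact this
  · intro i
    exact hv i
  · intro q r hr
    change (p q.1.1 - p q.1.2.1) r + q.1.2.2 * δ r = 0
    rw [hs _ _ r hr, hd r hr, mul_zero, add_zero]

end Pool.Agent.FR
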